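import Mathlib

set_option autoImplicit false
open Filter Topology MeasureTheory ProbabilityTheory

namespace Pool.Agent.Results.MP_937656_gt.PolytopeIntersection

section Defs

variable {E : Type*} [NormedAddCommGroup E] [InnerProductSpace ℝ E]

/-- A polytope: the convex hull of finitely many points, with nonempty interior. -/
def IsPolytope (K : Set E) : Prop :=
  (∃ V : Finset E, K = convexHull ℝ (V : Set E)) ∧ (interior K).Nonempty

/-- The polar of a set. -/
def polarBody (K : Set E) : Set E := {y | ∀ x ∈ K, inner ℝ x y ≤ (1 : ℝ)}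

/-- An origin-symmetric zonotope `Z = ∑ [-v i, v i]` whose generators span the space. -/
def IsSymmZonotope (Z : Set E) : Prop :=
  ∃ (m : ℕ) (v : Fin m → E), Submodule.span ℝ (Set.range v) = ⊤ ∧
    Z = {x | ∃ t : Fin m → ℝ, (∀ i, |t i| ≤ 1) ∧ x = ∑ i, t i • v i}

/-- The radial function `ρ_K(u) = max {t ≥ 0 : t u ∈ K}`. -/
noncomputable def radial (K : Set E) (u : E) : ℝ := sSup {t : ℝ | 0 ≤ t ∧ t • u ∈ K}

/-- Origin-symmetric star bodies: compact symmetric sets, star-shaped with respect to the origin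
which is an interior point, with continuous radial function on the unit sphere. -/
def IsSymmStarBody (K : Set E) : Prop :=
  IsCompact K ∧ (∀ x ∈ K, -x ∈ K) ∧ StarConvex ℝ 0 K ∧ (0 : E) ∈ interior K ∧
    ContinuousOn (radial K) (Metric.sphere 0 1)

variable [FiniteDimensional ℝ E] [MeasurableSpace E] [BorelSpace E]

/-- The spherical Radon transform of `f` at `v`: the integral of `f` over the great subsphere
orthogonal to `v`, with respect to its surface measure. -/
noncomputable def radon (f : E → ℝ) (v : E) : ℝ :=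
  ∫ w : Metric.sphere (0 : (ℝ ∙ v)ᗮ) 1, f (w : (ℝ ∙ v)ᗮ) ∂(volume : Measure (ℝ ∙ v)ᗮ).toSphere

/-- `ρ_K = R μ` for some finite even Borel measure `μ` on the unit sphere, in the weak sense. -/
def RadialIsRadon (K : Set E) : Prop :=
  ∃ μ : Measure (Metric.sphere (0 : E) 1), IsFiniteMeasure μ ∧ μ.map (fun u => -u) = μ ∧
    ∀ f : E → ℝ, ContinuousOn f (Metric.sphere 0 1) →
      (∀ u ∈ Metric.sphere (0 : E) 1, f (-u) = f u) →
      ∫ u : Metric.sphere (0 : E) 1, radial K u * f u ∂(volume : Measure E).toSphere =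
        ∫ v : Metric.sphere (0 : E) 1, radon f v ∂μ

/-- Intersection bodies. -/
def IsIntersectionBody (K : Set E) : Prop := IsSymmStarBody K ∧ RadialIsRadon K

end Defs

section Base

variable {E : Type*} [NormedAddCommGroup E] [InnerProductSpace ℝ E]

/-- support function of a finite set (value `0` for the empty set) -/
noncomputable def sF (A : Finset E) (x : E) : ℝ :=
  if h : A.Nonempty then A.sup' h (fun p => inner ℝ p x) else 0

open Classical in
/-- the points of `A` where `⟨·, x⟩` is maximal -/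
noncomputable def face (A : Finset E) (x : E) : Finset E :=
  A.filter (fun p => inner ℝ p x = sF A x)

/-- width of `A` in direction `v` -/
noncomputable def wd (A : Finset E) (v : E) : ℝ := sF A v + sF A (-v)

theorem sF_eq {A : Finset E} (hA : A.Nonempty) (x : E) :
    sF A x = A.sup' hA (fun p => inner ℝ p x) := by
  unfold sF; rw [dif_pos hA]

theorem le_sF {A : Finset E} {p : E} (hp : p ∈ A) (x : E) : inner ℝ p x ≤ sF A x := by
  rw [sF_eq ⟨p, hp⟩]
  exact Finset.le_sup' (fun p => inner ℝ p x) hp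

theorem exists_sF {A : Finset E} (hA : A.Nonempty) (x : E) : ∃ p ∈ A, inner ℝ p x = sF A x := by
  obtain ⟨p, hp, h⟩ := A.exists_mem_eq_sup' hA (fun p => inner ℝ p x)
  exact ⟨p, hp, by rw [sF_eq hA, h]⟩

theorem sF_le {A : Finset E} (hA : A.Nonempty) {x : E} {c : ℝ}
    (h : ∀ p ∈ A, inner ℝ p x ≤ c) : sF A x ≤ c := by
  obtain ⟨p, hp, hpx⟩ := exists_sF hA x
  rw [← hpx]; exact h p hp

theorem mem_face {A : Finset E} {x p : E} : p ∈ face A x ↔ p ∈ A ∧ inner ℝ p x = sF A x := by
  unfold face; rw [Finset.mem_filter]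

theorem face_nonempty {A : Finset E} (hA : A.Nonempty) (x : E) : (face A x).Nonempty := by
  obtain ⟨p, hp, h⟩ := exists_sF hA x
  exact ⟨p, mem_face.mpr ⟨hp, h⟩⟩

theorem face_subset (A : Finset E) (x : E) : face A x ⊆ A := fun _ hp => (mem_face.mp hp).1

theorem sF_zero (A : Finset E) : sF A 0 = 0 := by
  by_cases hA : A.Nonempty
  · obtain ⟨p, _, h⟩ := exists_sF hA 0
    rw [← h, inner_zero_right]
  · unfold sF; rw [dif_neg hA]

theorem sF_smul (A : Finset E) {t : ℝ} (ht : 0 ≤ t) (x : E) : sF A (t • x) = t * sF A x := by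
  by_cases hA : A.Nonempty
  · apply le_antisymm
    · apply sF_le hA
      intro p hp
      rw [inner_smul_right]
      exact mul_le_mul_of_nonneg_left (le_sF hp x) ht
    · obtain ⟨p, hp, h⟩ := exists_sF hA x
      rw [← h, ← inner_smul_right]
      exact le_sF hp _
  · unfold sF; rw [dif_neg hA, dif_neg hA, mul_zero]

theorem sF_add_le (A : Finset E) (x y : E) : sF A (x + y) ≤ sF A x + sF A y := by
  by_cases hA : A.Nonempty
  · apply sF_le hA
    intro p hp
    rw [inner_add_right]
    exact add_le_add (le_sF hp x) (le_sF hp y)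
  · unfold sF; rw [dif_neg hA, dif_neg hA, dif_neg hA]; simp

/-- Lipschitz bound -/
theorem abs_sF_sub_le (A : Finset E) : ∃ C : ℝ, 0 ≤ C ∧ ∀ x y, |sF A x - sF A y| ≤ C * ‖x - y‖ := by
  refine ⟨∑ p ∈ A, ‖p‖, Finset.sum_nonneg fun _ _ => norm_nonneg _, ?_⟩
  have key : ∀ x y, sF A x - sF A y ≤ (∑ p ∈ A, ‖p‖) * ‖x - y‖ := by
    intro x y
    by_cases hA : A.Nonempty
    · obtain ⟨p, hp, h⟩ := exists_sF hA x
      have h1 := le_sF hp y
      have h2 : inner ℝ p x - inner ℝ p y ≤ ‖p‖ * ‖x - y‖ := by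
        rw [← inner_sub_right]; exact real_inner_le_norm _ _
      have h3 : ‖p‖ ≤ ∑ p ∈ A, ‖p‖ :=
        Finset.single_le_sum (f := fun q : E => ‖q‖) (fun _ _ => norm_nonneg _) hp
      have h4 : ‖p‖ * ‖x - y‖ ≤ (∑ p ∈ A, ‖p‖) * ‖x - y‖ := by gcongr
      linarith
    · unfold sF
      rw [dif_neg hA, dif_neg hA, sub_zero]
      positivity
  intro x y
  rw [abs_le]
  have h1 := key x y
  have h2 := key y x
  rw [norm_sub_rev] at h2
  constructor <;> linarith

theorem continuous_sF (A : Finset E) : Continuous (sF A) := by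
  obtain ⟨C, hC, h⟩ := abs_sF_sub_le A
  refine (LipschitzWith.of_dist_le_mul (K := ⟨C, hC⟩) fun x y => ?_).continuous
  rw [Real.dist_eq, dist_eq_norm]
  exact h x y

/-- Local structure near `x` : there is a neighbourhood on which only the points of the face
matter. -/
theorem exists_nhds_face {A : Finset E} (hA : A.Nonempty) (x : E) :
    ∀ᶠ y in 𝓝 x, ∀ p ∈ A, p ∉ face A x → inner ℝ p y < sF (face A x) y := by
  have h : ∀ p ∈ A, ∀ᶠ y in 𝓝 x, (p ∉ face A x → inner ℝ p y < sF (face A x) y) := by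
    intro p hp
    by_cases hpf : p ∈ face A x
    · exact Eventually.of_forall fun y h => absurd hpf h
    · have h1 : inner ℝ p x < sF A x :=
        lt_of_le_of_ne (le_sF hp x) fun h => hpf (mem_face.mpr ⟨hp, h⟩)
      have h2 : sF (face A x) x = sF A x := by
        obtain ⟨q, hq, hqx⟩ := exists_sF (face_nonempty hA x) x
        rw [← hqx]; exact (mem_face.mp hq).2
      have h3 : ∀ᶠ y in 𝓝 x, inner ℝ p y < sF (face A x) y := by
        have c1 : Tendsto (fun y => inner ℝ p y) (𝓝 x) (𝓝 (inner ℝ p x)) :=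
          (Continuous.inner continuous_const continuous_id).tendsto x
        have c2 := (continuous_sF (face A x)).tendsto x
        rw [h2] at c2
        exact c1.eventually_lt c2 h1
      exact h3.mono fun y hy _ => hy
  exact (eventually_all_finset A).mpr h

theorem sF_face_self {A : Finset E} (hA : A.Nonempty) (x : E) : sF (face A x) x = sF A x := by
  obtain ⟨q, hq, hqx⟩ := exists_sF (face_nonempty hA x) x
  rw [← hqx]; exact (mem_face.mp hq).2

/-- near `x`, the support function of `A` is that of the face `face A x`, and faces are faces of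
`face A x`. -/
theorem eventually_sF_eq {A : Finset E} (hA : A.Nonempty) (x : E) :
    ∀ᶠ y in 𝓝 x, sF A y = sF (face A x) y ∧ face A y = face (face A x) y := by
  filter_upwards [exists_nhds_face hA x] with y hy
  have h1 : sF A y = sF (face A x) y := by
    apply le_antisymm
    · apply sF_le hA
      intro p hp
      by_cases hpf : p ∈ face A x
      · exact le_sF hpf y
      · exact (hy p hp hpf).le
    · apply sF_le (face_nonempty hA x)
      intro p hp
      exact le_sF (face_subset A x hp) y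
  refine ⟨h1, ?_⟩
  ext p
  rw [mem_face, mem_face, h1]
  constructor
  · rintro ⟨hp, hpy⟩
    refine ⟨?_, hpy⟩
    by_contra hpf
    exact absurd hpy (hy p hp hpf).ne
  · rintro ⟨hp, hpy⟩
    exact ⟨face_subset A x hp, hpy⟩

/-- on the face, `⟨p, x⟩` is constant, so adding multiples of `x` does not matter -/
theorem sF_face_add {A : Finset E} (hA : A.Nonempty) (x w : E) (t : ℝ) (ht : 0 ≤ t) :
    sF (face A x) (x + t • w) = sF A x + t * sF (face A x) w := by
  have hF := face_nonempty hA x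
  apply le_antisymm
  · apply sF_le hF
    intro p hp
    rw [inner_add_right, inner_smul_right, (mem_face.mp hp).2]
    have := mul_le_mul_of_nonneg_left (le_sF hp w) ht
    linarith
  · obtain ⟨p, hp, h⟩ := exists_sF hF w
    have h1 := le_sF hp (x + t • w)
    rw [inner_add_right, inner_smul_right, (mem_face.mp hp).2, h] at h1
    exact h1

theorem face_face_add {A : Finset E} (hA : A.Nonempty) (x w : E) {t : ℝ} (ht : 0 < t) :
    face (face A x) (x + t • w) = face (face A x) w := by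
  ext p
  rw [mem_face (A := face A x), mem_face (A := face A x), sF_face_add hA x w t ht.le]
  constructor
  · rintro ⟨hp, h⟩
    refine ⟨hp, ?_⟩
    rw [inner_add_right, inner_smul_right, (mem_face.mp hp).2] at h
    have : t * inner ℝ p w = t * sF (face A x) w := by linarith
    exact mul_left_cancel₀ ht.ne' this
  · rintro ⟨hp, h⟩
    refine ⟨hp, ?_⟩
    rw [inner_add_right, inner_smul_right, (mem_face.mp hp).2, h]

theorem eventually_line {A : Finset E} (hA : A.Nonempty) (x w : E) :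
    ∃ δ > 0, ∀ t : ℝ, 0 < t → t < δ →
      sF A (x + t • w) = sF A x + t * sF (face A x) w ∧
      face A (x + t • w) = face (face A x) w := by
  have hc : Tendsto (fun t : ℝ => x + t • w) (𝓝 0) (𝓝 x) := by
    have : Continuous (fun t : ℝ => x + t • w) := by fun_prop
    have h := this.tendsto 0
    simpa using h
  have h := hc.eventually (eventually_sF_eq hA x)
  rw [Metric.eventually_nhds_iff] at h
  obtain ⟨δ, hδ, h⟩ := h
  refine ⟨δ, hδ, fun t ht0 ht => ?_⟩
  obtain ⟨h1, h2⟩ := h (by rw [Real.dist_eq, sub_zero, abs_of_pos ht0]; exact ht)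
  rw [h1, h2, sF_face_add hA x w t ht0.le, face_face_add hA x w ht0]
  exact ⟨rfl, rfl⟩

/-- symmetric sets: faces and widths at opposite points -/
theorem sF_neg {A : Finset E} (hsym : ∀ p ∈ A, -p ∈ A) (x : E) : sF A (-x) = sF A x := by
  by_cases hA : A.Nonempty
  · have key : ∀ x, sF A (-x) ≤ sF A x := by
      intro x
      apply sF_le hA
      intro p hp
      have := le_sF (hsym p hp) x
      rwa [inner_neg_left, ← inner_neg_right] at this
    apply le_antisymm (key x)
    have := key (-x)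
    rwa [neg_neg] at this
  · unfold sF; rw [dif_neg hA, dif_neg hA]

theorem wd_nonneg (A : Finset E) (v : E) : 0 ≤ wd A v := by
  unfold wd
  have := sF_add_le A v (-v)
  rw [add_neg_cancel, sF_zero] at this
  exact this

theorem wd_neg (A : Finset E) (v : E) : wd A (-v) = wd A v := by
  unfold wd; rw [neg_neg, add_comm]

end Base

section GaussX

variable {F : Type*} [NormedAddCommGroup F] [InnerProductSpace ℝ F] [FiniteDimensional ℝ F]
  [MeasurableSpace F] [BorelSpace F]

/-- the standard scalar product of `F × ℝ × ℝ` -/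
noncomputable def BX (k x : F × ℝ × ℝ) : ℝ := inner ℝ k.1 x.1 + k.2.1 * x.2.1 + k.2.2 * x.2.2

omit [FiniteDimensional ℝ F] [MeasurableSpace F] [BorelSpace F] in
theorem BX_add (k l x : F × ℝ × ℝ) : BX (k + l) x = BX k x + BX l x := by
  simp only [BX, Prod.fst_add, Prod.snd_add, inner_add_left]; ring

omit [FiniteDimensional ℝ F] [MeasurableSpace F] [BorelSpace F] in
theorem BX_add_right (k x y : F × ℝ × ℝ) : BX k (x + y) = BX k x + BX k y := by
  simp only [BX, Prod.fst_add, Prod.snd_add, inner_add_right]; ring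

omit [FiniteDimensional ℝ F] [MeasurableSpace F] [BorelSpace F] in
theorem BX_sub_right (k x y : F × ℝ × ℝ) : BX k (x - y) = BX k x - BX k y := by
  simp only [BX, Prod.fst_sub, Prod.snd_sub, inner_sub_right]; ring

omit [FiniteDimensional ℝ F] [MeasurableSpace F] [BorelSpace F] in
theorem continuous_BX : Continuous fun p : (F × ℝ × ℝ) × (F × ℝ × ℝ) => BX p.1 p.2 := by
  unfold BX
  fun_prop

/-- the Gaussian measure on `F × ℝ × ℝ` -/
noncomputable def gam (F : Type*) [NormedAddCommGroup F] [InnerProductSpace ℝ F]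
    [FiniteDimensional ℝ F] [MeasurableSpace F] [BorelSpace F] : Measure (F × ℝ × ℝ) :=
  (stdGaussian F).prod ((gaussianReal 0 1).prod (gaussianReal 0 1))

instance : IsProbabilityMeasure (gam F) := by unfold gam; infer_instance

theorem gam_char (x : F × ℝ × ℝ) :
    ∫ w, Complex.exp ((BX w x : ℝ) * Complex.I) ∂(gam F) = Complex.exp (-(BX x x : ℝ) / 2) := by
  have h1 : ∫ w : F, Complex.exp ((inner ℝ w x.1 : ℝ) * Complex.I) ∂(stdGaussian F) =
      Complex.exp (-(‖x.1‖ : ℂ) ^ 2 / 2) := by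
    have := charFun_stdGaussian x.1
    rwa [charFun_apply] at this
  have h2 : ∀ t : ℝ, ∫ w : ℝ, Complex.exp ((w * t : ℝ) * Complex.I) ∂(gaussianReal 0 1) =
      Complex.exp (-(t : ℂ) ^ 2 / 2) := by
    intro t
    have := charFun_gaussianReal (μ := 0) (v := 1) t
    rw [charFun_apply_real] at this
    simp only [Complex.ofReal_zero, mul_zero, zero_mul, NNReal.coe_one, Complex.ofReal_one, one_mul,
      zero_sub] at this
    rw [neg_div, ← this]
    refine integral_congr_ae (Eventually.of_forall fun w => ?_)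
    simp only
    congr 1
    push_cast
    ring
  have e : (fun w : F × ℝ × ℝ => Complex.exp ((BX w x : ℝ) * Complex.I)) =
      fun w => Complex.exp ((inner ℝ w.1 x.1 : ℝ) * Complex.I) *
        (Complex.exp ((w.2.1 * x.2.1 : ℝ) * Complex.I) *
          Complex.exp ((w.2.2 * x.2.2 : ℝ) * Complex.I)) := by
    funext w
    rw [← Complex.exp_add, ← Complex.exp_add]
    congr 1
    unfold BX
    push_cast
    ring
  rw [e]
  unfold gam
  rw [integral_prod_mul (f := fun w : F => Complex.exp ((inner ℝ w x.1 : ℝ) * Complex.I))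
    (g := fun w : ℝ × ℝ => Complex.exp ((w.1 * x.2.1 : ℝ) * Complex.I) *
      Complex.exp ((w.2 * x.2.2 : ℝ) * Complex.I)),
    integral_prod_mul (f := fun w : ℝ => Complex.exp ((w * x.2.1 : ℝ) * Complex.I))
    (g := fun w : ℝ => Complex.exp ((w * x.2.2 : ℝ) * Complex.I)), h1, h2, h2,
    ← Complex.exp_add, ← Complex.exp_add]
  congr 1
  unfold BX
  rw [real_inner_self_eq_norm_sq]
  push_cast
  ring

/-- Gaussian times cosine -/
noncomputable def Mg (k x : F × ℝ × ℝ) : ℝ := Real.exp (-(BX x x / 2)) * Real.cos (BX k x)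

theorem integrable_cos (k x : F × ℝ × ℝ) :
    Integrable (fun w => Real.cos (BX (k + w) x)) (gam F) := by
  refine Integrable.mono' (integrable_const (1:ℝ)) ?_ (Eventually.of_forall fun w => ?_)
  · apply Continuous.aestronglyMeasurable
    have : Continuous fun w : F × ℝ × ℝ => BX (k + w) x :=
      continuous_BX.comp (by fun_prop : Continuous fun w : F × ℝ × ℝ => (k + w, x))
    exact Real.continuous_cos.comp this
  · exact Real.abs_cos_le_one _

theorem Mg_rep (k x : F × ℝ × ℝ) : Mg k x = ∫ w, Real.cos (BX (k + w) x) ∂(gam F) := by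
  have h := gam_char x
  have hi : Integrable (fun w => Complex.exp ((BX (k + w) x : ℝ) * Complex.I)) (gam F) := by
    refine Integrable.mono' (integrable_const (1:ℝ)) ?_ (Eventually.of_forall fun w => ?_)
    · apply Continuous.aestronglyMeasurable
      have : Continuous fun w : F × ℝ × ℝ => BX (k + w) x :=
        continuous_BX.comp (by fun_prop : Continuous fun w : F × ℝ × ℝ => (k + w, x))
      fun_prop
    · rw [Complex.norm_exp_ofReal_mul_I]
  have h1 : ∫ w, Real.cos (BX (k + w) x) ∂(gam F) =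
      (∫ w, Complex.exp ((BX (k + w) x : ℝ) * Complex.I) ∂(gam F)).re := by
    rw [← RCLike.re_eq_complex_re, ← integral_re hi]
    refine integral_congr_ae (Eventually.of_forall fun w => ?_)
    simp only [RCLike.re_eq_complex_re]
    rw [Complex.exp_ofReal_mul_I_re]
  have h2 : ∫ w, Complex.exp ((BX (k + w) x : ℝ) * Complex.I) ∂(gam F) =
      Complex.exp ((BX k x : ℝ) * Complex.I) * Complex.exp (-(BX x x : ℝ) / 2) := by
    rw [← h, ← integral_const_mul]
    refine integral_congr_ae (Eventually.of_forall fun w => ?_)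
    simp only
    rw [← Complex.exp_add, BX_add]
    congr 1
    push_cast
    ring
  rw [h1, h2]
  have h3 : Complex.exp (-(BX x x : ℝ) / 2) = ((Real.exp (-(BX x x / 2)) : ℝ) : ℂ) := by
    push_cast; congr 1; ring
  rw [h3, Complex.re_mul_ofReal, Complex.exp_ofReal_mul_I_re, Mg, mul_comm]

/-- second difference of a function -/
def D2 {G : Type*} [AddCommGroup G] (e : G) (f : G → ℝ) (x : G) : ℝ :=
  2 * f x - f (x + e) - f (x - e)

theorem D2_rep (k e x : F × ℝ × ℝ) :
    D2 e (Mg k) x = ∫ w, (2 - 2 * Real.cos (BX (k + w) e)) * Real.cos (BX (k + w) x) ∂(gam F) := by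
  unfold D2
  rw [Mg_rep, Mg_rep, Mg_rep, ← integral_const_mul, ← integral_sub, ← integral_sub]
  · refine integral_congr_ae (Eventually.of_forall fun w => ?_)
    simp only
    rw [BX_add_right, BX_sub_right, Real.cos_add, Real.cos_sub]
    ring
  · exact ((integrable_cos k x).const_mul 2).sub (integrable_cos k _)
  · exact integrable_cos k _
  · exact (integrable_cos k x).const_mul 2
  · exact integrable_cos k _

theorem integrable_cos2 (k e x : F × ℝ × ℝ) :
    Integrable (fun w => (2 - 2 * Real.cos (BX (k + w) e)) * Real.cos (BX (k + w) x)) (gam F) := by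
  refine Integrable.mono' (integrable_const (4:ℝ)) ?_ (Eventually.of_forall fun w => ?_)
  · apply Continuous.aestronglyMeasurable
    have : ∀ x : F × ℝ × ℝ, Continuous fun w : F × ℝ × ℝ => BX (k + w) x := fun x =>
      continuous_BX.comp (by fun_prop : Continuous fun w : F × ℝ × ℝ => (k + w, x))
    have h1 := this x
    have h2 := this e
    fun_prop
  · rw [Real.norm_eq_abs, abs_mul]
    have h1 := Real.abs_cos_le_one (BX (k + w) x)
    have h2 := Real.neg_one_le_cos (BX (k + w) e)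
    have h3 := Real.cos_le_one (BX (k + w) e)
    have h4 : |2 - 2 * Real.cos (BX (k + w) e)| ≤ 4 := by rw [abs_le]; constructor <;> linarith
    have h5 := mul_le_mul h4 h1 (abs_nonneg _) (by norm_num)
    linarith

theorem D2D2_rep (k e f x : F × ℝ × ℝ) :
    D2 f (D2 e (Mg k)) x = ∫ w, ((2 - 2 * Real.cos (BX (k + w) f)) *
      (2 - 2 * Real.cos (BX (k + w) e))) * Real.cos (BX (k + w) x) ∂(gam F) := by
  rw [D2, D2_rep, D2_rep, D2_rep, ← integral_const_mul, ← integral_sub, ← integral_sub]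
  · refine integral_congr_ae (Eventually.of_forall fun w => ?_)
    simp only
    rw [BX_add_right, BX_sub_right, Real.cos_add, Real.cos_sub]
    ring
  · exact ((integrable_cos2 k e x).const_mul 2).sub (integrable_cos2 k e _)
  · exact integrable_cos2 k e _
  · exact (integrable_cos2 k e x).const_mul 2
  · exact integrable_cos2 k e _

end GaussX


section PD

variable {V : Type*} [NormedAddCommGroup V] [InnerProductSpace ℝ V] [FiniteDimensional ℝ V]
  [MeasurableSpace V] [BorelSpace V]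

theorem integrable_gauss {δ : ℝ} (hδ : 0 < δ) :
    Integrable (fun x : V => Real.exp (-(δ * ‖x‖ ^ 2))) := by
  have h := GaussianFourier.integrable_cexp_neg_mul_sq_norm_add (V := V) (b := (δ : ℂ))
    (by simpa using hδ) 0 0
  have h2 := h.norm
  refine h2.congr (Eventually.of_forall fun x => ?_)
  simp only [Complex.norm_exp]
  congr 1
  simp
  left
  rw [← Complex.ofReal_pow, Complex.ofReal_re]

theorem gauss_cos_nonneg {δ : ℝ} (hδ : 0 < δ) (w : V) :
    0 ≤ ∫ x : V, Real.cos (inner ℝ w x) * Real.exp (-(δ * ‖x‖ ^ 2)) := by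
  have h := GaussianFourier.integral_cexp_neg_mul_sq_norm_add (V := V) (b := (δ : ℂ))
    (by simpa using hδ) Complex.I w
  have hi := GaussianFourier.integrable_cexp_neg_mul_sq_norm_add (V := V) (b := (δ : ℂ))
    (by simpa using hδ) Complex.I w
  have h1 : ∫ x : V, Real.cos (inner ℝ w x) * Real.exp (-(δ * ‖x‖ ^ 2)) =
      (∫ x : V, Complex.exp (-(δ : ℂ) * ‖x‖ ^ 2 + Complex.I * (inner ℝ w x : ℝ))).re := by
    rw [← RCLike.re_eq_complex_re, ← integral_re hi]
    refine integral_congr_ae (Eventually.of_forall fun x => ?_)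
    simp only [RCLike.re_eq_complex_re, Complex.exp_re]
    have e1 : (-(δ : ℂ) * ‖x‖ ^ 2 + Complex.I * (inner ℝ w x : ℝ)).re = -(δ * ‖x‖ ^ 2) := by
      simp [← Complex.ofReal_pow]
    have e2 : (-(δ : ℂ) * ‖x‖ ^ 2 + Complex.I * (inner ℝ w x : ℝ)).im = inner ℝ w x := by
      simp [← Complex.ofReal_pow]
    rw [e1, e2, mul_comm]
  rw [h1, h]
  have e3 : ((Real.pi : ℂ) / δ) ^ (Module.finrank ℝ V / 2 : ℂ) *
      Complex.exp (Complex.I ^ 2 * ‖w‖ ^ 2 / (4 * δ)) =
      (((Real.pi / δ) ^ ((Module.finrank ℝ V : ℝ) / 2) *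
        Real.exp (-(‖w‖ ^ 2 / (4 * δ))) : ℝ) : ℂ) := by
    rw [Complex.ofReal_mul, Complex.ofReal_cpow (by have := Real.pi_pos; positivity),
      Complex.ofReal_exp]
    push_cast
    rw [Complex.I_sq]
    congr 2
    ring
  rw [e3, Complex.ofReal_re]
  have := Real.pi_pos
  positivity

theorem gauss_cos_nonneg' {δ : ℝ} (hδ : 0 < δ) (L : V →L[ℝ] ℝ) :
    0 ≤ ∫ x : V, Real.cos (L x) * Real.exp (-(δ * ‖x‖ ^ 2)) := by
  have h := gauss_cos_nonneg hδ ((InnerProductSpace.toDual ℝ V).symm L)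
  simpa only [InnerProductSpace.toDual_symm_apply] using h

theorem pd_integral_nonneg {Ω : Type*} [MeasurableSpace Ω] {ν : Measure Ω} [IsFiniteMeasure ν]
    {K : Ω → V →L[ℝ] ℝ} (hK : Measurable fun p : Ω × V => K p.1 p.2) {m : Ω → ℝ}
    (hm : Measurable m) (hm0 : ∀ ω, 0 ≤ m ω) {C : ℝ} (hmC : ∀ ω, m ω ≤ C) {g : V → ℝ}
    (hg : Integrable g) (hrep : ∀ x, g x = ∫ ω, m ω * Real.cos (K ω x) ∂ν) :
    0 ≤ ∫ x, g x := by
  have key : ∀ δ : ℝ, 0 < δ → 0 ≤ ∫ x, g x * Real.exp (-(δ * ‖x‖ ^ 2)) := by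
    intro δ hδ
    have h1 : ∫ x, g x * Real.exp (-(δ * ‖x‖ ^ 2)) =
        ∫ x, ∫ ω, m ω * (Real.cos (K ω x) * Real.exp (-(δ * ‖x‖ ^ 2))) ∂ν := by
      refine integral_congr_ae (Eventually.of_forall fun x => ?_)
      dsimp only
      rw [hrep, ← integral_mul_const]
      refine integral_congr_ae (Eventually.of_forall fun ω => ?_)
      dsimp only
      ring
    rw [h1, integral_integral_swap]
    · refine integral_nonneg fun ω => ?_
      dsimp only
      rw [integral_const_mul]
      exact mul_nonneg (hm0 ω) (gauss_cos_nonneg' hδ (K ω))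
    · have hC : 0 ≤ |C| := abs_nonneg C
      have hi : Integrable (fun p : V × Ω => Real.exp (-(δ * ‖p.1‖ ^ 2)) * |C|)
          ((volume : Measure V).prod ν) :=
        (integrable_gauss hδ).mul_prod (integrable_const (|C|))
      refine hi.mono ?_ (Eventually.of_forall fun p => ?_)
      · apply Measurable.aestronglyMeasurable
        have h2 : Measurable fun p : V × Ω => K p.2 p.1 := hK.comp measurable_swap
        have h3 : Measurable fun p : V × Ω => m p.2 := hm.comp measurable_snd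
        exact h3.mul ((Real.continuous_cos.measurable.comp h2).mul (by fun_prop))
      · simp only [Function.uncurry]
        rw [norm_mul, norm_mul, Real.norm_of_nonneg (hm0 p.2), Real.norm_of_nonneg (Real.exp_pos _).le,
          norm_mul, Real.norm_of_nonneg (Real.exp_pos _).le, Real.norm_of_nonneg hC]
        have h4 : ‖Real.cos (K p.2 p.1)‖ ≤ 1 := Real.abs_cos_le_one _
        have h5 : m p.2 ≤ |C| := (hmC _).trans (le_abs_self C)
        calc m p.2 * (‖Real.cos (K p.2 p.1)‖ * Real.exp (-(δ * ‖p.1‖ ^ 2)))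
            ≤ |C| * (1 * Real.exp (-(δ * ‖p.1‖ ^ 2))) := by gcongr; 
          _ = _ := by ring
  have hlim : Tendsto (fun n : ℕ => ∫ x, g x * Real.exp (-(1 / ((n : ℝ) + 1) * ‖x‖ ^ 2))) atTop
      (𝓝 (∫ x, g x)) := by
    refine tendsto_integral_of_dominated_convergence (fun x => ‖g x‖) (fun n => ?_) hg.norm
      (fun n => Eventually.of_forall fun x => ?_) (Eventually.of_forall fun x => ?_)
    · exact hg.aestronglyMeasurable.mul (by
        apply Continuous.aestronglyMeasurable; fun_prop)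
    · rw [norm_mul, Real.norm_of_nonneg (Real.exp_pos _).le]
      have : Real.exp (-(1 / ((n : ℝ) + 1) * ‖x‖ ^ 2)) ≤ 1 := by
        apply Real.exp_le_one_iff.mpr
        have : 0 ≤ 1 / ((n : ℝ) + 1) * ‖x‖ ^ 2 := by positivity
        linarith
      calc ‖g x‖ * Real.exp (-(1 / ((n : ℝ) + 1) * ‖x‖ ^ 2)) ≤ ‖g x‖ * 1 := by gcongr
        _ = _ := mul_one _
    · have h1 : Tendsto (fun n : ℕ => Real.exp (-(1 / ((n : ℝ) + 1) * ‖x‖ ^ 2))) atTop (𝓝 1) := by
        have h2 : Tendsto (fun n : ℕ => -(1 / ((n : ℝ) + 1) * ‖x‖ ^ 2)) atTop (𝓝 (-(0 * ‖x‖ ^ 2))) :=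
          ((tendsto_one_div_add_atTop_nhds_zero_nat (𝕜 := ℝ)).mul_const _).neg
        have h3 := (Real.continuous_exp.tendsto _).comp h2
        rw [zero_mul, neg_zero, Real.exp_zero] at h3
        exact h3
      have h4 := h1.const_mul (g x)
      rwa [mul_one] at h4
  exact ge_of_tendsto' hlim fun n => key _ (by positivity)

end PD


section B3

variable {E : Type*} [NormedAddCommGroup E] [InnerProductSpace ℝ E] [FiniteDimensional ℝ E]
  [MeasurableSpace E] [BorelSpace E]
variable {F : Type*} [NormedAddCommGroup F] [InnerProductSpace ℝ F] [FiniteDimensional ℝ F]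
  [MeasurableSpace F] [BorelSpace F]

omit [FiniteDimensional ℝ F] [MeasurableSpace F] [BorelSpace F] in
theorem continuous_Mg (k : F × ℝ × ℝ) : Continuous (Mg k) := by
  unfold Mg
  have h1 : Continuous fun x : F × ℝ × ℝ => BX x x :=
    continuous_BX.comp (by fun_prop : Continuous fun x : F × ℝ × ℝ => (x, x))
  have h2 : Continuous fun x : F × ℝ × ℝ => BX k x :=
    continuous_BX.comp (by fun_prop : Continuous fun x : F × ℝ × ℝ => (k, x))
  fun_prop

theorem continuous_D2 {G : Type*} [AddCommGroup G] [TopologicalSpace G] [IsTopologicalAddGroup G]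
    {f : G → ℝ} (hf : Continuous f) (e : G) : Continuous (D2 e f) := by
  unfold D2
  fun_prop

theorem D2_even {G : Type*} [AddCommGroup G] {f : G → ℝ} (hf : ∀ x, f (-x) = f x) (e x : G) :
    D2 e f (-x) = D2 e f x := by
  unfold D2
  have h1 : f (-x + e) = f (x - e) := by rw [← hf]; congr 1; abel
  have h2 : f (-x - e) = f (x + e) := by rw [← hf]; congr 1; abel
  rw [h1, h2, hf]; ring

omit [FiniteDimensional ℝ F] [MeasurableSpace F] [BorelSpace F] in
theorem BX_self (x : F × ℝ × ℝ) : BX x x = ‖x.1‖ ^ 2 + x.2.1 ^ 2 + x.2.2 ^ 2 := by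
  unfold BX; rw [real_inner_self_eq_norm_sq]; ring

omit [FiniteDimensional ℝ F] [MeasurableSpace F] [BorelSpace F] in
theorem BX_neg (k x : F × ℝ × ℝ) : BX k (-x) = -BX k x := by
  unfold BX; simp only [Prod.fst_neg, Prod.snd_neg, inner_neg_right]; ring

omit [FiniteDimensional ℝ F] [MeasurableSpace F] [BorelSpace F] in
theorem Mg_even (k x : F × ℝ × ℝ) : Mg k (-x) = Mg k x := by
  unfold Mg
  rw [BX_neg k, Real.cos_neg]
  have : BX (-x) (-x) = BX x x := by rw [BX_self, BX_self]; simp
  rw [this]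

omit [FiniteDimensional ℝ F] [MeasurableSpace F] [BorelSpace F] in
theorem BX_shift (x e : F × ℝ × ℝ) : BX x x / 2 - BX e e ≤ BX (x + e) (x + e) := by
  rw [BX_self, BX_self, BX_self]
  simp only [Prod.fst_add, Prod.snd_add]
  have h1 : ‖x.1‖ ≤ ‖x.1 + e.1‖ + ‖e.1‖ := by
    calc ‖x.1‖ = ‖(x.1 + e.1) - e.1‖ := by congr 1; abel
      _ ≤ _ := norm_sub_le _ _
  have h2 := norm_nonneg x.1
  have h3 := norm_nonneg (x.1 + e.1)
  have h4 := norm_nonneg e.1
  nlinarith [sq_nonneg (‖x.1 + e.1‖ - ‖e.1‖), sq_nonneg (x.2.1 + 2 * e.2.1),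
    sq_nonneg (x.2.2 + 2 * e.2.2)]

omit [FiniteDimensional ℝ F] [MeasurableSpace F] [BorelSpace F] in
theorem D2_bound {N : F × ℝ × ℝ → ℝ} {C r : ℝ} (hr : 0 < r)
    (hNb : ∀ x, |N x| ≤ C * Real.exp (-(r * BX x x))) (e x : F × ℝ × ℝ) :
    |D2 e N x| ≤ 4 * C * Real.exp (r * BX e e) * Real.exp (-(r / 2 * BX x x)) := by
  have hC : 0 ≤ C := by
    have h := (abs_nonneg _).trans (hNb 0)
    have := Real.exp_pos (-(r * BX (0 : F × ℝ × ℝ) 0))
    by_contra hcon
    push Not at hcon
    nlinarith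
  have hB : ∀ y : F × ℝ × ℝ, 0 ≤ BX y y := fun y => by rw [BX_self]; positivity
  have key : ∀ y : F × ℝ × ℝ, BX x x / 2 - BX e e ≤ BX y y →
      |N y| ≤ C * (Real.exp (r * BX e e) * Real.exp (-(r / 2 * BX x x))) := by
    intro y hy
    refine (hNb y).trans ?_
    rw [← Real.exp_add]
    gcongr
    nlinarith
  have h1 := key x (by have := hB x; have := hB e; linarith)
  have h2 := key (x + e) (BX_shift x e)
  have h3 := key (x - e) (by
    have := BX_shift x (-e)
    have h : BX (-e) (-e) = BX e e := by rw [BX_self, BX_self]; simp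
    rw [h] at this
    rw [sub_eq_add_neg x e]
    exact this)
  unfold D2
  have h4 : |2 * N x - N (x + e) - N (x - e)| ≤ 2 * |N x| + |N (x + e)| + |N (x - e)| := by
    calc |2 * N x - N (x + e) - N (x - e)| ≤ |2 * N x - N (x + e)| + |N (x - e)| := abs_sub _ _
      _ ≤ |2 * N x| + |N (x + e)| + |N (x - e)| := by gcongr; exact abs_sub _ _
      _ = _ := by rw [abs_mul, abs_two]
  refine h4.trans ?_
  linarith

omit [FiniteDimensional ℝ F] [MeasurableSpace F] [BorelSpace F] in
theorem Mg_bound (k x : F × ℝ × ℝ) : |Mg k x| ≤ 1 * Real.exp (-(1 / 2 * BX x x)) := by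
  unfold Mg
  rw [abs_mul, abs_of_pos (Real.exp_pos _), mul_comm]
  have : -(BX x x / 2) = -(1 / 2 * BX x x) := by ring
  rw [this]
  gcongr
  exact Real.abs_cos_le_one _

/-- the linear functional `BX k` -/
noncomputable def BXL (k : F × ℝ × ℝ) : (F × ℝ × ℝ) →L[ℝ] ℝ :=
  (innerSL ℝ k.1).comp (ContinuousLinearMap.fst ℝ F (ℝ × ℝ)) +
    k.2.1 • ((ContinuousLinearMap.fst ℝ ℝ ℝ).comp (ContinuousLinearMap.snd ℝ F (ℝ × ℝ))) +
    k.2.2 • ((ContinuousLinearMap.snd ℝ ℝ ℝ).comp (ContinuousLinearMap.snd ℝ F (ℝ × ℝ)))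

omit [FiniteDimensional ℝ F] [MeasurableSpace F] [BorelSpace F] in
theorem BXL_apply (k x : F × ℝ × ℝ) : BXL k x = BX k x := by
  simp [BXL, BX]

theorem partB3 {S : Finset E} (P : ∀ g : E → ℝ, Continuous g → (∀ x, g (-x) = g x) →
      (∃ C c' : ℝ, 0 < c' ∧ ∀ x, |g x| ≤ C * Real.exp (-(c' * ‖x‖ ^ 2))) →
      (∀ v : E, ‖v‖ = 1 → 0 ≤ ∫ x : (ℝ ∙ v)ᗮ, g x) → 0 ≤ ∫ x, g x / sF S x)
    (T : (F × ℝ × ℝ) ≃L[ℝ] E) (k e f : F × ℝ × ℝ) :
    0 ≤ ∫ x : F × ℝ × ℝ, D2 f (D2 e (Mg k)) x / sF S (T x) := by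
  set Γ : F × ℝ × ℝ → ℝ := D2 f (D2 e (Mg k)) with hΓ
  have hΓc : Continuous Γ := continuous_D2 (continuous_D2 (continuous_Mg k) e) f
  have hΓe : ∀ x, Γ (-x) = Γ x := D2_even (D2_even (Mg_even k) e) f
  obtain ⟨C, hC, hΓb⟩ : ∃ C : ℝ, 0 ≤ C ∧ ∀ x, |Γ x| ≤ C * Real.exp (-(1 / 8 * BX x x)) := by
    have h1 := D2_bound (by norm_num) (Mg_bound k) e
    have h2 := D2_bound (r := 1 / 2 / 2) (by norm_num) h1 f
    rw [show (1 / 2 / 2 / 2 : ℝ) = 1 / 8 by norm_num] at h2
    exact ⟨_, by positivity, h2⟩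
  -- the Gaussian bound for `g`
  obtain ⟨c, hc, hcb⟩ : ∃ c : ℝ, 0 < c ∧ ∀ z : E, c * ‖z‖ ^ 2 ≤ BX (T.symm z) (T.symm z) := by
    refine ⟨1 / (‖(T : (F × ℝ × ℝ) →L[ℝ] E)‖ ^ 2 + 1), by positivity, fun z => ?_⟩
    have h1 : ‖z‖ ≤ ‖(T : (F × ℝ × ℝ) →L[ℝ] E)‖ * ‖T.symm z‖ := by
      have := (T : (F × ℝ × ℝ) →L[ℝ] E).le_opNorm (T.symm z)
      simpa using this
    have h2 : ‖T.symm z‖ ^ 2 ≤ BX (T.symm z) (T.symm z) := by
      set x := T.symm z
      rw [BX_self, Prod.norm_def, Prod.norm_def]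
      rcases max_choice ‖x.1‖ (max ‖x.2.1‖ ‖x.2.2‖) with h | h
      · rw [h]; nlinarith [sq_nonneg x.2.1, sq_nonneg x.2.2]
      · rw [h]
        rcases max_choice ‖x.2.1‖ ‖x.2.2‖ with h' | h'
        · rw [h', Real.norm_eq_abs, sq_abs]; nlinarith [sq_nonneg ‖x.1‖, sq_nonneg x.2.2]
        · rw [h', Real.norm_eq_abs, sq_abs]; nlinarith [sq_nonneg ‖x.1‖, sq_nonneg x.2.1]
    have h3 : ‖z‖ ^ 2 ≤ (‖(T : (F × ℝ × ℝ) →L[ℝ] E)‖ ^ 2 + 1) * ‖T.symm z‖ ^ 2 := by
      have h4 : ‖z‖ ^ 2 ≤ (‖(T : (F × ℝ × ℝ) →L[ℝ] E)‖ * ‖T.symm z‖) ^ 2 := by gcongr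
      rw [mul_pow] at h4
      nlinarith [sq_nonneg ‖T.symm z‖]
    rw [one_div, inv_mul_le_iff₀ (by positivity)]
    exact h3.trans (by gcongr)
  set g : E → ℝ := fun z => Γ (T.symm z) with hg
  have hgc : Continuous g := hΓc.comp T.symm.continuous
  have hgb : ∀ z, |g z| ≤ C * Real.exp (-(c / 8 * ‖z‖ ^ 2)) := by
    intro z
    refine (hΓb _).trans ?_
    have := hcb z
    exact mul_le_mul_of_nonneg_left (Real.exp_le_exp.mpr (by linarith)) hC
  have hPg := P g hgc (fun x => by rw [hg]; simp only [map_neg]; exact hΓe _)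
    ⟨C, c / 8, by positivity, hgb⟩ ?_
  · -- change of variables
    have hvol : (volume : Measure (F × ℝ × ℝ)).IsAddHaarMeasure :=
      Measure.prod.instIsAddHaarMeasure _ _
    have hH : (Measure.map T (volume : Measure (F × ℝ × ℝ))).IsAddHaarMeasure :=
      T.isAddHaarMeasure_map volume
    have hκ := Measure.isAddLeftInvariant_eq_smul
      (Measure.map T (volume : Measure (F × ℝ × ℝ))) (volume : Measure E)
    have h1 : ∫ x : F × ℝ × ℝ, Γ x / sF S (T x) =
        ∫ z, g z / sF S z ∂(Measure.map T (volume : Measure (F × ℝ × ℝ))) := by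
      have hme : MeasurableEmbedding (T : F × ℝ × ℝ → E) := T.toHomeomorph.measurableEmbedding
      rw [hme.integral_map]
      refine integral_congr_ae (Eventually.of_forall fun x => ?_)
      simp [hg]
    rw [h1, hκ, integral_smul_nnreal_measure]
    exact smul_nonneg (by positivity) hPg
  · intro v _
    have hint : Integrable (fun x : (ℝ ∙ v)ᗮ => g x) := by
      refine Integrable.mono' ((integrable_gauss (V := (ℝ ∙ v)ᗮ) (δ := c / 8)
        (by positivity)).const_mul C) ?_ (Eventually.of_forall fun x => ?_)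
      · exact (hgc.comp continuous_subtype_val).aestronglyMeasurable
      · exact hgb x
    refine pd_integral_nonneg (ν := gam F) (K := fun w => (BXL (k + w)).comp
        ((T.symm : E →L[ℝ] (F × ℝ × ℝ)).comp ((ℝ ∙ v)ᗮ).subtypeL))
      (m := fun w => (2 - 2 * Real.cos (BX (k + w) f)) * (2 - 2 * Real.cos (BX (k + w) e)))
      (C := 16) ?_ ?_ ?_ ?_ hint ?_
    · apply Continuous.measurable
      have : (fun p : (F × ℝ × ℝ) × (ℝ ∙ v)ᗮ => ((BXL (k + p.1)).comp
        ((T.symm : E →L[ℝ] (F × ℝ × ℝ)).comp ((ℝ ∙ v)ᗮ).subtypeL)) p.2) =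
        fun p => BX (k + p.1) (T.symm (p.2 : E)) := by
        funext p
        simp only [ContinuousLinearMap.comp_apply, BXL_apply]
        rfl
      rw [this]
      exact continuous_BX.comp (by fun_prop :
        Continuous fun p : (F × ℝ × ℝ) × (ℝ ∙ v)ᗮ => (k + p.1, T.symm (p.2 : E)))
    · apply Continuous.measurable
      have : ∀ x : F × ℝ × ℝ, Continuous fun w : F × ℝ × ℝ => BX (k + w) x := fun x =>
        continuous_BX.comp (by fun_prop : Continuous fun w : F × ℝ × ℝ => (k + w, x))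
      have h1 := this f
      have h2 := this e
      fun_prop
    · intro w
      have h1 := Real.cos_le_one (BX (k + w) f)
      have h2 := Real.cos_le_one (BX (k + w) e)
      apply mul_nonneg <;> linarith
    · intro w
      have h1 := Real.neg_one_le_cos (BX (k + w) f)
      have h2 := Real.neg_one_le_cos (BX (k + w) e)
      have h3 := Real.cos_le_one (BX (k + w) f)
      have h4 := Real.cos_le_one (BX (k + w) e)
      nlinarith
    · intro x
      show Γ (T.symm x) = _
      rw [hΓ, D2D2_rep]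
      refine integral_congr_ae (Eventually.of_forall fun w => ?_)
      simp only [ContinuousLinearMap.comp_apply, BXL_apply]
      rfl

end B3



section B4

variable {E : Type*} [NormedAddCommGroup E] [InnerProductSpace ℝ E]
variable {F : Type*} [NormedAddCommGroup F] [InnerProductSpace ℝ F] [FiniteDimensional ℝ F]
  [MeasurableSpace F] [BorelSpace F]

/-- TARGET B0: domination. `1/‖y‖²` times a Gaussian is integrable in dimension at least 3. -/
theorem integrable_dom (hF : 3 ≤ Module.finrank ℝ F) {r : ℝ} (hr : 0 < r) :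
    Integrable (fun x : F × ℝ × ℝ => Real.exp (-(r * BX x x)) * (1 / ‖x.1‖ ^ 2)) := by
  have : Nontrivial F := Module.nontrivial_of_finrank_pos (R := ℝ) (by omega)
  have h1 : Integrable (fun y : F => Real.exp (-(r * ‖y‖ ^ 2)) * (1 / ‖y‖ ^ 2)) := by
    have := (integrable_fun_norm_addHaar (volume : Measure F)
      (f := fun t : ℝ => Real.exp (-(r * t ^ 2)) * (1 / t ^ 2))).mpr
    refine this ?_
    have h2 := integrableOn_rpow_mul_exp_neg_mul_sq hr
      (s := ((Module.finrank ℝ F - 3 : ℕ) : ℝ)) (lt_of_lt_of_le (by norm_num) (Nat.cast_nonneg _))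
    refine (integrableOn_congr_fun ?_ measurableSet_Ioi).mp h2
    intro t ht
    have ht : (0 : ℝ) < t := ht
    simp only [smul_eq_mul]
    rw [Real.rpow_natCast]
    obtain ⟨m, hm⟩ := Nat.exists_eq_add_of_le hF
    rw [hm, show 3 + m - 3 = m by omega, show 3 + m - 1 = m + 2 by omega, pow_add]
    have e : -r * t ^ 2 = -(r * t ^ 2) := by ring
    rw [e]
    field_simp
  have h2 : Integrable (fun t : ℝ => Real.exp (-(r * t ^ 2))) := by
    have := integrable_exp_neg_mul_sq hr
    refine this.congr (Eventually.of_forall fun t => ?_)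
    simp only
    congr 1
    ring
  have h3 := h1.mul_prod (h2.mul_prod h2)
  refine h3.congr (Eventually.of_forall fun x => ?_)
  simp only
  have e : -(r * BX x x) = -(r * ‖x.1‖ ^ 2) + (-(r * x.2.1 ^ 2) + -(r * x.2.2 ^ 2)) := by
    unfold BX
    rw [real_inner_self_eq_norm_sq]
    ring
  rw [e, Real.exp_add, Real.exp_add]
  ring

end B4

section B4aux

variable {E : Type*} [NormedAddCommGroup E] [InnerProductSpace ℝ E]
variable {F : Type*} [NormedAddCommGroup F] [InnerProductSpace ℝ F] [FiniteDimensional ℝ F]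
  [MeasurableSpace F] [BorelSpace F]

/-- positively homogeneous function with slopes `Dp` and `Dm` -/
noncomputable def kk (Dp Dm s : ℝ) : ℝ := max s 0 * Dp + max (-s) 0 * Dm

theorem kk_diff (Dp Dm a : ℝ) :
    kk Dp Dm (a + 1) + kk Dp Dm (a - 1) - 2 * kk Dp Dm a = (Dp + Dm) * max 0 (1 - |a|) := by
  unfold kk
  rcases le_total a 0 with h0 | h0
  · rw [abs_of_nonpos h0]
    rcases le_total a (-1) with h1 | h1
    · rw [max_eq_right (by linarith : a + 1 ≤ 0), max_eq_left (by linarith : (0:ℝ) ≤ -(a + 1)),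
        max_eq_right (by linarith : a - 1 ≤ 0), max_eq_left (by linarith : (0:ℝ) ≤ -(a - 1)),
        max_eq_right (by linarith : a ≤ 0), max_eq_left (by linarith : (0:ℝ) ≤ -a),
        max_eq_left (by linarith : 1 - -a ≤ (0:ℝ))]
      ring
    · rw [max_eq_left (by linarith : 0 ≤ a + 1), max_eq_right (by linarith : -(a + 1) ≤ 0),
        max_eq_right (by linarith : a - 1 ≤ 0), max_eq_left (by linarith : (0:ℝ) ≤ -(a - 1)),
        max_eq_right (by linarith : a ≤ 0), max_eq_left (by linarith : (0:ℝ) ≤ -a),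
        max_eq_right (by linarith : (0:ℝ) ≤ 1 - -a)]
      ring
  · rw [abs_of_nonneg h0]
    rcases le_total a 1 with h1 | h1
    · rw [max_eq_left (by linarith : 0 ≤ a + 1), max_eq_right (by linarith : -(a + 1) ≤ 0),
        max_eq_right (by linarith : a - 1 ≤ 0), max_eq_left (by linarith : (0:ℝ) ≤ -(a - 1)),
        max_eq_left (by linarith : 0 ≤ a), max_eq_right (by linarith : -a ≤ 0),
        max_eq_right (by linarith : (0:ℝ) ≤ 1 - a)]
      ring
    · rw [max_eq_left (by linarith : 0 ≤ a + 1), max_eq_right (by linarith : -(a + 1) ≤ 0),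
        max_eq_left (by linarith : 0 ≤ a - 1), max_eq_right (by linarith : -(a - 1) ≤ 0),
        max_eq_left (by linarith : 0 ≤ a), max_eq_right (by linarith : -a ≤ 0),
        max_eq_left (by linarith : 1 - a ≤ (0:ℝ))]
      ring

theorem line_kk {S : Finset E} (hS : S.Nonempty) (z v : E) (s : ℝ) :
    ∃ δ > 0, ∀ ε : ℝ, 0 < ε → ε < δ →
      sF S (z + (ε * s) • v) = sF S z + ε * kk (sF (face S z) v) (sF (face S z) (-v)) s := by
  rcases lt_trichotomy s 0 with h | h | h
  · obtain ⟨δ, hδ, H⟩ := eventually_line hS z (-v)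
    refine ⟨δ / (-s), div_pos hδ (by linarith), fun ε h0 h1 => ?_⟩
    have h2 : 0 < ε * (-s) := mul_pos h0 (by linarith)
    have h3 : ε * (-s) < δ := by rwa [lt_div_iff₀ (by linarith)] at h1
    have h4 := (H _ h2 h3).1
    have e : (ε * -s) • (-v) = (ε * s) • v := by
      rw [smul_neg, mul_neg, neg_smul, neg_neg]
    rw [e] at h4
    rw [h4, kk, max_eq_right h.le, max_eq_left (by linarith : (0:ℝ) ≤ -s)]
    ring
  · subst h
    refine ⟨1, one_pos, fun ε _ _ => ?_⟩
    simp [kk]
  · obtain ⟨δ, hδ, H⟩ := eventually_line hS z v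
    refine ⟨δ / s, div_pos hδ h, fun ε h0 h1 => ?_⟩
    have h2 : 0 < ε * s := mul_pos h0 h
    have h3 : ε * s < δ := by rwa [lt_div_iff₀ h] at h1
    rw [(H _ h2 h3).1, kk, max_eq_left h.le, max_eq_right (by linarith : -s ≤ 0)]
    ring

theorem tendsto_quot {H k : ℝ} (hH : 0 < H) {ε : ℕ → ℝ} (hε0 : ∀ n, 0 < ε n)
    (hε : Tendsto ε atTop (𝓝 0)) :
    Tendsto (fun n => (1 / ε n) * (1 / H - 1 / (H + ε n * k))) atTop (𝓝 (k / H ^ 2)) := by
  have h1 : Tendsto (fun n => H + ε n * k) atTop (𝓝 H) := by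
    have := (hε.mul_const k).const_add H
    simpa using this
  have h2 : ∀ᶠ n in atTop, 0 < H + ε n * k := h1.eventually (lt_mem_nhds hH)
  have h3 : Tendsto (fun n => k / (H * (H + ε n * k))) atTop (𝓝 (k / (H * H))) :=
    (tendsto_const_nhds).div (h1.const_mul H) (mul_pos hH hH).ne'
  rw [sq]
  refine h3.congr' ?_
  filter_upwards [h2] with n hn
  have h5 := (hε0 n).ne'
  have h6 := hn.ne'
  have h7 := hH.ne'
  rw [div_sub_div _ _ h7 h6, one_mul, mul_one, add_sub_cancel_left, div_mul_div_comm, one_mul]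
  rw [div_eq_div_iff (mul_ne_zero h7 h6) (mul_ne_zero h5 (mul_ne_zero h7 h6))]
  ring

theorem integrable_gauss4 (hF : 3 ≤ Module.finrank ℝ F) {r : ℝ} (hr : 0 < r) :
    Integrable (fun x : F × ℝ × ℝ => Real.exp (-(r * BX x x))) := by
  have : Nontrivial F := Module.nontrivial_of_finrank_pos (R := ℝ) (by omega)
  have h1 : Integrable (fun y : F => Real.exp (-(r * ‖y‖ ^ 2))) := by
    have := (integrable_fun_norm_addHaar (volume : Measure F)
      (f := fun t : ℝ => Real.exp (-(r * t ^ 2)))).mpr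
    refine this ?_
    have h2 := integrableOn_rpow_mul_exp_neg_mul_sq hr
      (s := ((Module.finrank ℝ F - 1 : ℕ) : ℝ)) (lt_of_lt_of_le (by norm_num) (Nat.cast_nonneg _))
    refine (integrableOn_congr_fun ?_ measurableSet_Ioi).mp h2
    intro t ht
    simp only [smul_eq_mul]
    rw [Real.rpow_natCast]
    have e : -r * t ^ 2 = -(r * t ^ 2) := by ring
    rw [e]
  have h2 : Integrable (fun t : ℝ => Real.exp (-(r * t ^ 2))) := by
    have := integrable_exp_neg_mul_sq hr
    refine this.congr (Eventually.of_forall fun t => ?_)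
    simp only
    congr 1
    ring
  have h3 := h1.mul_prod (h2.mul_prod h2)
  refine h3.congr (Eventually.of_forall fun x => ?_)
  simp only
  have e : -(r * BX x x) = -(r * ‖x.1‖ ^ 2) + (-(r * x.2.1 ^ 2) + -(r * x.2.2 ^ 2)) := by
    unfold BX
    rw [real_inner_self_eq_norm_sq]
    ring
  rw [e, Real.exp_add, Real.exp_add]

end B4aux

section B4

variable {E : Type*} [NormedAddCommGroup E] [InnerProductSpace ℝ E]
variable {F : Type*} [NormedAddCommGroup F] [InnerProductSpace ℝ F] [FiniteDimensional ℝ F]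
  [MeasurableSpace F] [BorelSpace F]

/-- TARGET B4: first blow-up, `ε → 0`. -/
theorem partB4 (hF : 3 ≤ Module.finrank ℝ F) {S : Finset E} (hS : S.Nonempty)
    {c : ℝ} (hc : 0 < c) (hlow : ∀ x, c * ‖x‖ ≤ sF S x) (T : (F × ℝ × ℝ) ≃L[ℝ] E)
    {N : F × ℝ × ℝ → ℝ} (hN : Continuous N) {C r : ℝ} (hr : 0 < r)
    (hNb : ∀ x, |N x| ≤ C * Real.exp (-(r * BX x x)))
    (hpos : ∀ ε : ℝ, 0 < ε →
      0 ≤ ∫ x : F × ℝ × ℝ, D2 (0, 0, 1) N x / sF S (T (x.1, x.2.1, ε * x.2.2))) :
    0 ≤ ∫ x : F × ℝ × ℝ, N x * (wd (face S (T (x.1, x.2.1, 0))) (T (0, 0, 1)) *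
      max 0 (1 - |x.2.2|) / sF S (T (x.1, x.2.1, 0)) ^ 2) := by
  have : Nontrivial F := Module.nontrivial_of_finrank_pos (R := ℝ) (by omega)
  obtain ⟨L, hL0, hL⟩ := abs_sF_sub_le S
  set v : E := T (0, 0, 1) with hv
  set e : F × ℝ × ℝ := (0, 0, 1) with he
  -- lower bound
  obtain ⟨c1, hc1, hc1'⟩ : ∃ c1 : ℝ, 0 < c1 ∧ ∀ x : F × ℝ × ℝ, c1 * ‖x.1‖ ≤ sF S (T x) := by
    refine ⟨c / (‖(T.symm : E →L[ℝ] F × ℝ × ℝ)‖ + 1), by positivity, fun x => ?_⟩
    refine le_trans ?_ (hlow (T x))
    have h1 : ‖x‖ ≤ ‖(T.symm : E →L[ℝ] F × ℝ × ℝ)‖ * ‖T x‖ := by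
      have := (T.symm : E →L[ℝ] F × ℝ × ℝ).le_opNorm (T x)
      simpa using this
    have h2 : ‖x.1‖ ≤ ‖x‖ := norm_fst_le x
    have h3 : ‖x.1‖ ≤ (‖(T.symm : E →L[ℝ] F × ℝ × ℝ)‖ + 1) * ‖T x‖ := by
      have := norm_nonneg (T x)
      linarith
    rw [div_mul_eq_mul_div, div_le_iff₀ (by positivity)]
    calc c * ‖x.1‖ ≤ c * ((‖(T.symm : E →L[ℝ] F × ℝ × ℝ)‖ + 1) * ‖T x‖) := by gcongr
      _ = c * ‖T x‖ * (‖(T.symm : E →L[ℝ] F × ℝ × ℝ)‖ + 1) := by ring
  -- the function `G`
  set G : ℝ → F × ℝ × ℝ → ℝ := fun ε x => 1 / sF S (T (x.1, x.2.1, ε * x.2.2)) with hG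
  have hne : ∀ᵐ x : F × ℝ × ℝ, x.1 ≠ 0 := by
    have h1 : ∀ᵐ y : F, y ≠ 0 := Measure.ae_ne volume 0
    exact (Measure.quasiMeasurePreserving_fst (μ := (volume : Measure F))
      (ν := (volume : Measure (ℝ × ℝ)))).ae h1
  have hGmeas : ∀ ε, Measurable (G ε) := by
    intro ε
    refine Measurable.div measurable_const ?_
    exact ((continuous_sF S).comp (T.continuous.comp (by fun_prop))).measurable
  have hC : 0 ≤ C := by
    have := (abs_nonneg _).trans (hNb 0)
    exact nonneg_of_mul_nonneg_left this (Real.exp_pos _)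
  have hdom := integrable_dom (F := F) hF hr
  -- Gaussian integrable
  have hgauss : Integrable (fun x : F × ℝ × ℝ => Real.exp (-(r * BX x x))) :=
    integrable_gauss4 hF hr
  -- shift of `G`
  have hGb : ∀ ε : ℝ, ∀ x s : F × ℝ × ℝ, s.1 = 0 → x.1 ≠ 0 →
      |G ε (x + s)| ≤ (1 / c1) * (1 + 1 / ‖x.1‖ ^ 2) := by
    intro ε x s hs hx
    have h0 : 0 < ‖x.1‖ := norm_pos_iff.mpr hx
    have h1 := hc1' ((x + s).1, (x + s).2.1, ε * (x + s).2.2)
    simp only [Prod.fst_add, hs, add_zero] at h1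
    have h2 : 0 < sF S (T (x.1, (x + s).2.1, ε * (x + s).2.2)) :=
      lt_of_lt_of_le (by positivity) h1
    simp only [hG, Prod.fst_add, hs, add_zero]
    rw [abs_of_pos (by positivity)]
    calc 1 / sF S (T (x.1, (x + s).2.1, ε * (x + s).2.2)) ≤ 1 / (c1 * ‖x.1‖) := by
          apply one_div_le_one_div_of_le (by positivity) h1
      _ = (1 / c1) * (1 / ‖x.1‖) := by rw [one_div_mul_one_div]
      _ ≤ (1 / c1) * (1 + 1 / ‖x.1‖ ^ 2) := by
          gcongr
          have : 1 / ‖x.1‖ ^ 2 = (1 / ‖x.1‖) ^ 2 := by rw [one_div_pow]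
          rw [this]
          nlinarith [sq_nonneg (1 / ‖x.1‖ - 1), sq_nonneg (1 / ‖x.1‖)]
  have hNG : ∀ ε : ℝ, ∀ s : F × ℝ × ℝ, s.1 = 0 → Integrable (fun x => N x * G ε (x + s)) := by
    intro ε s hs
    refine Integrable.mono' (g := fun x => (C / c1) * (Real.exp (-(r * BX x x)) +
      Real.exp (-(r * BX x x)) * (1 / ‖x.1‖ ^ 2))) ((hgauss.add hdom).const_mul _) ?_ ?_
    · exact (hN.measurable.mul ((hGmeas ε).comp (measurable_id.add_const s))).aestronglyMeasurable
    · filter_upwards [hne] with x hx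
      rw [Real.norm_eq_abs, abs_mul]
      calc |N x| * |G ε (x + s)| ≤ (C * Real.exp (-(r * BX x x))) *
            ((1 / c1) * (1 + 1 / ‖x.1‖ ^ 2)) :=
            mul_le_mul (hNb x) (hGb ε x s hs hx) (abs_nonneg _) (by positivity)
        _ = _ := by ring
  have hInv1 : (volume : Measure (ℝ × ℝ)).IsAddHaarMeasure :=
    Measure.prod.instIsAddHaarMeasure _ _
  have hInv2 : (volume : Measure (F × ℝ × ℝ)).IsAddHaarMeasure :=
    Measure.prod.instIsAddHaarMeasure _ _
  -- transfer the second difference to `G`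
  have htrans : ∀ ε : ℝ, ∫ x : F × ℝ × ℝ, D2 e N x / sF S (T (x.1, x.2.1, ε * x.2.2)) =
      ∫ x : F × ℝ × ℝ, N x * D2 e (G ε) x := by
    intro ε
    have hshift : ∀ s : F × ℝ × ℝ, s.1 = 0 → (∫ x, N (x + s) * G ε x) = ∫ x, N x * G ε (x - s) := by
      intro s _
      have := integral_add_right_eq_self (μ := (volume : Measure (F × ℝ × ℝ)))
        (fun x => N x * G ε (x - s)) s
      simp only [add_sub_cancel_right] at this
      exact this
    have hint : ∀ s : F × ℝ × ℝ, s.1 = 0 → Integrable (fun x => N (x + s) * G ε x) := by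
      intro s hs
      have h1 := hNG ε (-s) (by simp [hs])
      have h2 := h1.comp_add_right s
      refine h2.congr (Eventually.of_forall fun x => ?_)
      simp
    have e1 : (fun x : F × ℝ × ℝ => D2 e N x / sF S (T (x.1, x.2.1, ε * x.2.2))) =
        fun x => 2 * (N (x + 0) * G ε x) - N (x + e) * G ε x - N (x + -e) * G ε x := by
      funext x
      simp only [D2, hG, add_zero, ← sub_eq_add_neg]
      ring
    have e2 : (fun x : F × ℝ × ℝ => N x * D2 e (G ε) x) =
        fun x => 2 * (N x * G ε (x + 0)) - N x * G ε (x + e) - N x * G ε (x + -e) := by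
      funext x
      simp only [D2, add_zero, ← sub_eq_add_neg]
      ring
    have i0 := hint 0 rfl
    have i1 := hint e (by simp [he])
    have i2 := hint (-e) (by simp [he])
    have j0 := hNG ε 0 rfl
    have j1 := hNG ε e (by simp [he])
    have j2 := hNG ε (-e) (by simp [he])
    have i3 : Integrable (fun x => 2 * (N (x + 0) * G ε x) - N (x + e) * G ε x) :=
      (i0.const_mul 2).sub i1
    have j3 : Integrable (fun x => 2 * (N x * G ε (x + 0)) - N x * G ε (x + e)) :=
      (j0.const_mul 2).sub j1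
    rw [e1, e2, integral_sub i3 i2, integral_sub (i0.const_mul 2) i1,
      integral_sub j3 j2, integral_sub (j0.const_mul 2) j1,
      integral_const_mul, integral_const_mul, hshift 0 rfl, hshift e (by simp [he]),
      hshift (-e) (by simp [he])]
    simp only [sub_zero, add_zero, sub_neg_eq_add, ← sub_eq_add_neg]
    ring
  -- the sequence
  set ε : ℕ → ℝ := fun n => 1 / ((n : ℝ) + 1) with hε
  have hε0 : ∀ n, 0 < ε n := fun n => by simp only [hε]; positivity
  have hεt : Tendsto ε atTop (𝓝 0) := tendsto_one_div_add_atTop_nhds_zero_nat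
  have hseq : ∀ n, 0 ≤ ∫ x : F × ℝ × ℝ, N x * ((1 / ε n) * D2 e (G (ε n)) x) := by
    intro n
    have h1 := hpos (ε n) (hε0 n)
    rw [htrans] at h1
    have h2 : (∫ x : F × ℝ × ℝ, N x * ((1 / ε n) * D2 e (G (ε n)) x)) =
        (1 / ε n) * ∫ x : F × ℝ × ℝ, N x * D2 e (G (ε n)) x := by
      rw [← integral_const_mul]
      congr 1
      funext x
      ring
    rw [h2]
    exact mul_nonneg (by have := hε0 n; positivity) h1
  refine ge_of_tendsto' (tendsto_integral_of_dominated_convergence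
    (F := fun n x => N x * ((1 / ε n) * D2 e (G (ε n)) x))
    (fun x => (C * (2 * (L * ‖v‖) / c1 ^ 2)) * (Real.exp (-(r * BX x x)) * (1 / ‖x.1‖ ^ 2)))
    ?_ (hdom.const_mul _) ?_ ?_) hseq
  · intro n
    refine Measurable.aestronglyMeasurable ?_
    refine hN.measurable.mul (measurable_const.mul ?_)
    unfold D2
    exact ((measurable_const.mul (hGmeas _)).sub ((hGmeas _).comp (measurable_id.add_const e))).sub
      ((hGmeas _).comp (measurable_id.sub_const e))
  · intro n
    filter_upwards [hne] with x hx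
    have h0 : 0 < ‖x.1‖ := norm_pos_iff.mpr hx
    have hεn := hε0 n
    have key : ∀ s : F × ℝ × ℝ, (s = e ∨ s = -e) →
        |G (ε n) x - G (ε n) (x + s)| ≤ ε n * ((L * ‖v‖) / c1 ^ 2 * (1 / ‖x.1‖ ^ 2)) := by
      intro s hs
      have hs1 : s.1 = 0 := by rcases hs with rfl | rfl <;> simp [he]
      have hs2 : s.2.1 = 0 := by rcases hs with rfl | rfl <;> simp [he]
      have hs3 : |s.2.2| = 1 := by rcases hs with rfl | rfl <;> simp [he]
      have a1 := hc1' (x.1, x.2.1, ε n * x.2.2)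
      have a2 := hc1' (x.1, x.2.1, ε n * (x.2.2 + s.2.2))
      set p := sF S (T (x.1, x.2.1, ε n * x.2.2)) with hp
      set q := sF S (T (x.1, x.2.1, ε n * (x.2.2 + s.2.2))) with hq
      have hp0 : 0 < c1 * ‖x.1‖ := by positivity
      have e3 : G (ε n) x = 1 / p := rfl
      have e4 : G (ε n) (x + s) = 1 / q := by
        simp only [hG, hq, Prod.fst_add, Prod.snd_add, hs1, hs2, add_zero]
      have b1 : 0 < p := lt_of_lt_of_le hp0 a1
      have b2 : 0 < q := lt_of_lt_of_le hp0 a2
      rw [e3, e4, div_sub_div _ _ b1.ne' b2.ne', one_mul, mul_one, abs_div, abs_of_pos (mul_pos b1 b2)]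
      have h3 : |q - p| ≤ L * (ε n * ‖v‖) := by
        refine (hL _ _).trans ?_
        gcongr
        rw [← map_sub]
        have e5 : ((x.1, x.2.1, ε n * (x.2.2 + s.2.2)) : F × ℝ × ℝ) -
            (x.1, x.2.1, ε n * x.2.2) = (ε n * s.2.2) • e := by
          simp only [he, Prod.mk_sub_mk, sub_self, Prod.smul_mk, smul_zero, smul_eq_mul, mul_zero,
            mul_one]
          congr 2
          ring
        rw [e5, map_smul, norm_smul, Real.norm_eq_abs, abs_mul, hs3, abs_of_pos hεn, mul_one]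
      have h4 : (c1 * ‖x.1‖) * (c1 * ‖x.1‖) ≤ p * q := mul_le_mul a1 a2 hp0.le b1.le
      calc |q - p| / (p * q) ≤ (L * (ε n * ‖v‖)) / ((c1 * ‖x.1‖) * (c1 * ‖x.1‖)) := by
            gcongr
        _ = ε n * ((L * ‖v‖) / c1 ^ 2 * (1 / ‖x.1‖ ^ 2)) := by
            field_simp
    have k1 := key e (Or.inl rfl)
    have k2 := key (-e) (Or.inr rfl)
    rw [Real.norm_eq_abs, abs_mul, abs_mul, abs_of_pos (by positivity : 0 < 1 / ε n)]
    have h5 : |D2 e (G (ε n)) x| ≤ 2 * (ε n * ((L * ‖v‖) / c1 ^ 2 * (1 / ‖x.1‖ ^ 2))) := by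
      have : D2 e (G (ε n)) x = (G (ε n) x - G (ε n) (x + e)) + (G (ε n) x - G (ε n) (x + -e)) := by
        unfold D2
        rw [← sub_eq_add_neg]
        ring
      rw [this]
      refine (abs_add_le _ _).trans ?_
      linarith
    have h6 : 1 / ε n * |D2 e (G (ε n)) x| ≤ 2 * ((L * ‖v‖) / c1 ^ 2 * (1 / ‖x.1‖ ^ 2)) := by
      rw [one_div, inv_mul_le_iff₀ hεn]
      linarith
    calc |N x| * (1 / ε n * |D2 e (G (ε n)) x|)
        ≤ (C * Real.exp (-(r * BX x x))) * (2 * ((L * ‖v‖) / c1 ^ 2 * (1 / ‖x.1‖ ^ 2))) :=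
          mul_le_mul (hNb x) h6 (by positivity) (by positivity)
      _ = _ := by ring
  · filter_upwards [hne] with x hx
    have h0 : 0 < ‖x.1‖ := norm_pos_iff.mpr hx
    refine Tendsto.const_mul _ ?_
    set z : E := T (x.1, x.2.1, 0) with hz
    have hz1 : 0 < sF S z := lt_of_lt_of_le (by positivity) (hc1' (x.1, x.2.1, 0))
    set Dp := sF (face S z) v with hDp
    set Dm := sF (face S z) (-v) with hDm
    -- formula for `G`
    have hT : ∀ (t : ℝ) (a : ℝ), T (x.1, x.2.1, t * a) = z + (t * a) • v := by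
      intro t a
      have e7 : ((x.1, x.2.1, t * a) : F × ℝ × ℝ) = (x.1, x.2.1, 0) + (t * a) • e := by
        simp [he]
      rw [hz, hv, ← map_smul, ← map_add, ← e7]
    have hform : ∀ a : ℝ, ∀ᶠ n in atTop,
        sF S (T (x.1, x.2.1, ε n * a)) = sF S z + ε n * kk Dp Dm a := by
      intro a
      obtain ⟨δ, hδ, H⟩ := line_kk hS z v a
      have : ∀ᶠ n in atTop, ε n < δ := hεt.eventually (gt_mem_nhds hδ)
      filter_upwards [this] with n hn
      rw [hT, H _ (hε0 n) hn]
    have t0 := tendsto_quot (k := kk Dp Dm x.2.2) hz1 hε0 hεt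
    have t1 := tendsto_quot (k := kk Dp Dm (x.2.2 + 1)) hz1 hε0 hεt
    have t2 := tendsto_quot (k := kk Dp Dm (x.2.2 - 1)) hz1 hε0 hεt
    have t3 := (t1.add t2).sub (t0.const_mul 2)
    have e6 : kk Dp Dm (x.2.2 + 1) / sF S z ^ 2 + kk Dp Dm (x.2.2 - 1) / sF S z ^ 2 -
        2 * (kk Dp Dm x.2.2 / sF S z ^ 2) = wd (face S z) v * max 0 (1 - |x.2.2|) / sF S z ^ 2 := by
      have := kk_diff Dp Dm x.2.2
      rw [wd, ← hDp, ← hDm, ← this]
      ring
    rw [e6] at t3
    refine t3.congr' ?_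
    filter_upwards [hform x.2.2, hform (x.2.2 + 1), hform (x.2.2 - 1)] with n g0 g1 g2
    have d0 : G (ε n) x = 1 / (sF S z + ε n * kk Dp Dm x.2.2) := by
      simp only [hG]; rw [g0]
    have d1 : G (ε n) (x + e) = 1 / (sF S z + ε n * kk Dp Dm (x.2.2 + 1)) := by
      simp only [hG, he, Prod.fst_add, Prod.snd_add, add_zero]; rw [g1]
    have d2 : G (ε n) (x - e) = 1 / (sF S z + ε n * kk Dp Dm (x.2.2 - 1)) := by
      simp only [hG, he, Prod.fst_sub, Prod.snd_sub, sub_zero]; rw [g2]
    rw [D2, d0, d1, d2]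
    ring

end B4



section B5

variable {E : Type*} [NormedAddCommGroup E] [InnerProductSpace ℝ E]
variable {F : Type*} [NormedAddCommGroup F] [InnerProductSpace ℝ F] [FiniteDimensional ℝ F]
  [MeasurableSpace F] [BorelSpace F]




theorem wd_le_of_subset {S : Finset E} (v : E) : ∃ C1 : ℝ, 0 ≤ C1 ∧ ∀ A : Finset E, A ⊆ S → wd A v ≤ C1 := by
  refine ⟨2 * ((∑ p ∈ S, ‖p‖) * ‖v‖), by positivity, ?_⟩
  intro A hA
  have key : ∀ u : E, ‖u‖ = ‖v‖ → sF A u ≤ (∑ p ∈ S, ‖p‖) * ‖v‖ := by
    intro u hu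
    by_cases hne : A.Nonempty
    · obtain ⟨p, hp, h⟩ := exists_sF hne u
      rw [← h, ← hu]
      have h1 : inner ℝ p u ≤ ‖p‖ * ‖u‖ := real_inner_le_norm _ _
      have h3 : ‖p‖ ≤ ∑ p ∈ S, ‖p‖ :=
        Finset.single_le_sum (f := fun q : E => ‖q‖) (fun _ _ => norm_nonneg _) (hA hp)
      have h4 : ‖p‖ * ‖u‖ ≤ (∑ p ∈ S, ‖p‖) * ‖u‖ := by gcongr
      linarith
    · unfold sF
      rw [dif_neg hne]
      positivity
  unfold wd
  have h1 := key v rfl
  have h2 := key (-v) (norm_neg v)
  linarith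

theorem measurable_wd_face {X : Type*} [TopologicalSpace X] [MeasurableSpace X]
    [OpensMeasurableSpace X] {S : Finset E} (hS : S.Nonempty) (v : E) {z : X → E}
    (hz : Continuous z) : Measurable (fun x => wd (face S (z x)) v) := by
  have h : ∀ n : ℕ, Measurable (fun x => ((n:ℝ)+1) *
      (sF S (z x + (1/((n:ℝ)+1)) • v) + sF S (z x + (1/((n:ℝ)+1)) • (-v)) - 2 * sF S (z x))) := by
    intro n
    apply Continuous.measurable
    have := continuous_sF S
    fun_prop
  refine measurable_of_tendsto_metrizable h ?_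
  rw [tendsto_pi_nhds]
  intro x
  obtain ⟨d1, hd1, h1⟩ := eventually_line hS (z x) v
  obtain ⟨d2, hd2, h2⟩ := eventually_line hS (z x) (-v)
  have hlim : ∀ᶠ n : ℕ in atTop, 1/((n:ℝ)+1) < min d1 d2 :=
    (tendsto_one_div_add_atTop_nhds_zero_nat (𝕜 := ℝ)).eventually_lt_const (lt_min hd1 hd2)
  apply tendsto_const_nhds.congr'
  filter_upwards [hlim] with n hn
  have hpos : (0:ℝ) < 1/((n:ℝ)+1) := by positivity
  rw [(h1 _ hpos (lt_of_lt_of_le hn (min_le_left _ _))).1,
    (h2 _ hpos (lt_of_lt_of_le hn (min_le_right _ _))).1]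
  unfold wd
  have : ((n:ℝ)+1) ≠ 0 := by positivity
  field_simp
  ring

theorem measurable_wd_face_face {X : Type*} [TopologicalSpace X] [MeasurableSpace X]
    [OpensMeasurableSpace X] {S : Finset E} (hS : S.Nonempty) (v w : E) {z : X → E}
    (hz : Continuous z) : Measurable (fun x => wd (face (face S (z x)) w) v) := by
  have h : ∀ n : ℕ, Measurable (fun x => wd (face S (z x + (1/((n:ℝ)+1)) • w)) v) := by
    intro n
    exact measurable_wd_face hS v (by fun_prop)
  refine measurable_of_tendsto_metrizable h ?_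
  rw [tendsto_pi_nhds]
  intro x
  obtain ⟨d1, hd1, h1⟩ := eventually_line hS (z x) w
  have hlim : ∀ᶠ n : ℕ in atTop, 1/((n:ℝ)+1) < d1 :=
    (tendsto_one_div_add_atTop_nhds_zero_nat (𝕜 := ℝ)).eventually_lt_const hd1
  apply tendsto_const_nhds.congr'
  filter_upwards [hlim] with n hn
  have hpos : (0:ℝ) < 1/((n:ℝ)+1) := by positivity
  rw [(h1 _ hpos hn).2]

omit [FiniteDimensional ℝ F] [MeasurableSpace F] [BorelSpace F] in
theorem exists_antilip (T : (F × ℝ × ℝ) ≃L[ℝ] E) :
    ∃ c' : ℝ, 0 < c' ∧ ∀ x : F × ℝ × ℝ, c' * ‖x.1‖ ≤ ‖T x‖ := by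
  set K : ℝ := ‖(T.symm : E →L[ℝ] (F × ℝ × ℝ))‖ + 1 with hK
  have hKpos : 0 < K := by positivity
  refine ⟨1 / K, by positivity, fun x => ?_⟩
  have h1 : ‖x‖ ≤ ‖(T.symm : E →L[ℝ] (F × ℝ × ℝ))‖ * ‖T x‖ := by
    have := (T.symm : E →L[ℝ] (F × ℝ × ℝ)).le_opNorm (T x)
    simpa using this
  have h2 : ‖x.1‖ ≤ ‖x‖ := norm_fst_le x
  have h3 : ‖x.1‖ ≤ K * ‖T x‖ := by
    have : 0 ≤ ‖T x‖ := norm_nonneg _
    rw [hK]; nlinarith
  rw [div_mul_eq_mul_div, one_mul, div_le_iff₀ hKpos]
  linarith

omit [FiniteDimensional ℝ F] [MeasurableSpace F] [BorelSpace F] in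
theorem BX_self_nonneg (x : F × ℝ × ℝ) : 0 ≤ BX x x := by
  unfold BX
  have := real_inner_self_nonneg (x := x.1)
  nlinarith [mul_self_nonneg x.2.1, mul_self_nonneg x.2.2]

omit [FiniteDimensional ℝ F] [MeasurableSpace F] [BorelSpace F] in
theorem BX_shift5 (x : F × ℝ × ℝ) (s : ℝ) (hs : s * s = 1) :
    BX x x / 2 - 1 ≤ BX (x + (0, s, 0)) (x + (0, s, 0)) := by
  unfold BX
  have := real_inner_self_nonneg (x := x.1)
  simp only [Prod.fst_add, Prod.snd_add, add_zero]
  nlinarith [mul_self_nonneg (x.2.1 + 2 * s), mul_self_nonneg x.2.2]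

theorem ae_fst_ne (hF : 3 ≤ Module.finrank ℝ F) : ∀ᵐ x : F × ℝ × ℝ, x.1 ≠ 0 := by
  have : Nontrivial F := Module.nontrivial_of_finrank_pos (R := ℝ) (by omega)
  have : (𝓝[≠] (0:F)).NeBot := Module.punctured_nhds_neBot ℝ F 0
  have h : ∀ᵐ y : F, y ≠ 0 := by
    rw [ae_iff]
    simp
  exact Measure.quasiMeasurePreserving_fst.ae h

theorem ae_snd_ne (β : ℝ) : ∀ᵐ x : F × ℝ × ℝ, x.2.1 ≠ β := by
  have h : ∀ᵐ y : ℝ, y ≠ β := by
    rw [ae_iff]
    simp
  have h2 : ∀ᵐ y : ℝ × ℝ, y.1 ≠ β := Measure.quasiMeasurePreserving_fst.ae h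
  exact Measure.quasiMeasurePreserving_snd.ae h2

theorem addRightInv_vol : (volume : Measure (F × ℝ × ℝ)).IsAddRightInvariant := by
  have h2 : (volume : Measure (ℝ × ℝ)).IsAddLeftInvariant := inferInstance
  have h1 : (volume : Measure F).IsAddLeftInvariant := inferInstance
  have h3 : ((volume : Measure F).prod (volume : Measure (ℝ × ℝ))).IsAddLeftInvariant :=
    inferInstance
  have h4 : (volume : Measure (F × ℝ × ℝ)).IsAddLeftInvariant := h3
  infer_instance

/-- the jump function -/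
noncomputable def qJ (S : Finset E) (T : (F × ℝ × ℝ) ≃L[ℝ] E) (x : F × ℝ × ℝ) : ℝ :=
  (wd (face (face S (T (x.1, 0, 0))) (T (0, 1, 0))) (T (0, 0, 1)) -
    wd (face (face S (T (x.1, 0, 0))) (-T (0, 1, 0))) (T (0, 0, 1))) *
  (if 0 < x.2.1 ∧ x.2.1 < 1 then 1 else if -1 < x.2.1 ∧ x.2.1 < 0 then -1 else 0) *
  max 0 (1 - |x.2.2|) / sF S (T (x.1, 0, 0)) ^ 2

/-- TARGET B5: second blow-up, `δ → 0`. -/
theorem partB5 (hF : 3 ≤ Module.finrank ℝ F) {S : Finset E} (hS : S.Nonempty)
    {c : ℝ} (hc : 0 < c) (hlow : ∀ x, c * ‖x‖ ≤ sF S x) (T : (F × ℝ × ℝ) ≃L[ℝ] E)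
    {N : F × ℝ × ℝ → ℝ} (hN : Continuous N) {C r : ℝ} (hr : 0 < r)
    (hNb : ∀ x, |N x| ≤ C * Real.exp (-(r * BX x x)))
    (hpos : ∀ δ : ℝ, 0 < δ →
      0 ≤ ∫ x : F × ℝ × ℝ, D2 (0, 1, 0) N x *
        (wd (face S (T (x.1, δ * x.2.1, 0))) (T (0, 0, 1)) *
          max 0 (1 - |x.2.2|) / sF S (T (x.1, δ * x.2.1, 0)) ^ 2)) :
    0 ≤ ∫ x : F × ℝ × ℝ, N x * qJ S T x := by
  classical
  have hinv := addRightInv_vol (F := F)
  obtain ⟨C1, hC1, hwd⟩ := wd_le_of_subset (S := S) (T (0, 0, 1))
  obtain ⟨c', hc', hT⟩ := exists_antilip T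
  have hCnn : 0 ≤ C := by
    have := hNb 0
    have h0 : BX (0 : F × ℝ × ℝ) 0 = 0 := by simp [BX]
    rw [h0, mul_zero, neg_zero, Real.exp_zero, mul_one] at this
    exact (abs_nonneg _).trans this
  -- the limit function
  obtain ⟨Q, hQ⟩ : ∃ Q : F × ℝ × ℝ → ℝ, ∀ x, Q x =
      (if 0 < x.2.1 then wd (face (face S (T (x.1, 0, 0))) (T (0, 1, 0))) (T (0, 0, 1))
        else wd (face (face S (T (x.1, 0, 0))) (-T (0, 1, 0))) (T (0, 0, 1))) *
      max 0 (1 - |x.2.2|) / sF S (T (x.1, 0, 0)) ^ 2 := ⟨_, fun _ => rfl⟩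
  obtain ⟨Qd, hQd⟩ : ∃ Qd : ℝ → F × ℝ × ℝ → ℝ, ∀ δ x, Qd δ x =
      (wd (face S (T (x.1, δ * x.2.1, 0))) (T (0, 0, 1)) *
          max 0 (1 - |x.2.2|) / sF S (T (x.1, δ * x.2.1, 0)) ^ 2) := ⟨_, fun _ _ => rfl⟩
  have hcz : ∀ δ : ℝ, Continuous fun x : F × ℝ × ℝ => T (x.1, δ * x.2.1, 0) := by
    intro δ; fun_prop
  have hcy : Continuous fun x : F × ℝ × ℝ => T (x.1, 0, 0) := by fun_prop
  have hcm : Measurable fun x : F × ℝ × ℝ => max 0 (1 - |x.2.2|) := by
    apply Continuous.measurable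
    fun_prop
  have hQmeas : Measurable Q := by
    have : Q = fun x => _ := funext hQ
    rw [this]
    refine Measurable.div (Measurable.mul (Measurable.ite ?_ ?_ ?_) hcm) ?_
    · exact measurableSet_lt measurable_const (by fun_prop)
    · exact measurable_wd_face_face hS _ _ hcy
    · exact measurable_wd_face_face hS _ _ hcy
    · exact (((continuous_sF S).comp hcy).pow 2).measurable
  have hQdmeas : ∀ δ, Measurable (Qd δ) := by
    intro δ
    have : Qd δ = fun x => _ := funext (hQd δ)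
    rw [this]
    refine Measurable.div (Measurable.mul ?_ hcm) ?_
    · exact measurable_wd_face hS _ (hcz δ)
    · exact (((continuous_sF S).comp (hcz δ)).pow 2).measurable
  -- bound on the quotients
  have hbound : ∀ (x : F × ℝ × ℝ) (z : E) (A : Finset E), A ⊆ S → x.1 ≠ 0 →
      c' * ‖x.1‖ ≤ ‖z‖ →
      |wd A (T (0, 0, 1)) * max 0 (1 - |x.2.2|) / sF S z ^ 2| ≤
        C1 / (c * c') ^ 2 * (1 / ‖x.1‖ ^ 2) := by
    intro x z A hA hx hz
    have h1 : 0 ≤ wd A (T (0, 0, 1)) := wd_nonneg A _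
    have h2 : 0 ≤ max 0 (1 - |x.2.2|) := le_max_left _ _
    have h3 : max 0 (1 - |x.2.2|) ≤ 1 :=
      max_le (by norm_num) (by linarith [abs_nonneg x.2.2])
    have hy : 0 < ‖x.1‖ := norm_pos_iff.mpr hx
    have h4 : c * c' * ‖x.1‖ ≤ sF S z := by
      calc c * c' * ‖x.1‖ = c * (c' * ‖x.1‖) := by ring
        _ ≤ c * ‖z‖ := by gcongr
        _ ≤ _ := hlow z
    have h5 : 0 < c * c' * ‖x.1‖ := by positivity
    rw [abs_of_nonneg (by positivity)]
    calc wd A (T (0, 0, 1)) * max 0 (1 - |x.2.2|) / sF S z ^ 2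
        ≤ C1 * 1 / (c * c' * ‖x.1‖) ^ 2 := by
          have := hwd A hA
          gcongr
      _ = _ := by field_simp
  have hQb : ∀ x : F × ℝ × ℝ, x.1 ≠ 0 → |Q x| ≤ C1 / (c * c') ^ 2 * (1 / ‖x.1‖ ^ 2) := by
    intro x hx
    rw [hQ x]
    split_ifs
    · exact hbound x _ _ ((face_subset _ _).trans (face_subset _ _)) hx (hT (x.1, 0, 0))
    · exact hbound x _ _ ((face_subset _ _).trans (face_subset _ _)) hx (hT (x.1, 0, 0))
  have hQdb : ∀ (δ : ℝ) (x : F × ℝ × ℝ), x.1 ≠ 0 →
      |Qd δ x| ≤ C1 / (c * c') ^ 2 * (1 / ‖x.1‖ ^ 2) := by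
    intro δ x hx
    rw [hQd δ x]
    exact hbound x _ _ (face_subset _ _) hx (hT (x.1, δ * x.2.1, 0))
  -- bounds on N
  have hNs : ∀ (x : F × ℝ × ℝ) (s : ℝ), s * s = 1 →
      |N (x + (0, s, 0))| ≤ C * Real.exp r * Real.exp (-(r / 2 * BX x x)) := by
    intro x s hs
    refine (hNb _).trans ?_
    rw [mul_assoc, ← Real.exp_add]
    apply mul_le_mul_of_nonneg_left _ hCnn
    apply Real.exp_le_exp.mpr
    have := BX_shift5 x s hs
    nlinarith
  have hN0 : ∀ x, |N x| ≤ C * Real.exp (-(r / 2 * BX x x)) := by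
    intro x
    refine (hNb x).trans ?_
    apply mul_le_mul_of_nonneg_left _ hCnn
    apply Real.exp_le_exp.mpr
    have := BX_self_nonneg x
    nlinarith
  have hsub : ∀ x : F × ℝ × ℝ, x - (0, 1, 0) = x + (0, -1, 0) := by
    intro x
    ext <;> simp [sub_eq_add_neg]
  have hD2b : ∀ x, |D2 (0, 1, 0) N x| ≤
      (2 * C + 2 * (C * Real.exp r)) * Real.exp (-(r / 2 * BX x x)) := by
    intro x
    unfold D2
    have h1 := hN0 x
    have h2 := hNs x 1 (by norm_num)
    have h3 := hNs x (-1) (by norm_num)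
    rw [hsub x]
    rw [abs_le] at h1 h2 h3 ⊢
    constructor <;> linarith
  have hD2c : Continuous (D2 (0, 1, 0) N) := by
    unfold D2
    fun_prop
  -- dominated convergence
  have hdom := (integrable_dom (F := F) hF (r := r / 2) (by positivity)).const_mul
    ((2 * C + 2 * (C * Real.exp r)) * (C1 / (c * c') ^ 2))
  have hlim : Tendsto (fun n : ℕ => ∫ x : F × ℝ × ℝ, D2 (0, 1, 0) N x * Qd (1 / ((n : ℝ) + 1)) x)
      atTop (𝓝 (∫ x : F × ℝ × ℝ, D2 (0, 1, 0) N x * Q x)) := by
    refine tendsto_integral_of_dominated_convergence _ ?_ hdom ?_ ?_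
    · intro n
      exact (hD2c.measurable.mul (hQdmeas _)).aestronglyMeasurable
    · intro n
      filter_upwards [ae_fst_ne hF] with x hx
      rw [Real.norm_eq_abs, abs_mul]
      calc |D2 (0, 1, 0) N x| * |Qd (1 / ((n : ℝ) + 1)) x| ≤
          ((2 * C + 2 * (C * Real.exp r)) * Real.exp (-(r / 2 * BX x x))) *
            (C1 / (c * c') ^ 2 * (1 / ‖x.1‖ ^ 2)) :=
            mul_le_mul (hD2b x) (hQdb _ x hx) (abs_nonneg _) (by positivity)
        _ = _ := by ring
    · filter_upwards [ae_fst_ne hF, ae_snd_ne 0] with x hx hb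
      refine Tendsto.const_mul _ ?_
      rw [hQ x]
      have hd0 : Tendsto (fun n : ℕ => 1 / ((n : ℝ) + 1)) atTop (𝓝 0) :=
        tendsto_one_div_add_atTop_nhds_zero_nat
      have hfun : (fun n : ℕ => Qd (1 / ((n : ℝ) + 1)) x) = fun n : ℕ => _ :=
        funext fun n => hQd _ x
      rw [hfun]
      have hz : ∀ t : ℝ, T (x.1, t * x.2.1, 0) = T (x.1, 0, 0) + (t * x.2.1) • T (0, 1, 0) := by
        intro t
        rw [← map_smul, ← map_add]
        congr 1
        ext <;> simp
      have hsF0 : sF S (T (x.1, 0, 0)) ≠ 0 := by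
        have h1 := hlow (T (x.1, 0, 0))
        have h2 := hT (x.1, 0, 0)
        have h3 : 0 < ‖x.1‖ := norm_pos_iff.mpr hx
        have h4 : 0 < c' * ‖x.1‖ := by positivity
        have h5 : 0 < c * ‖T (x.1, 0, 0)‖ := by
          have : 0 < ‖T (x.1, 0, 0)‖ := lt_of_lt_of_le h4 h2
          positivity
        exact (lt_of_lt_of_le h5 h1).ne'
      refine Tendsto.div (Tendsto.mul_const _ ?_) ?_ (pow_ne_zero 2 hsF0)
      · apply tendsto_const_nhds.congr'
        rcases lt_or_gt_of_ne hb with hb' | hb'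
        · obtain ⟨d, hd, h⟩ := eventually_line hS (T (x.1, 0, 0)) (-T (0, 1, 0))
          have hd1 : Tendsto (fun n : ℕ => 1 / ((n : ℝ) + 1) * (-x.2.1)) atTop (𝓝 0) := by
            simpa using hd0.mul_const (-x.2.1)
          filter_upwards [hd1.eventually_lt_const hd] with n hn
          have hpn : (0 : ℝ) < 1 / ((n : ℝ) + 1) := by positivity
          rw [if_neg (not_lt.mpr hb'.le), hz,
            ← (h _ (mul_pos hpn (neg_pos.mpr hb')) hn).2]
          congr 3
          rw [smul_neg, ← neg_smul]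
          congr 1
          ring
        · obtain ⟨d, hd, h⟩ := eventually_line hS (T (x.1, 0, 0)) (T (0, 1, 0))
          have hd1 : Tendsto (fun n : ℕ => 1 / ((n : ℝ) + 1) * x.2.1) atTop (𝓝 0) := by
            simpa using hd0.mul_const x.2.1
          filter_upwards [hd1.eventually_lt_const hd] with n hn
          have hpn : (0 : ℝ) < 1 / ((n : ℝ) + 1) := by positivity
          rw [if_pos hb', hz, ← (h _ (mul_pos hpn hb') hn).2]
      · have hcont : Continuous fun t : ℝ => sF S (T (x.1, t * x.2.1, 0)) ^ 2 := by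
          have : Continuous fun t : ℝ => T (x.1, t * x.2.1, 0) := by fun_prop
          exact ((continuous_sF S).comp this).pow 2
        have h := (hcont.tendsto 0).comp hd0
        simpa [Function.comp_def] using h
  have h1 : 0 ≤ ∫ x : F × ℝ × ℝ, D2 (0, 1, 0) N x * Q x := by
    refine ge_of_tendsto' hlim fun n => ?_
    have := hpos (1 / ((n : ℝ) + 1)) (by positivity)
    simpa only [hQd] using this
  -- integrability
  have hi : ∀ (s K : ℝ), (∀ x, |N (x + (0, s, 0))| ≤ K * Real.exp (-(r / 2 * BX x x))) → 0 ≤ K →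
      Integrable (fun x : F × ℝ × ℝ => N (x + (0, s, 0)) * Q x) := by
    intro s K hK hK0
    have hdom' := (integrable_dom (F := F) hF (r := r / 2) (by positivity)).const_mul
      (K * (C1 / (c * c') ^ 2))
    refine hdom'.mono' ?_ ?_
    · have : Continuous fun x : F × ℝ × ℝ => N (x + (0, s, 0)) := by fun_prop
      exact (this.measurable.mul hQmeas).aestronglyMeasurable
    · filter_upwards [ae_fst_ne hF] with x hx
      rw [Real.norm_eq_abs, abs_mul]
      calc |N (x + (0, s, 0))| * |Q x| ≤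
          (K * Real.exp (-(r / 2 * BX x x))) * (C1 / (c * c') ^ 2 * (1 / ‖x.1‖ ^ 2)) :=
            mul_le_mul (hK x) (hQb x hx) (abs_nonneg _) (by positivity)
        _ = _ := by ring
  have hi0 : Integrable (fun x : F × ℝ × ℝ => N x * Q x) := by
    have := hi 0 C (by
      intro x
      have : x + ((0 : F), (0 : ℝ), (0 : ℝ)) = x := by ext <;> simp
      rw [this]; exact hN0 x) hCnn
    refine this.congr (Eventually.of_forall fun x => ?_)
    have : x + ((0 : F), (0 : ℝ), (0 : ℝ)) = x := by ext <;> simp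
    simp only [this]
  have hi1 : Integrable (fun x : F × ℝ × ℝ => N (x + (0, 1, 0)) * Q x) :=
    hi 1 _ (fun x => hNs x 1 (by norm_num)) (by positivity)
  have hi2 : Integrable (fun x : F × ℝ × ℝ => N (x - (0, 1, 0)) * Q x) := by
    have := hi (-1) _ (fun x => hNs x (-1) (by norm_num)) (by positivity)
    simpa only [hsub] using this
  have hj1 : Integrable (fun x : F × ℝ × ℝ => N x * Q (x - (0, 1, 0))) := by
    have := hi1.comp_sub_right (0, 1, 0)
    simpa only [sub_add_cancel] using this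
  have hj2 : Integrable (fun x : F × ℝ × ℝ => N x * Q (x + (0, 1, 0))) := by
    have := hi2.comp_add_right (0, 1, 0)
    simpa only [add_sub_cancel_right] using this
  have he1 : ∫ x : F × ℝ × ℝ, N (x + (0, 1, 0)) * Q x = ∫ x : F × ℝ × ℝ, N x * Q (x - (0, 1, 0)) := by
    rw [← integral_add_right_eq_self (fun x : F × ℝ × ℝ => N x * Q (x - (0, 1, 0))) (0, 1, 0)]
    simp only [add_sub_cancel_right]
  have he2 : ∫ x : F × ℝ × ℝ, N (x - (0, 1, 0)) * Q x = ∫ x : F × ℝ × ℝ, N x * Q (x + (0, 1, 0)) := by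
    rw [← integral_sub_right_eq_self (fun x : F × ℝ × ℝ => N x * Q (x + (0, 1, 0))) (0, 1, 0)]
    simp only [sub_add_cancel]
  have hL : ∫ x : F × ℝ × ℝ, D2 (0, 1, 0) N x * Q x = 2 * (∫ x : F × ℝ × ℝ, N x * Q x) -
      (∫ x : F × ℝ × ℝ, N (x + (0, 1, 0)) * Q x) - ∫ x : F × ℝ × ℝ, N (x - (0, 1, 0)) * Q x := by
    have hA : Integrable (fun x : F × ℝ × ℝ => 2 * (N x * Q x) - N (x + (0, 1, 0)) * Q x) :=
      (hi0.const_mul 2).sub hi1
    rw [← integral_const_mul, ← integral_sub (hi0.const_mul 2) hi1, ← integral_sub hA hi2]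
    refine integral_congr_ae (Eventually.of_forall fun x => ?_)
    simp only [D2]
    ring
  have hR : ∫ x : F × ℝ × ℝ, N x * qJ S T x = 2 * (∫ x : F × ℝ × ℝ, N x * Q x) -
      (∫ x : F × ℝ × ℝ, N x * Q (x - (0, 1, 0))) - ∫ x : F × ℝ × ℝ, N x * Q (x + (0, 1, 0)) := by
    have hA : Integrable (fun x : F × ℝ × ℝ => 2 * (N x * Q x) - N x * Q (x - (0, 1, 0))) :=
      (hi0.const_mul 2).sub hj1
    rw [← integral_const_mul, ← integral_sub (hi0.const_mul 2) hj1, ← integral_sub hA hj2]
    apply integral_congr_ae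
    filter_upwards [ae_snd_ne (F := F) 0, ae_snd_ne (F := F) 1, ae_snd_ne (F := F) (-1)]
      with x hx0 hx1 hx2
    have hkey : qJ S T x = 2 * Q x - Q (x - (0, 1, 0)) - Q (x + (0, 1, 0)) := by
      rw [hQ, hQ, hQ]
      simp only [Prod.fst_sub, Prod.snd_sub, Prod.fst_add, Prod.snd_add, sub_zero, add_zero]
      unfold qJ
      rcases lt_or_gt_of_ne hx0 with h0 | h0
      · rcases lt_or_gt_of_ne hx2 with h2 | h2
        · rw [if_neg (by rintro ⟨a, _⟩; linarith), if_neg (by rintro ⟨a, _⟩; linarith),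
            if_neg (by linarith), if_neg (by linarith), if_neg (by linarith)]
          ring
        · rw [if_neg (by rintro ⟨a, _⟩; linarith), if_pos ⟨h2, h0⟩,
            if_neg (by linarith), if_neg (by linarith), if_pos (by linarith)]
          ring
      · rcases lt_or_gt_of_ne hx1 with h1' | h1'
        · rw [if_pos ⟨h0, h1'⟩, if_pos h0, if_neg (by linarith), if_pos (by linarith)]
          ring
        · rw [if_neg (by rintro ⟨_, a⟩; linarith), if_neg (by rintro ⟨_, a⟩; linarith),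
            if_pos h0, if_pos (by linarith), if_pos (by linarith)]
          ring
    rw [hkey]
    ring
  rw [hR, ← he1, ← he2, ← hL]
  exact h1

end B5



section B6

variable {F : Type*} [NormedAddCommGroup F] [InnerProductSpace ℝ F] [FiniteDimensional ℝ F]
  [MeasurableSpace F] [BorelSpace F]

/-- reflection in the first coordinate preserves integrals -/
theorem integral_refl (f : F × ℝ × ℝ → ℝ) : ∫ x : F × ℝ × ℝ, f (-x.1, x.2) = ∫ x, f x := by
  have h : MeasurePreserving ((MeasurableEquiv.neg F).prodCongr (MeasurableEquiv.refl (ℝ × ℝ)))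
      (volume : Measure (F × ℝ × ℝ)) volume :=
    (Measure.measurePreserving_neg (volume : Measure F)).prod
      (MeasurePreserving.id (volume : Measure (ℝ × ℝ)))
  have := h.integral_comp' f
  exact this

/-- invariance under `x ↦ -x` -/
theorem integral_negX (f : F × ℝ × ℝ → ℝ) : ∫ x : F × ℝ × ℝ, f (-x) = ∫ x, f x := by
  have h : MeasurePreserving ((MeasurableEquiv.neg F).prodCongr
      ((MeasurableEquiv.neg ℝ).prodCongr (MeasurableEquiv.neg ℝ)))
      (volume : Measure (F × ℝ × ℝ)) volume :=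
    (Measure.measurePreserving_neg (volume : Measure F)).prod
      ((Measure.measurePreserving_neg (volume : Measure ℝ)).prod
        (Measure.measurePreserving_neg (volume : Measure ℝ)))
  have := h.integral_comp' f
  exact this

omit [MeasurableSpace F] [BorelSpace F] in
theorem exists_BX (L : StrongDual ℝ (F × ℝ × ℝ)) : ∃ k : F × ℝ × ℝ, ∀ x, L x = BX k x := by
  refine ⟨((InnerProductSpace.toDual ℝ F).symm (L.comp (.inl ℝ F (ℝ × ℝ))), L (0, 1, 0),
    L (0, 0, 1)), ?_⟩
  rintro ⟨x, a, b⟩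
  have h : (x, a, b) = (x, (0 : ℝ × ℝ)) + (a • ((0 : F), (1 : ℝ), (0 : ℝ)) +
      b • ((0 : F), (0 : ℝ), (1 : ℝ))) := by
    ext <;> simp
  rw [h, map_add, map_add, map_smul, map_smul, ← h]
  unfold BX
  rw [InnerProductSpace.toDual_symm_apply]
  simp [mul_comm]
  ring

omit [FiniteDimensional ℝ F] [MeasurableSpace F] [BorelSpace F] in
theorem BX_refl (k x : F × ℝ × ℝ) : BX (-k.1, k.2) (-x.1, x.2) = BX k x := by
  simp [BX]

omit [FiniteDimensional ℝ F] [MeasurableSpace F] [BorelSpace F] in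
theorem BX_negR (k x : F × ℝ × ℝ) : BX k (-x) = -BX k x := by
  simp [BX]; ring

omit [FiniteDimensional ℝ F] [MeasurableSpace F] [BorelSpace F] in
theorem BX_negL (k x : F × ℝ × ℝ) : BX (-k) x = -BX k x := by
  simp [BX]; ring

/-- TARGET B6. -/
theorem partB6 {q : F × ℝ × ℝ → ℝ}
    (hq : Integrable (fun x : F × ℝ × ℝ => Real.exp (-(BX x x / 2)) * q x))
    (hodd : ∀ x : F × ℝ × ℝ, q (-x.1, x.2) = -q x) (hev : ∀ x : F × ℝ × ℝ, q (-x) = q x)
    (hpos : ∀ k : F × ℝ × ℝ, 0 ≤ ∫ x, Mg k x * q x) :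
    ∀ᵐ x : F × ℝ × ℝ, q x = 0 := by
  obtain ⟨G, hG⟩ : ∃ G : F × ℝ × ℝ → ℝ, G = fun x => Real.exp (-(BX x x / 2)) * q x := ⟨_, rfl⟩
  have hGi : Integrable G := by rw [hG]; exact hq
  -- step 1
  have h1 : ∀ k : F × ℝ × ℝ, ∫ x, Mg k x * q x = 0 := by
    intro k
    have e : ∫ x, Mg (-k.1, k.2) x * q x = -∫ x, Mg k x * q x := by
      rw [← integral_refl (fun x => Mg (-k.1, k.2) x * q x), ← integral_neg]
      refine integral_congr_ae (Eventually.of_forall fun x => ?_)
      show Mg (-k.1, k.2) (-x.1, x.2) * q (-x.1, x.2) = -(Mg k x * q x)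
      rw [hodd]
      unfold Mg
      rw [BX_refl k x, BX_refl x x]
      ring
    have a1 := hpos (-k.1, k.2)
    have a2 := hpos k
    rw [e] at a1
    linarith
  -- step 2
  have h2 : ∀ k : F × ℝ × ℝ, ∫ x, G x * Real.sin (BX k x) = 0 := by
    intro k
    have e : ∫ x, G x * Real.sin (BX k x) = -∫ x, G x * Real.sin (BX k x) := by
      conv_lhs => rw [← integral_negX (fun x => G x * Real.sin (BX k x))]
      rw [← integral_neg]
      refine integral_congr_ae (Eventually.of_forall fun x => ?_)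
      show G (-x) * Real.sin (BX k (-x)) = -(G x * Real.sin (BX k x))
      rw [BX_negR, Real.sin_neg, hG]
      show Real.exp (-(BX (-x) (-x) / 2)) * q (-x) * -Real.sin (BX k x) = _
      rw [hev, BX_negR, BX_negL]
      ring_nf
    linarith
  have h1' : ∀ k : F × ℝ × ℝ, ∫ x, G x * Real.cos (BX k x) = 0 := by
    intro k
    rw [← h1 k]
    refine integral_congr_ae (Eventually.of_forall fun x => ?_)
    show G x * Real.cos (BX k x) = Mg k x * q x
    rw [hG, Mg]
    ring
  have hBXc : ∀ k : F × ℝ × ℝ, Continuous fun x : F × ℝ × ℝ => BX k x := fun k =>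
    continuous_BX.comp (by fun_prop : Continuous fun x : F × ℝ × ℝ => (k, x))
  have hci : ∀ k : F × ℝ × ℝ, Integrable fun x => G x * Real.cos (BX k x) := by
    intro k
    refine hGi.mul_bdd (c := 1) ?_ (Eventually.of_forall fun x => ?_)
    · exact (Real.continuous_cos.comp (hBXc k)).aestronglyMeasurable
    · exact Real.abs_cos_le_one _
  have hsi : ∀ k : F × ℝ × ℝ, Integrable fun x => G x * Real.sin (BX k x) := by
    intro k
    refine hGi.mul_bdd (c := 1) ?_ (Eventually.of_forall fun x => ?_)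
    · exact (Real.continuous_sin.comp (hBXc k)).aestronglyMeasurable
    · exact Real.abs_sin_le_one _
  -- step 3
  have h3 : ∀ k : F × ℝ × ℝ, ∫ x, (G x : ℂ) * Complex.exp ((BX k x : ℝ) * Complex.I) = 0 := by
    intro k
    have e : ∀ x, (G x : ℂ) * Complex.exp ((BX k x : ℝ) * Complex.I) =
        ((G x * Real.cos (BX k x) : ℝ) : ℂ) + ((G x * Real.sin (BX k x) : ℝ) : ℂ) * Complex.I := by
      intro x
      rw [Complex.exp_mul_I]
      push_cast
      ring
    simp_rw [e]
    rw [integral_add (hci k).ofReal ((hsi k).ofReal.mul_const _), integral_mul_const,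
      integral_complex_ofReal, integral_complex_ofReal, h1', h2]
    simp
  -- step 4
  have hGm : AEMeasurable G := hGi.aemeasurable
  have hm1 : AEMeasurable (fun x => ENNReal.ofReal (G x)) := hGm.ennreal_ofReal
  have hm2 : AEMeasurable (fun x => ENNReal.ofReal (-G x)) := hGm.neg.ennreal_ofReal
  have hf1 : ∫⁻ x, ENNReal.ofReal (G x) ≠ ⊤ := by
    have := hGi.lintegral_lt_top
    exact this.ne
  have hf2 : ∫⁻ x, ENNReal.ofReal (-G x) ≠ ⊤ := by
    have := hGi.neg.lintegral_lt_top
    exact this.ne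
  have i1 : IsFiniteMeasure (volume.withDensity fun x => ENNReal.ofReal (G x)) :=
    isFiniteMeasure_withDensity hf1
  have i2 : IsFiniteMeasure (volume.withDensity fun x => ENNReal.ofReal (-G x)) :=
    isFiniteMeasure_withDensity hf2
  have hmeas : (volume.withDensity fun x => ENNReal.ofReal (G x)) =
      volume.withDensity fun x => ENNReal.ofReal (-G x) := by
    apply Measure.ext_of_charFunDual
    ext L
    obtain ⟨k, hk⟩ := exists_BX L
    rw [charFunDual_apply, charFunDual_apply,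
      integral_withDensity_eq_integral_toReal_smul₀ hm1
        (Eventually.of_forall fun x => ENNReal.ofReal_lt_top),
      integral_withDensity_eq_integral_toReal_smul₀ hm2
        (Eventually.of_forall fun x => ENNReal.ofReal_lt_top), ← sub_eq_zero, ← integral_sub]
    · rw [← h3 k]
      refine integral_congr_ae (Eventually.of_forall fun x => ?_)
      show (ENNReal.ofReal (G x)).toReal • Complex.exp (L x * Complex.I) -
        (ENNReal.ofReal (-G x)).toReal • Complex.exp (L x * Complex.I) = _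
      rw [← sub_smul, hk, Complex.real_smul]
      congr 2
      rcases le_total 0 (G x) with h0 | h0
      · rw [ENNReal.toReal_ofReal h0, ENNReal.ofReal_of_nonpos (by linarith)]
        simp
      · rw [ENNReal.ofReal_of_nonpos h0, ENNReal.toReal_ofReal (by linarith)]
        simp
    · refine Integrable.mono' hGi.norm (hm1.ennreal_toReal.aestronglyMeasurable.smul
        (Continuous.aestronglyMeasurable (by fun_prop))) (Eventually.of_forall fun x => ?_)
      rw [norm_smul, Complex.norm_exp_ofReal_mul_I, mul_one, Real.norm_eq_abs,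
        abs_of_nonneg ENNReal.toReal_nonneg, ENNReal.toReal_ofReal']
      exact max_le (le_abs_self _) (abs_nonneg _)
    · refine Integrable.mono' hGi.norm (hm2.ennreal_toReal.aestronglyMeasurable.smul
        (Continuous.aestronglyMeasurable (by fun_prop))) (Eventually.of_forall fun x => ?_)
      rw [norm_smul, Complex.norm_exp_ofReal_mul_I, mul_one, Real.norm_eq_abs,
        abs_of_nonneg ENNReal.toReal_nonneg, ENNReal.toReal_ofReal']
      exact max_le (neg_le_abs _) (abs_nonneg _)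
  have hae := (withDensity_eq_iff hm1 hm2 hf1).1 hmeas
  filter_upwards [hae] with x hx
  have hx0 : G x = 0 := by
    rcases le_total 0 (G x) with h0 | h0
    · rw [ENNReal.ofReal_of_nonpos (by linarith : -G x ≤ 0), ENNReal.ofReal_eq_zero] at hx
      linarith
    · rw [ENNReal.ofReal_of_nonpos h0] at hx
      have := ENNReal.ofReal_eq_zero.1 hx.symm
      linarith
  rw [hG] at hx0
  exact (mul_eq_zero.1 hx0).resolve_left (Real.exp_pos _).ne'

end B6




section B7

variable {E : Type*} [NormedAddCommGroup E] [InnerProductSpace ℝ E]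

theorem wd_face_limit {S : Finset E} (hS : S.Nonempty) (v z : E) :
    Tendsto (fun n : ℕ => ((n : ℝ) + 1) * (sF S (z + (1 / ((n : ℝ) + 1)) • v) +
      sF S (z + (1 / ((n : ℝ) + 1)) • (-v)) - 2 * sF S z)) atTop (𝓝 (wd (face S z) v)) := by
  obtain ⟨δ1, hδ1, h1⟩ := eventually_line hS z v
  obtain ⟨δ2, hδ2, h2⟩ := eventually_line hS z (-v)
  have h0 : Tendsto (fun n : ℕ => 1 / ((n : ℝ) + 1)) atTop (𝓝 0) :=
    tendsto_one_div_add_atTop_nhds_zero_nat (𝕜 := ℝ)
  refine tendsto_const_nhds.congr' ?_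
  filter_upwards [h0.eventually (gt_mem_nhds (lt_min hδ1 hδ2))] with n hn
  have hp : (0:ℝ) < (n : ℝ) + 1 := by positivity
  have ht : (0:ℝ) < 1 / ((n : ℝ) + 1) := by positivity
  rw [(h1 _ ht (lt_of_lt_of_le hn (min_le_left _ _))).1,
    (h2 _ ht (lt_of_lt_of_le hn (min_le_right _ _))).1]
  unfold wd
  field_simp
  ring

theorem measurable_wd [MeasurableSpace E] [BorelSpace E] {S : Finset E} (hS : S.Nonempty) (v : E) :
    Measurable fun z => wd (face S z) v := by
  refine measurable_of_tendsto_metrizable (f := fun (n : ℕ) z => ((n : ℝ) + 1) *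
    (sF S (z + (1 / ((n : ℝ) + 1)) • v) + sF S (z + (1 / ((n : ℝ) + 1)) • (-v)) - 2 * sF S z))
    (fun n => ?_) ?_
  · apply Continuous.measurable
    have := continuous_sF S
    fun_prop
  · rw [tendsto_pi_nhds]
    exact fun z => wd_face_limit hS v z

theorem measurable_wd2 [MeasurableSpace E] [BorelSpace E] {S : Finset E} (hS : S.Nonempty)
    (w v : E) : Measurable fun z => wd (face (face S z) w) v := by
  refine measurable_of_tendsto_metrizable (f := fun (n : ℕ) z =>
    wd (face S (z + (1 / ((n : ℝ) + 1)) • w)) v) (fun n => ?_) ?_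
  · exact (measurable_wd hS v).comp (by fun_prop)
  · rw [tendsto_pi_nhds]
    intro z
    obtain ⟨δ1, hδ1, h1⟩ := eventually_line hS z w
    have h0 : Tendsto (fun n : ℕ => 1 / ((n : ℝ) + 1)) atTop (𝓝 0) :=
      tendsto_one_div_add_atTop_nhds_zero_nat (𝕜 := ℝ)
    refine tendsto_const_nhds.congr' ?_
    filter_upwards [h0.eventually (gt_mem_nhds hδ1)] with n hn
    rw [(h1 _ (by positivity) hn).2]

theorem wd_le {S A : Finset E} (hA : A ⊆ S) (v : E) : wd A v ≤ 2 * (∑ p ∈ S, ‖p‖) * ‖v‖ := by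
  have key : ∀ v : E, sF A v ≤ (∑ p ∈ S, ‖p‖) * ‖v‖ := by
    intro v
    by_cases hn : A.Nonempty
    · apply sF_le hn
      intro p hp
      refine (real_inner_le_norm p v).trans ?_
      gcongr
      exact Finset.single_le_sum (f := fun q : E => ‖q‖) (fun _ _ => norm_nonneg _) (hA hp)
    · unfold sF; rw [dif_neg hn]
      have : 0 ≤ ∑ p ∈ S, ‖p‖ := Finset.sum_nonneg fun _ _ => norm_nonneg _
      positivity
  unfold wd
  have h1 := key v
  have h2 := key (-v)
  rw [norm_neg] at h2
  linarith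

open Classical in
/-- the reflected set -/
noncomputable def ng (A : Finset E) : Finset E := A.image (fun p => -p)

open Classical in
theorem mem_ng {A : Finset E} {p : E} : p ∈ ng A ↔ -p ∈ A := by
  unfold ng
  rw [Finset.mem_image]
  constructor
  · rintro ⟨q, hq, rfl⟩; rwa [neg_neg]
  · intro h; exact ⟨-p, h, neg_neg p⟩

theorem sF_ng (A : Finset E) (x : E) : sF (ng A) x = sF A (-x) := by
  by_cases hA : A.Nonempty
  · have hB : (ng A).Nonempty := by
      obtain ⟨p, hp⟩ := hA; exact ⟨-p, mem_ng.mpr (by rwa [neg_neg])⟩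
    apply le_antisymm
    · apply sF_le hB
      intro p hp
      have := le_sF (mem_ng.mp hp) (-x)
      rwa [inner_neg_neg] at this
    · apply sF_le hA
      intro p hp
      have : -p ∈ ng A := mem_ng.mpr (by rwa [neg_neg])
      have := le_sF this x
      rwa [inner_neg_left, ← inner_neg_right] at this
  · have hB : ¬ (ng A).Nonempty := by
      rintro ⟨p, hp⟩; exact hA ⟨-p, mem_ng.mp hp⟩
    unfold sF; rw [dif_neg hA, dif_neg hB]

theorem face_ng (A : Finset E) (x : E) : face (ng A) x = ng (face A (-x)) := by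
  ext p
  rw [mem_face, mem_ng, mem_ng, mem_face, sF_ng, inner_neg_neg]

theorem wd_ng (A : Finset E) (v : E) : wd (ng A) v = wd A v := by
  unfold wd; rw [sF_ng, sF_ng, neg_neg, add_comm]

theorem ng_of_sym {S : Finset E} (hsym : ∀ p ∈ S, -p ∈ S) : ng S = S := by
  ext p
  rw [mem_ng]
  exact ⟨fun h => by simpa using hsym _ h, fun h => hsym _ h⟩

theorem wd_face_neg {S : Finset E} (hsym : ∀ p ∈ S, -p ∈ S) (y w v : E) :
    wd (face (face S (-y)) w) v = wd (face (face S y) (-w)) v := by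
  have h1 : face S (-y) = ng (face S y) := by
    conv_lhs => rw [← ng_of_sym hsym]
    rw [face_ng, neg_neg]
  rw [h1, face_ng, wd_ng]

end B7

section B8

variable {E : Type*} [NormedAddCommGroup E] [InnerProductSpace ℝ E] [FiniteDimensional ℝ E]
  [MeasurableSpace E] [BorelSpace E]
variable {F : Type*} [NormedAddCommGroup F] [InnerProductSpace ℝ F] [FiniteDimensional ℝ F]
  [MeasurableSpace F] [BorelSpace F]

theorem qJ_odd {S : Finset E} (hsym : ∀ p ∈ S, -p ∈ S) (T : (F × ℝ × ℝ) ≃L[ℝ] E)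
    (x : F × ℝ × ℝ) : qJ S T (-x.1, x.2) = -qJ S T x := by
  unfold qJ
  have h1 : T (-x.1, 0, 0) = -T (x.1, 0, 0) := by
    rw [← map_neg]; congr 1; simp
  simp only
  rw [h1, wd_face_neg hsym, wd_face_neg hsym, neg_neg, sF_neg hsym]
  ring

theorem qJ_even {S : Finset E} (hsym : ∀ p ∈ S, -p ∈ S) (T : (F × ℝ × ℝ) ≃L[ℝ] E)
    (x : F × ℝ × ℝ) : qJ S T (-x) = qJ S T x := by
  unfold qJ
  have h1 : T ((-x).1, 0, 0) = -T (x.1, 0, 0) := by
    rw [← map_neg]; congr 1; simp
  rw [h1, wd_face_neg hsym, wd_face_neg hsym, neg_neg, sF_neg hsym]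
  have h2 : (if 0 < (-x).2.1 ∧ (-x).2.1 < 1 then (1:ℝ) else
      if -1 < (-x).2.1 ∧ (-x).2.1 < 0 then -1 else 0) =
      -(if 0 < x.2.1 ∧ x.2.1 < 1 then (1:ℝ) else if -1 < x.2.1 ∧ x.2.1 < 0 then -1 else 0) := by
    simp only [Prod.snd_neg, Prod.fst_neg]
    by_cases ha : 0 < x.2.1 ∧ x.2.1 < 1
    · rw [if_pos ha, if_neg (by rintro ⟨h, _⟩; linarith [ha.1]),
        if_pos ⟨by linarith [ha.2], by linarith [ha.1]⟩]
    · rw [if_neg ha]
      by_cases hb : -1 < x.2.1 ∧ x.2.1 < 0
      · rw [if_pos hb, if_pos ⟨by linarith [hb.2], by linarith [hb.1]⟩]; norm_num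
      · rw [if_neg hb, if_neg (by rintro ⟨h, h'⟩; exact hb ⟨by linarith, by linarith⟩),
          if_neg (by rintro ⟨h, h'⟩; exact ha ⟨by linarith, by linarith⟩), neg_zero]
  rw [h2]
  simp only [Prod.snd_neg, abs_neg]
  ring

theorem qJ_measurable {S : Finset E} (hS : S.Nonempty) (T : (F × ℝ × ℝ) ≃L[ℝ] E) :
    Measurable (qJ S T) := by
  unfold qJ
  have h0 : Measurable fun x : F × ℝ × ℝ => T (x.1, 0, 0) := by
    apply Continuous.measurable; fun_prop
  have h1 := (measurable_wd2 hS (T (0, 1, 0)) (T (0, 0, 1))).comp h0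
  have h2 := (measurable_wd2 hS (-T (0, 1, 0)) (T (0, 0, 1))).comp h0
  have h3 : Measurable fun x : F × ℝ × ℝ =>
      (if 0 < x.2.1 ∧ x.2.1 < 1 then (1:ℝ) else if -1 < x.2.1 ∧ x.2.1 < 0 then -1 else 0) := by
    have m1 : Measurable fun x : F × ℝ × ℝ => x.2.1 := by fun_prop
    refine Measurable.ite ?_ measurable_const (Measurable.ite ?_ measurable_const measurable_const)
    · exact (measurableSet_lt measurable_const m1).inter (measurableSet_lt m1 measurable_const)
    · exact (measurableSet_lt measurable_const m1).inter (measurableSet_lt m1 measurable_const)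
  have h4 : Measurable fun x : F × ℝ × ℝ => max 0 (1 - |x.2.2|) := by
    apply Continuous.measurable; fun_prop
  have h5 : Measurable fun x : F × ℝ × ℝ => sF S (T (x.1, 0, 0)) ^ 2 :=
    ((continuous_sF S).measurable.comp h0).pow_const 2
  exact (((h1.sub h2).mul h3).mul h4).div h5

theorem exists_T_bound (T : (F × ℝ × ℝ) ≃L[ℝ] E) :
    ∃ κ : ℝ, 0 < κ ∧ ∀ x : F × ℝ × ℝ, κ * ‖x.1‖ ≤ ‖T x‖ := by
  refine ⟨1 / (‖(T.symm : E →L[ℝ] (F × ℝ × ℝ))‖ + 1), by positivity, fun x => ?_⟩
  have h1 : ‖x‖ ≤ ‖(T.symm : E →L[ℝ] (F × ℝ × ℝ))‖ * ‖T x‖ := by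
    have := (T.symm : E →L[ℝ] (F × ℝ × ℝ)).le_opNorm (T x)
    simpa using this
  have h2 : ‖x.1‖ ≤ ‖x‖ := by rw [Prod.norm_def]; exact le_max_left _ _
  rw [one_div, inv_mul_le_iff₀ (by positivity)]
  have := norm_nonneg (T x)
  nlinarith

theorem qJ_integrable (hF : 3 ≤ Module.finrank ℝ F) {S : Finset E} (hS : S.Nonempty)
    {c : ℝ} (hc : 0 < c) (hlow : ∀ x, c * ‖x‖ ≤ sF S x) (T : (F × ℝ × ℝ) ≃L[ℝ] E) :
    Integrable (fun x : F × ℝ × ℝ => Real.exp (-(BX x x / 2)) * qJ S T x) := by
  obtain ⟨κ, hκ, hκb⟩ := exists_T_bound T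
  set W : ℝ := 2 * (∑ p ∈ S, ‖p‖) * ‖T (0, 0, 1)‖ with hW
  have hW0 : 0 ≤ W := by
    have : 0 ≤ ∑ p ∈ S, ‖p‖ := Finset.sum_nonneg fun _ _ => norm_nonneg _
    positivity
  have hdom := (integrable_dom (F := F) hF (r := 1 / 2) (by norm_num)).const_mul (W / (c * κ) ^ 2)
  refine hdom.mono' ?_ (Eventually.of_forall fun x => ?_)
  · refine ((Measurable.mul ?_ (qJ_measurable hS T))).aestronglyMeasurable
    apply Continuous.measurable
    have h1 : Continuous fun x : F × ℝ × ℝ => BX x x :=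
      continuous_BX.comp (by fun_prop : Continuous fun x : F × ℝ × ℝ => (x, x))
    fun_prop
  · rw [norm_mul, Real.norm_of_nonneg (Real.exp_pos _).le]
    have e1 : -(BX x x / 2) = -(1 / 2 * BX x x) := by ring
    rw [e1]
    have hq : ‖qJ S T x‖ ≤ W / (c * κ) ^ 2 * (1 / ‖x.1‖ ^ 2) := by
      unfold qJ
      set y0 := T (x.1, 0, 0) with hy0
      have hw1 := wd_le ((face_subset _ (T (0, 1, 0))).trans (face_subset S y0)) (T (0, 0, 1))
      have hw2 := wd_le ((face_subset _ (-T (0, 1, 0))).trans (face_subset S y0)) (T (0, 0, 1))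
      have hw3 := wd_nonneg (face (face S y0) (T (0, 1, 0))) (T (0, 0, 1))
      have hw4 := wd_nonneg (face (face S y0) (-T (0, 1, 0))) (T (0, 0, 1))
      have hJ : |wd (face (face S y0) (T (0, 1, 0))) (T (0, 0, 1)) -
          wd (face (face S y0) (-T (0, 1, 0))) (T (0, 0, 1))| ≤ W := by
        rw [abs_le]; constructor <;> linarith
      have hs : |(if 0 < x.2.1 ∧ x.2.1 < 1 then (1:ℝ) else
          if -1 < x.2.1 ∧ x.2.1 < 0 then -1 else 0)| ≤ 1 := by
        split_ifs <;> simp
      have ht : |max 0 (1 - |x.2.2|)| ≤ 1 := by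
        rw [abs_of_nonneg (le_max_left _ _)]
        exact max_le zero_le_one (by linarith [abs_nonneg x.2.2])
      rw [Real.norm_eq_abs, abs_div, abs_mul, abs_mul]
      by_cases hx : x.1 = 0
      · have : y0 = 0 := by
          rw [hy0, hx]
          exact map_zero T
        rw [this, sF_zero]
        simp
        positivity
      · have hx1 : 0 < ‖x.1‖ := norm_pos_iff.mpr hx
        have h5 : c * κ * ‖x.1‖ ≤ sF S y0 := by
          have h6 := hκb (x.1, 0, 0)
          have h7 := hlow y0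
          have h8 : c * (κ * ‖x.1‖) ≤ c * ‖y0‖ := by
            apply mul_le_mul_of_nonneg_left _ hc.le
            exact h6
          linarith
        have h9 : (c * κ) ^ 2 * ‖x.1‖ ^ 2 ≤ sF S y0 ^ 2 := by
          rw [← mul_pow]; gcongr
        rw [abs_of_nonneg (sq_nonneg (sF S y0))]
        have hnum : |wd (face (face S y0) (T (0, 1, 0))) (T (0, 0, 1)) -
          wd (face (face S y0) (-T (0, 1, 0))) (T (0, 0, 1))| *
          |(if 0 < x.2.1 ∧ x.2.1 < 1 then (1:ℝ) else
            if -1 < x.2.1 ∧ x.2.1 < 0 then -1 else 0)| * |max 0 (1 - |x.2.2|)| ≤ W := by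
          calc _ ≤ W * 1 * 1 := by gcongr
            _ = W := by ring
        calc _ ≤ W / ((c * κ) ^ 2 * ‖x.1‖ ^ 2) := by gcongr
          _ = W / (c * κ) ^ 2 * (1 / ‖x.1‖ ^ 2) := by field_simp
    have h10 := mul_le_mul_of_nonneg_left hq (Real.exp_pos (-(1 / 2 * BX x x))).le
    refine h10.trans (le_of_eq ?_)
    ring

/-- scaling of the last two coordinates -/
noncomputable def scaleX (F : Type*) [NormedAddCommGroup F] [InnerProductSpace ℝ F] (d e : ℝ)
    (hd : d ≠ 0) (he : e ≠ 0) : (F × ℝ × ℝ) ≃L[ℝ] (F × ℝ × ℝ) :=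
  (ContinuousLinearEquiv.refl ℝ F).prodCongr
    ((ContinuousLinearEquiv.smulLeft (Units.mk0 d hd)).prodCongr
      (ContinuousLinearEquiv.smulLeft (Units.mk0 e he)))

omit [FiniteDimensional ℝ F] [MeasurableSpace F] [BorelSpace F] in
theorem scaleX_apply (d e : ℝ) (hd : d ≠ 0) (he : e ≠ 0) (x : F × ℝ × ℝ) :
    scaleX F d e hd he x = (x.1, d * x.2.1, e * x.2.2) := by
  rfl

theorem partB_ae (hF : 3 ≤ Module.finrank ℝ F) {S : Finset E} (hS : S.Nonempty)
    (hsym : ∀ p ∈ S, -p ∈ S) {c : ℝ} (hc : 0 < c) (hlow : ∀ x, c * ‖x‖ ≤ sF S x)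
    (P : ∀ g : E → ℝ, Continuous g → (∀ x, g (-x) = g x) →
      (∃ C c' : ℝ, 0 < c' ∧ ∀ x, |g x| ≤ C * Real.exp (-(c' * ‖x‖ ^ 2))) →
      (∀ v : E, ‖v‖ = 1 → 0 ≤ ∫ x : (ℝ ∙ v)ᗮ, g x) → 0 ≤ ∫ x, g x / sF S x)
    (T : (F × ℝ × ℝ) ≃L[ℝ] E) : ∀ᵐ x : F × ℝ × ℝ, qJ S T x = 0 := by
  refine partB6 (qJ_integrable hF hS hc hlow T) (qJ_odd hsym T) (qJ_even hsym T) fun k => ?_
  refine partB5 hF hS hc hlow T (continuous_Mg k) (r := 1 / 2) (by norm_num) (Mg_bound k)
    fun δ hδ => ?_
  have h4 := partB4 hF hS hc hlow ((scaleX F δ 1 hδ.ne' one_ne_zero).trans T)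
    (N := D2 (0, 1, 0) (Mg k)) (continuous_D2 (continuous_Mg k) _) (r := 1 / 2 / 2) (by norm_num)
    (D2_bound (by norm_num) (Mg_bound k) _) (fun ε hε => ?_)
  · refine h4.trans (le_of_eq (integral_congr_ae (Eventually.of_forall fun x => ?_)))
    simp only [ContinuousLinearEquiv.trans_apply, scaleX_apply, mul_zero, one_mul]
  · have h3 := partB3 P ((scaleX F δ ε hδ.ne' hε.ne').trans T) k (0, 1, 0) (0, 0, 1)
    refine h3.trans (le_of_eq (integral_congr_ae (Eventually.of_forall fun x => ?_)))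
    simp only [ContinuousLinearEquiv.trans_apply, scaleX_apply, one_mul]

theorem partB {S : Finset E} (hn : 5 ≤ Module.finrank ℝ E) (hS : S.Nonempty)
    (hsym : ∀ p ∈ S, -p ∈ S) {c : ℝ} (hc : 0 < c) (hlow : ∀ x, c * ‖x‖ ≤ sF S x)
    (P : ∀ g : E → ℝ, Continuous g → (∀ x, g (-x) = g x) →
      (∃ C c' : ℝ, 0 < c' ∧ ∀ x, |g x| ≤ C * Real.exp (-(c' * ‖x‖ ^ 2))) →
      (∀ v : E, ‖v‖ = 1 → 0 ≤ ∫ x : (ℝ ∙ v)ᗮ, g x) → 0 ≤ ∫ x, g x / sF S x)
    (v w : E) (U : Submodule ℝ E) (hvw : LinearIndependent ℝ ![v, w])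
    (hU : IsCompl U (Submodule.span ℝ {v, w})) (y₀ : E) (hy₀ : y₀ ∈ U) (ε : ℝ) (hε : 0 < ε) :
    ∃ y ∈ U, dist y y₀ < ε ∧ wd (face (face S y) w) v = wd (face (face S y) (-w)) v := by
  have hdim : 3 ≤ Module.finrank ℝ U := by
    have h1 := Submodule.finrank_add_eq_of_isCompl hU
    have h2 : Module.finrank ℝ (Submodule.span ℝ {v, w}) ≤ 2 := by
      classical
      have := finrank_span_le_card (R := ℝ) ({v, w} : Set E)
      refine this.trans ?_
      rw [Set.toFinset_insert, Set.toFinset_singleton]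
      exact Finset.card_le_two
    omega
  -- the linear equivalence
  let L : (U × ℝ × ℝ) →ₗ[ℝ] E :=
    U.subtype.comp (LinearMap.fst ℝ U (ℝ × ℝ)) +
      ((LinearMap.toSpanSingleton ℝ E w).comp
        ((LinearMap.fst ℝ ℝ ℝ).comp (LinearMap.snd ℝ U (ℝ × ℝ)))) +
      ((LinearMap.toSpanSingleton ℝ E v).comp
        ((LinearMap.snd ℝ ℝ ℝ).comp (LinearMap.snd ℝ U (ℝ × ℝ))))
  have hL : ∀ x : U × ℝ × ℝ, L x = (x.1 : E) + x.2.1 • w + x.2.2 • v := fun x => rfl
  have hinj : Function.Injective L := by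
    rw [← LinearMap.ker_eq_bot, LinearMap.ker_eq_bot']
    intro x hx
    rw [hL] at hx
    have hmem : (x.1 : E) ∈ Submodule.span ℝ {v, w} := by
      have : (x.1 : E) = (-x.2.2) • v + (-x.2.1) • w := by
        have h := eq_neg_of_add_eq_zero_left (a := (x.1 : E)) (b := x.2.1 • w + x.2.2 • v)
          (by rw [← add_assoc]; exact hx)
        rw [h, neg_smul, neg_smul]
        abel
      rw [this]
      exact Submodule.mem_span_pair.mpr ⟨_, _, rfl⟩
    have h0 : (x.1 : E) = 0 := by
      have := Submodule.disjoint_def.mp hU.disjoint _ x.1.2 hmem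
      exact this
    rw [h0, zero_add] at hx
    have h1 := LinearIndependent.pair_iff.mp hvw x.2.2 x.2.1 (by rw [add_comm]; exact hx)
    ext
    · exact h0
    · exact h1.2
    · exact h1.1
  have hsurj : Function.Surjective L := by
    intro z
    have hz : z ∈ U ⊔ Submodule.span ℝ {v, w} := by rw [hU.sup_eq_top]; trivial
    obtain ⟨u, hu, s, hs, rfl⟩ := Submodule.mem_sup.mp hz
    obtain ⟨a, b, rfl⟩ := Submodule.mem_span_pair.mp hs
    exact ⟨(⟨u, hu⟩, b, a), by rw [hL]; simp only; abel⟩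
  let T : (U × ℝ × ℝ) ≃L[ℝ] E := (LinearEquiv.ofBijective L ⟨hinj, hsurj⟩).toContinuousLinearEquiv
  have hT : ∀ x : U × ℝ × ℝ, T x = (x.1 : E) + x.2.1 • w + x.2.2 • v := fun x => rfl
  have hae := partB_ae hdim hS hsym hc hlow P T
  -- a nonempty open set of points
  have hopen : IsOpen {x : U × ℝ × ℝ | dist (x.1 : E) y₀ < ε ∧ x.1 ≠ 0 ∧ 0 < x.2.1 ∧ x.2.1 < 1 ∧
      |x.2.2| < 1} := by
    have c1 : Continuous fun x : U × ℝ × ℝ => dist (x.1 : E) y₀ := by fun_prop
    have c2 : Continuous fun x : U × ℝ × ℝ => x.1 := by fun_prop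
    have c3 : Continuous fun x : U × ℝ × ℝ => x.2.1 := by fun_prop
    have c4 : Continuous fun x : U × ℝ × ℝ => |x.2.2| := by fun_prop
    refine IsOpen.inter ?_ (IsOpen.inter ?_ (IsOpen.inter ?_ (IsOpen.inter ?_ ?_)))
    · exact isOpen_lt c1 continuous_const
    · exact isOpen_ne_fun c2 continuous_const
    · exact isOpen_lt continuous_const c3
    · exact isOpen_lt c3 continuous_const
    · exact isOpen_lt c4 continuous_const
  have hne : {x : U × ℝ × ℝ | dist (x.1 : E) y₀ < ε ∧ x.1 ≠ 0 ∧ 0 < x.2.1 ∧ x.2.1 < 1 ∧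
      |x.2.2| < 1}.Nonempty := by
    have hnt : Nontrivial U := Module.nontrivial_of_finrank_pos (R := ℝ) (by omega)
    obtain ⟨u, hu⟩ := exists_ne (0 : U)
    have hu0 : 0 < ‖u‖ := norm_pos_iff.mpr hu
    by_cases hy : y₀ = 0
    · refine ⟨((ε / (2 * ‖u‖)) • u, 1 / 2, 0), ?_, ?_, ?_, ?_, ?_⟩
      · simp only [hy]
        rw [dist_zero_right, Submodule.coe_smul, norm_smul, Real.norm_of_nonneg (by positivity)]
        have : ‖(u : E)‖ = ‖u‖ := rfl
        rw [this]
        have : ε / (2 * ‖u‖) * ‖u‖ = ε / 2 := by field_simp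
        rw [this]; linarith
      · exact smul_ne_zero (by positivity) hu
      · norm_num
      · norm_num
      · norm_num
    · refine ⟨(⟨y₀, hy₀⟩, 1 / 2, 0), ?_, ?_, ?_, ?_, ?_⟩
      · simpa using hε
      · intro h
        exact hy (congrArg Subtype.val h)
      · norm_num
      · norm_num
      · norm_num
  have hvol : (volume : Measure (U × ℝ × ℝ)).IsAddHaarMeasure :=
    Measure.prod.instIsAddHaarMeasure _ _
  have hpos := hopen.measure_pos (volume : Measure (U × ℝ × ℝ)) hne
  obtain ⟨x, hx, hqx⟩ : ∃ x ∈ {x : U × ℝ × ℝ | dist (x.1 : E) y₀ < ε ∧ x.1 ≠ 0 ∧ 0 < x.2.1 ∧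
      x.2.1 < 1 ∧ |x.2.2| < 1}, qJ S T x = 0 := by
    by_contra hcon
    push Not at hcon
    have : {x : U × ℝ × ℝ | dist (x.1 : E) y₀ < ε ∧ x.1 ≠ 0 ∧ 0 < x.2.1 ∧
      x.2.1 < 1 ∧ |x.2.2| < 1} ⊆ {x | ¬ qJ S T x = 0} := fun x hx => hcon x hx
    have h0 := measure_mono_null this (ae_iff.mp hae)
    exact hpos.ne' h0
  obtain ⟨hx1, hx2, hx3, hx4, hx5⟩ := hx
  refine ⟨x.1, x.1.2, hx1, ?_⟩
  unfold qJ at hqx
  rw [if_pos ⟨hx3, hx4⟩] at hqx
  have e1 : T (x.1, 0, 0) = (x.1 : E) := by rw [hT]; simp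
  have e2 : T (0, 1, 0) = w := by rw [hT]; simp
  have e3 : T (0, 0, 1) = v := by rw [hT]; simp
  rw [e1, e2, e3] at hqx
  have hpos1 : 0 < max 0 (1 - |x.2.2|) := lt_max_of_lt_right (by linarith)
  have hpos2 : 0 < sF S (x.1 : E) := by
    have h := hlow (x.1 : E)
    have : 0 < ‖(x.1 : E)‖ := norm_pos_iff.mpr (by
      intro h'
      exact hx2 (Subtype.ext h'))
    have : 0 < c * ‖(x.1 : E)‖ := by positivity
    linarith
  rw [mul_one, div_eq_zero_iff] at hqx
  rcases hqx with h | h
  · rcases mul_eq_zero.mp h with h' | h'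
    · linarith
    · linarith
  · exact absurd h (by positivity)

end B8


section PartA

variable {E : Type*} [NormedAddCommGroup E] [InnerProductSpace ℝ E] [FiniteDimensional ℝ E]
  [MeasurableSpace E] [BorelSpace E]

open Set in
theorem polar_aux {V : Type*} [NormedAddCommGroup V] [InnerProductSpace ℝ V] [FiniteDimensional ℝ V]
    [MeasurableSpace V] [BorelSpace V] [Nontrivial V] (F : V → ℝ) (hF : Integrable F) :
    ∫ x, F x = ∫ u : Metric.sphere (0:V) 1,
      (∫ r in Ioi (0:ℝ), r ^ (Module.finrank ℝ V - 1) * F (r • (u:V)))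
        ∂(volume : Measure V).toSphere := by
  have hmp := (volume : Measure V).measurePreserving_homeomorphUnitSphereProd
  have hemb : MeasurableEmbedding (homeomorphUnitSphereProd V) := Homeomorph.measurableEmbedding _
  have hcomp : ∀ x : ({(0:V)}ᶜ : Set V),
      (fun p : Metric.sphere (0:V) 1 × Ioi (0:ℝ) => F ((p.2 : ℝ) • (p.1 : V)))
        (homeomorphUnitSphereProd V x) = F x := by
    intro x
    have hx : ‖(x : V)‖ ≠ 0 := norm_ne_zero_iff.mpr x.2
    simp only [homeomorphUnitSphereProd_apply_fst_coe, homeomorphUnitSphereProd_apply_snd_coe]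
    rw [smul_smul, mul_inv_cancel₀ hx, one_smul]
  have h1 : ∫ x, F x = ∫ x : ({(0)}ᶜ : Set V), F x ∂((volume : Measure V).comap (↑)) := by
    rw [integral_subtype_comap (measurableSet_singleton _).compl fun x ↦ F x, restrict_compl_singleton]
  have h2 := hmp.integral_comp hemb
    (fun p : Metric.sphere (0:V) 1 × Ioi (0:ℝ) => F ((p.2 : ℝ) • (p.1 : V)))
  simp only [hcomp] at h2
  have hint : Integrable (fun p : Metric.sphere (0:V) 1 × Ioi (0:ℝ) => F ((p.2 : ℝ) • (p.1 : V)))
      ((volume : Measure V).toSphere.prod (Measure.volumeIoiPow (Module.finrank ℝ V - 1))) := by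
    rw [← hmp.integrable_comp_emb hemb]
    have : ((fun p : Metric.sphere (0:V) 1 × Ioi (0:ℝ) => F ((p.2 : ℝ) • (p.1 : V))) ∘
        (homeomorphUnitSphereProd V)) = fun x : ({(0:V)}ᶜ : Set V) => F x := funext hcomp
    rw [this]
    have h3 : IntegrableOn F ({(0:V)}ᶜ) := hF.integrableOn
    rw [integrableOn_iff_comap_subtypeVal (by measurability)] at h3
    exact h3
  rw [h1, h2, integral_prod _ hint]
  refine integral_congr_ae (Filter.Eventually.of_forall fun u => ?_)
  simp only [Measure.volumeIoiPow, ENNReal.ofReal]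
  rw [integral_withDensity_eq_integral_smul,
    integral_subtype_comap measurableSet_Ioi fun a : ℝ ↦
      Real.toNNReal (a ^ (Module.finrank ℝ V - 1)) • F (a • (u : V)),
    setIntegral_congr_fun measurableSet_Ioi fun x hx ↦ ?_]
  · rw [NNReal.smul_def, Real.coe_toNNReal _ (pow_nonneg hx.out.le _)]; rfl
  · exact (measurable_subtype_coe.pow_const _).real_toNNReal


open Set in
/-- TARGET A. -/
theorem partA {K : Set E} (hn : 2 ≤ Module.finrank ℝ E) (hK : RadialIsRadon K)
    {h : E → ℝ} (hc : Continuous h) (hh : ∀ t : ℝ, 0 ≤ t → ∀ x, h (t • x) = t * h x)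
    {c : ℝ} (hc0 : 0 < c) (hlow : ∀ x, c * ‖x‖ ≤ h x) (hKh : K = {x | h x ≤ 1})
    {g : E → ℝ} (hg : Continuous g) (hge : ∀ x, g (-x) = g x)
    {C c' : ℝ} (hc' : 0 < c') (hb : ∀ x, |g x| ≤ C * Real.exp (-(c' * ‖x‖ ^ 2)))
    (hpos : ∀ v : E, ‖v‖ = 1 → 0 ≤ ∫ x : (ℝ ∙ v)ᗮ, g x) :
    0 ≤ ∫ x, g x / h x := by
  classical
  set n := Module.finrank ℝ E with hndef
  have hnt : Nontrivial E := Module.nontrivial_of_finrank_pos (R := ℝ) (by omega)
  have hC : 0 ≤ C := by
    have := (abs_nonneg _).trans (hb 0)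
    simpa using this
  -- Gaussian integrability on rays
  have hgauss : ∀ k : ℕ, IntegrableOn (fun r : ℝ => r ^ k * Real.exp (-(c' * r ^ 2))) (Ioi 0) := by
    intro k
    have := integrableOn_rpow_mul_exp_neg_mul_sq hc' (s := (k : ℝ)) (by
      have : (0:ℝ) ≤ k := Nat.cast_nonneg k
      linarith)
    refine this.congr_fun (fun r _ => ?_) measurableSet_Ioi
    simp only [Real.rpow_natCast]
    ring_nf
  have hgint : ∀ (V : Submodule ℝ E), Nontrivial V → Integrable (fun x : V => g x) := by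
    intro V hV
    have hbd : Integrable (fun x : V => (fun r : ℝ => C * Real.exp (-(c' * r ^ 2))) ‖x‖) := by
      rw [integrable_fun_norm_addHaar (μ := (volume : Measure V))
        (f := fun r : ℝ => C * Real.exp (-(c' * r ^ 2)))]
      have h1 : IntegrableOn (fun r : ℝ => C * (r ^ (Module.finrank ℝ V - 1) *
          Real.exp (-(c' * r ^ 2)))) (Ioi 0) := (hgauss (Module.finrank ℝ V - 1)).const_mul C
      refine h1.congr_fun (fun r _ => ?_) measurableSet_Ioi
      simp only [smul_eq_mul]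
      ring
    refine hbd.mono' ?_ ?_
    · exact (hg.comp continuous_subtype_val).aestronglyMeasurable
    · exact Eventually.of_forall fun x => by
        rw [Real.norm_eq_abs]
        exact hb x
  have hpos' : ∀ x : E, x ≠ 0 → 0 < h x := fun x hx =>
    lt_of_lt_of_le (mul_pos hc0 (norm_pos_iff.mpr hx)) (hlow x)
  have hghint : Integrable (fun x : E => g x / h x) := by
    have hbd : Integrable (fun x : E =>
        (fun r : ℝ => (C / c) * (Real.exp (-(c' * r ^ 2)) / r)) ‖x‖) := by
      rw [integrable_fun_norm_addHaar (μ := (volume : Measure E))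
        (f := fun r : ℝ => (C / c) * (Real.exp (-(c' * r ^ 2)) / r))]
      have h1 : IntegrableOn (fun r : ℝ => (C / c) * (r ^ (n - 2) *
          Real.exp (-(c' * r ^ 2)))) (Ioi 0) := (hgauss (n - 2)).const_mul (C / c)
      refine h1.congr_fun (fun r hr => ?_) measurableSet_Ioi
      simp only [smul_eq_mul]
      have hr' : r ≠ 0 := (ne_of_gt hr)
      have : r ^ (Module.finrank ℝ E - 1) = r ^ (n - 2) * r := by
        rw [← pow_succ]; congr 1; omega
      rw [this]
      field_simp
    refine hbd.mono' ?_ ?_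
    · exact (hg.measurable.div hc.measurable).aestronglyMeasurable
    · refine Eventually.of_forall fun x => ?_
      by_cases hx : x = 0
      · have h0 : h 0 = 0 := by simpa using hh 0 le_rfl 0
        simp [hx, h0]
      · have hxn : 0 < ‖x‖ := norm_pos_iff.mpr hx
        rw [Real.norm_eq_abs, abs_div, abs_of_pos (hpos' x hx)]
        have h1 : |g x| / h x ≤ (C * Real.exp (-(c' * ‖x‖ ^ 2))) / (c * ‖x‖) :=
          div_le_div₀ (by positivity) (hb x) (by positivity) (hlow x)
        refine h1.trans (le_of_eq ?_)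
        simp only
        field_simp
  -- the function on the sphere
  set f : E → ℝ := fun u => ∫ r in Ioi (0:ℝ), r ^ (n - 2) * g (r • u) with hf
  have hfcont : ContinuousOn f (Metric.sphere 0 1) := by
    rw [hf]
    refine continuousOn_of_dominated
      (bound := fun r : ℝ => C * (r ^ (n - 2) * Real.exp (-(c' * r ^ 2)))) ?_ ?_ ?_ ?_
    · intro u _
      exact ((by fun_prop : Continuous fun r : ℝ => r ^ (n - 2) * g (r • u))).aestronglyMeasurable
    · intro u hu
      have hu1 : ‖u‖ = 1 := by simpa using hu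
      filter_upwards [ae_restrict_mem measurableSet_Ioi] with r hr
      have hr0 : 0 < r := hr
      rw [Real.norm_eq_abs, abs_mul, abs_of_nonneg (pow_nonneg hr0.le _)]
      have := hb (r • u)
      rw [norm_smul, hu1, mul_one, Real.norm_eq_abs, abs_of_pos hr0] at this
      calc r ^ (n - 2) * |g (r • u)| ≤ r ^ (n - 2) * (C * Real.exp (-(c' * r ^ 2))) :=
            mul_le_mul_of_nonneg_left this (pow_nonneg hr0.le _)
        _ = _ := by ring
    · exact (hgauss (n - 2)).const_mul C
    · refine Eventually.of_forall fun r => ?_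
      exact (by fun_prop : Continuous fun u : E => r ^ (n - 2) * g (r • u)).continuousOn
  have hfeven : ∀ u ∈ Metric.sphere (0 : E) 1, f (-u) = f u := by
    intro u _
    simp only [hf, smul_neg, hge]
  -- radial function
  have hrad : ∀ u : E, ‖u‖ = 1 → radial K u = 1 / h u := by
    intro u hu
    have hu0 : u ≠ 0 := by
      rintro rfl; simp at hu
    have hhu := hpos' u hu0
    have : {t : ℝ | 0 ≤ t ∧ t • u ∈ K} = Icc 0 (1 / h u) := by
      ext t
      simp only [hKh, Set.mem_ofPred_eq, mem_Icc]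
      constructor
      · rintro ⟨h1, h2⟩
        rw [hh t h1] at h2
        exact ⟨h1, by rwa [le_div_iff₀ hhu]⟩
      · rintro ⟨h1, h2⟩
        rw [le_div_iff₀ hhu] at h2
        exact ⟨h1, by rwa [hh t h1]⟩
    unfold radial
    rw [this, csSup_Icc (by positivity)]
  obtain ⟨μ, _, _, hμ⟩ := hK
  have hkey := hμ f hfcont hfeven
  have hleft : ∫ x, g x / h x =
      ∫ u : Metric.sphere (0 : E) 1, radial K u * f u ∂(volume : Measure E).toSphere := by
    rw [polar_aux _ hghint]
    refine integral_congr_ae (Eventually.of_forall fun u => ?_)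
    have hu1 : ‖(u : E)‖ = 1 := by simpa using u.2
    have hu0 : (u : E) ≠ 0 := by
      intro h0; rw [h0] at hu1; simp at hu1
    have hhu := hpos' u hu0
    beta_reduce
    rw [hrad u hu1, hf]
    beta_reduce
    rw [← integral_const_mul]
    refine setIntegral_congr_fun measurableSet_Ioi fun r hr => ?_
    have hr0 : 0 < r := hr
    beta_reduce
    rw [hh r hr0.le]
    have : r ^ (Module.finrank ℝ E - 1) = r ^ (n - 2) * r := by
      rw [← pow_succ]; congr 1; omega
    rw [this]
    field_simp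
  have hright : ∀ v : Metric.sphere (0 : E) 1, radon f v = ∫ x : (ℝ ∙ (v : E))ᗮ, g x := by
    intro v
    have hv1 : ‖(v : E)‖ = 1 := by simpa using v.2
    have hv0 : (v : E) ≠ 0 := by
      intro h0; rw [h0] at hv1; simp at hv1
    have hfr : Module.finrank ℝ (ℝ ∙ (v : E))ᗮ = n - 1 := by
      have := Submodule.finrank_add_finrank_orthogonal (𝕜 := ℝ) (ℝ ∙ (v : E))
      rw [finrank_span_singleton hv0] at this
      omega
    have hntv : Nontrivial (ℝ ∙ (v : E))ᗮ :=
      Module.nontrivial_of_finrank_pos (R := ℝ) (by rw [hfr]; omega)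
    rw [polar_aux _ (hgint _ hntv)]
    unfold radon
    refine integral_congr_ae (Eventually.of_forall fun w => ?_)
    simp only [hf, hfr]
    rfl
  rw [hleft, hkey]
  refine integral_nonneg fun v => ?_
  simp only [Pi.zero_apply]
  rw [hright v]
  exact hpos v (by simpa using v.2)


end PartA

section PartC

variable {E : Type*} [NormedAddCommGroup E] [InnerProductSpace ℝ E]



theorem sF_of_const {A : Finset E} (hA : A.Nonempty) {x : E} {c : ℝ}
    (h : ∀ p ∈ A, inner ℝ p x = c) : sF A x = c := by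
  obtain ⟨p, hp, hpx⟩ := exists_sF hA x
  rw [← hpx, h p hp]

theorem face_of_const {A : Finset E} {x : E}
    (h : ∀ p ∈ A, ∀ q ∈ A, inner ℝ (p - q) x = 0) : face A x = A := by
  ext p
  rw [mem_face]
  constructor
  · exact fun h => h.1
  · intro hp
    refine ⟨hp, ?_⟩
    obtain ⟨q, hq, hqx⟩ := exists_sF ⟨p, hp⟩ x
    have := h p hp q hq
    rw [inner_sub_left] at this
    linarith

theorem face_inner_eq {A : Finset E} {x p q : E} (hp : p ∈ face A x) (hq : q ∈ face A x) :
    inner ℝ (p - q) x = 0 := by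
  rw [inner_sub_left, (mem_face.mp hp).2, (mem_face.mp hq).2, sub_self]

theorem face_face_self (A : Finset E) (x : E) : face (face A x) x = face A x :=
  face_of_const fun _ hp _ hq => face_inner_eq hp hq

theorem face_face_neg (A : Finset E) (x : E) : face (face A (-x)) x = face A (-x) := by
  apply face_of_const
  intro p hp q hq
  have := face_inner_eq hp hq
  rw [inner_neg_right] at this
  linarith

/-- the vectors `p - q`, `p ≠ q` in `S` -/
def IsDiff (S : Finset E) (u : E) : Prop := u ≠ 0 ∧ ∃ p ∈ S, ∃ q ∈ S, u = p - q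

/-- Locally, if all points of the face have the same inner product with `z`, then the face
does not change. -/
theorem eventually_face_eq {S : Finset E} (hS : S.Nonempty) (y : E) :
    ∀ᶠ z in 𝓝 y, (∀ u, IsDiff S u → inner ℝ u y = 0 → inner ℝ u z = 0) → face S z = face S y := by
  filter_upwards [eventually_sF_eq hS y] with z hz h
  rw [hz.2]
  apply face_of_const
  intro p hp q hq
  by_cases hpq : p = q
  · rw [hpq, sub_self, inner_zero_left]
  · exact h (p - q) ⟨sub_ne_zero.mpr hpq, p, face_subset _ _ hp, q, face_subset _ _ hq, rfl⟩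
      (face_inner_eq hp hq)

/-- STEP 1 -/
theorem no_jump (S : Finset E) (hS : S.Nonempty)
    (H : ∀ (v w : E) (U : Submodule ℝ E), LinearIndependent ℝ ![v, w] →
      IsCompl U (Submodule.span ℝ {v, w}) → ∀ y₀ ∈ U, ∀ ε > 0, ∃ y ∈ U, dist y y₀ < ε ∧
        wd (face (face S y) w) v = wd (face (face S y) (-w)) v)
    {r w y : E} (hr : r ≠ 0) (hrw : inner ℝ r w = 0) (hry : inner ℝ r y = 0)
    (hT : ∀ u₁ u₂, IsDiff S u₁ → IsDiff S u₂ → inner ℝ u₁ y = 0 → inner ℝ u₂ y = 0 →
      inner ℝ u₁ w ≠ 0 → ∃ a b : ℝ, u₂ = a • r + b • u₁) :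
    wd (face (face S y) w) r = wd (face (face S y) (-w)) r := by
  by_cases hc : ∃ u, IsDiff S u ∧ inner ℝ u y = 0 ∧ inner ℝ u w ≠ 0
  · obtain ⟨u, hu, huy, huw⟩ := hc
    have hrr : inner ℝ r r ≠ 0 := by
      rw [real_inner_self_eq_norm_sq]; positivity
    let U : Submodule ℝ E := (Submodule.span ℝ {r, u})ᗮ
    have hU : ∀ z, z ∈ U ↔ inner ℝ r z = 0 ∧ inner ℝ u z = 0 := by
      intro z
      constructor
      · intro hz
        rw [Submodule.mem_orthogonal] at hz
        exact ⟨hz r (Submodule.subset_span (by simp)), hz u (Submodule.subset_span (by simp))⟩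
      · rintro ⟨h1, h2⟩
        rw [Submodule.mem_orthogonal]
        intro v hv
        rw [Submodule.mem_span_pair] at hv
        obtain ⟨a, b, rfl⟩ := hv
        rw [inner_add_left, inner_smul_left, inner_smul_left, h1, h2]
        simp
    have hw : w ≠ 0 := by
      rintro rfl
      exact huw (inner_zero_right _)
    have hli : LinearIndependent ℝ ![r, w] := by
      rw [LinearIndependent.pair_iff]
      intro a b hab
      have h1 : inner ℝ r (a • r + b • w) = 0 := by rw [hab, inner_zero_right]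
      rw [inner_add_right, inner_smul_right, inner_smul_right, hrw, mul_zero, add_zero] at h1
      have ha : a = 0 := (mul_eq_zero.mp h1).resolve_right hrr
      subst ha
      rw [zero_smul, zero_add] at hab
      exact ⟨rfl, (smul_eq_zero.mp hab).resolve_right hw⟩
    have hcompl : IsCompl U (Submodule.span ℝ {r, w}) := by
      constructor
      · rw [Submodule.disjoint_def]
        intro x hxU hx
        rw [Submodule.mem_span_pair] at hx
        obtain ⟨a, b, rfl⟩ := hx
        obtain ⟨h1, h2⟩ := (hU _).mp hxU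
        rw [inner_add_right, inner_smul_right, inner_smul_right, hrw, mul_zero, add_zero] at h1
        have ha : a = 0 := (mul_eq_zero.mp h1).resolve_right hrr
        subst ha
        rw [zero_smul, zero_add] at h2 ⊢
        rw [inner_smul_right] at h2
        rw [(mul_eq_zero.mp h2).resolve_right huw, zero_smul]
      · rw [codisjoint_iff, eq_top_iff]
        intro x _
        rw [Submodule.mem_sup]
        let a := inner ℝ r x / inner ℝ r r
        let b := (inner ℝ u x - a * inner ℝ u r) / inner ℝ u w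
        refine ⟨x - (a • r + b • w), ?_, a • r + b • w, ?_, by abel⟩
        · rw [hU]
          constructor
          · rw [inner_sub_right, inner_add_right, inner_smul_right, inner_smul_right, hrw]
            simp only [a]
            field_simp
            ring
          · rw [inner_sub_right, inner_add_right, inner_smul_right, inner_smul_right]
            have : b * inner ℝ u w = inner ℝ u x - a * inner ℝ u r := by
              simp only [b]
              field_simp
            linarith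
        · rw [Submodule.mem_span_pair]
          exact ⟨a, b, rfl⟩
    have hev := eventually_face_eq hS y
    rw [Metric.eventually_nhds_iff] at hev
    obtain ⟨ε, hε, hev⟩ := hev
    obtain ⟨z, hzU, hzd, hz⟩ := H r w U hli hcompl y ((hU y).mpr ⟨hry, huy⟩) ε hε
    have hf : face S z = face S y := by
      apply hev hzd
      intro u' hu' hu'y
      obtain ⟨a, b, rfl⟩ := hT u u' hu hu' huy hu'y huw
      obtain ⟨h1, h2⟩ := (hU z).mp hzU
      rw [inner_add_left, inner_smul_left, inner_smul_left, h1, h2]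
      simp
    rw [hf] at hz
    exact hz
  · have h0 : ∀ p ∈ face S y, ∀ q ∈ face S y, inner ℝ (p - q) w = 0 := by
      intro p hp q hq
      by_contra hne
      apply hc
      refine ⟨p - q, ⟨?_, p, face_subset _ _ hp, q, face_subset _ _ hq, rfl⟩,
        face_inner_eq hp hq, hne⟩
      intro h
      rw [h, inner_zero_left] at hne
      exact hne rfl
    rw [face_of_const h0, face_of_const (x := -w)]
    intro p hp q hq
    rw [inner_neg_right, h0 p hp q hq, neg_zero]

omit [InnerProductSpace ℝ E] in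
theorem finite_isDiff (S : Finset E) : {u | IsDiff S u}.Finite := by
  have : {u | IsDiff S u} ⊆ (fun pq : E × E => pq.1 - pq.2) '' ((S ×ˢ S : Finset (E × E)) : Set (E × E)) := by
    rintro u ⟨_, p, hp, q, hq, rfl⟩
    exact ⟨(p, q), by simp [hp, hq], rfl⟩
  exact ((Finset.finite_toSet _).image _).subset this

theorem quad_ne {A B C α β : ℝ} (hα : α ≠ 0) (hβ : β ≠ 0) :
    ∀ᶠ t in 𝓝[≠] (0 : ℝ), (A + t * α) * (B + t * β) - C ≠ 0 := by
  have hfin : {t : ℝ | (A + t * α) * (B + t * β) - C = 0}.Finite := by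
    let P : Polynomial ℝ := (Polynomial.C A + Polynomial.X * Polynomial.C α) *
      (Polynomial.C B + Polynomial.X * Polynomial.C β) - Polynomial.C C
    have hP : P ≠ 0 := by
      intro h
      have h2 : P.coeff 2 = α * β := by
        have : P = Polynomial.C (A * B - C) + Polynomial.C (A * β + α * B) * Polynomial.X +
            Polynomial.C (α * β) * Polynomial.X ^ 2 := by
          simp only [P, Polynomial.C_mul, Polynomial.C_add, Polynomial.C_sub]
          ring
        rw [this]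
        simp only [Polynomial.coeff_add, Polynomial.coeff_C_mul, Polynomial.coeff_X_pow,
          Polynomial.coeff_X, Polynomial.coeff_C]
        norm_num
      rw [h, Polynomial.coeff_zero] at h2
      exact mul_ne_zero hα hβ h2.symm
    refine (Polynomial.finite_setOfPred_isRoot hP).subset ?_
    intro t ht
    simp only [Set.mem_ofPred_eq, Polynomial.IsRoot, P] at ht ⊢
    simp only [Polynomial.eval_sub, Polynomial.eval_mul, Polynomial.eval_add, Polynomial.eval_C,
      Polynomial.eval_X]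
    exact ht
  have : ({t : ℝ | (A + t * α) * (B + t * β) - C = 0} \ {0})ᶜ ∈ 𝓝 (0 : ℝ) := by
    apply IsOpen.mem_nhds
    · exact (hfin.subset Set.sdiff_subset).isClosed.isOpen_compl
    · simp
  rw [eventually_nhdsWithin_iff]
  filter_upwards [this] with t ht ht0
  intro h
  exact ht ⟨h, ht0⟩

/-- the antisymmetric form attached to two vectors -/
noncomputable def bil (u₁ u₂ z₁ z₂ : E) : ℝ :=
  inner ℝ u₁ z₁ * inner ℝ u₂ z₂ - inner ℝ u₂ z₁ * inner ℝ u₁ z₂

theorem exists_dir [FiniteDimensional ℝ E] {r u v : E} (h : u ∉ Submodule.span ℝ {r, v}) :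
    ∃ a : E, inner ℝ r a = 0 ∧ inner ℝ v a = 0 ∧ inner ℝ u a ≠ 0 := by
  by_contra hcon
  push Not at hcon
  apply h
  have h1 : u ∈ (Submodule.span ℝ {r, v})ᗮᗮ := by
    rw [Submodule.mem_orthogonal]
    intro a ha
    rw [Submodule.mem_orthogonal] at ha
    rw [real_inner_comm]
    exact hcon a (ha r (Submodule.subset_span (by simp))) (ha v (Submodule.subset_span (by simp)))
  rwa [Submodule.orthogonal_orthogonal] at h1

theorem generic_pair [FiniteDimensional ℝ E] (r : E) (P : Set (E × E)) (hP : P.Finite)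
    (hP1 : ∀ q ∈ P, q.1 ∉ Submodule.span ℝ {r, q.2}) (hP2 : ∀ q ∈ P, q.2 ∉ Submodule.span ℝ {r, q.1})
    (z₁ z₂ : E) (h₁ : inner ℝ r z₁ = 0) (h₂ : inner ℝ r z₂ = 0) :
    ∀ ε > 0, ∃ y₁ y₂ : E, inner ℝ r y₁ = 0 ∧ inner ℝ r y₂ = 0 ∧ dist y₁ z₁ < ε ∧ dist y₂ z₂ < ε ∧
      ∀ q ∈ P, bil q.1 q.2 y₁ y₂ ≠ 0 := by
  induction P, hP using Set.Finite.induction_on with
  | empty =>
    intro ε hε
    exact ⟨z₁, z₂, h₁, h₂, by simpa using hε, by simpa using hε, by simp⟩
  | @insert q P hq hPf ih =>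
    intro ε hε
    obtain ⟨y₁, y₂, hy₁, hy₂, hd₁, hd₂, hy⟩ := ih (fun q' hq' => hP1 q' (Set.mem_insert_of_mem _ hq'))
      (fun q' hq' => hP2 q' (Set.mem_insert_of_mem _ hq')) ε hε
    obtain ⟨a₁, ha₁r, ha₁2, ha₁1⟩ := exists_dir (hP1 q (Set.mem_insert _ _))
    obtain ⟨a₂, ha₂r, ha₂1, ha₂2⟩ := exists_dir (hP2 q (Set.mem_insert _ _))
    have e1 : ∀ᶠ t in 𝓝[≠] (0 : ℝ), bil q.1 q.2 (y₁ + t • a₁) (y₂ + t • a₂) ≠ 0 := by
      have := quad_ne (A := inner ℝ q.1 y₁) (B := inner ℝ q.2 y₂)
        (C := inner ℝ q.2 y₁ * inner ℝ q.1 y₂) ha₁1 ha₂2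
      filter_upwards [this] with t ht
      unfold bil
      rw [inner_add_right, inner_add_right, inner_add_right, inner_add_right,
        inner_smul_right, inner_smul_right, inner_smul_right, inner_smul_right, ha₁2, ha₂1,
        mul_zero, add_zero, add_zero]
      exact ht
    have e2 : ∀ᶠ t in 𝓝[≠] (0 : ℝ), ∀ q' ∈ P, bil q'.1 q'.2 (y₁ + t • a₁) (y₂ + t • a₂) ≠ 0 := by
      apply Filter.Eventually.filter_mono nhdsWithin_le_nhds
      rw [Set.Finite.eventually_all hPf]
      intro q' hq'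
      have hc : Continuous fun t : ℝ => bil q'.1 q'.2 (y₁ + t • a₁) (y₂ + t • a₂) := by
        unfold bil
        fun_prop
      have := hc.tendsto 0
      simp only [zero_smul, add_zero] at this
      exact this.eventually_ne (hy q' hq')
    have e3 : ∀ᶠ t in 𝓝[≠] (0 : ℝ), dist (y₁ + t • a₁) z₁ < ε := by
      apply Filter.Eventually.filter_mono nhdsWithin_le_nhds
      have hc : Continuous fun t : ℝ => dist (y₁ + t • a₁) z₁ := by fun_prop
      have := hc.tendsto 0
      simp only [zero_smul, add_zero] at this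
      exact this.eventually_lt_const hd₁
    have e4 : ∀ᶠ t in 𝓝[≠] (0 : ℝ), dist (y₂ + t • a₂) z₂ < ε := by
      apply Filter.Eventually.filter_mono nhdsWithin_le_nhds
      have hc : Continuous fun t : ℝ => dist (y₂ + t • a₂) z₂ := by fun_prop
      have := hc.tendsto 0
      simp only [zero_smul, add_zero] at this
      exact this.eventually_lt_const hd₂
    obtain ⟨t, ht1, ht2, ht3, ht4⟩ := (e1.and (e2.and (e3.and e4))).exists
    refine ⟨y₁ + t • a₁, y₂ + t • a₂, ?_, ?_, ht3, ht4, ?_⟩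
    · rw [inner_add_right, inner_smul_right, hy₁, ha₁r]; simp
    · rw [inner_add_right, inner_smul_right, hy₂, ha₂r]; simp
    · intro q' hq'
      rcases Set.mem_insert_iff.mp hq' with rfl | hq'
      · exact ht1
      · exact ht2 q' hq'

/-- `z` is simple for `r` -/
def Simple (S : Finset E) (r z : E) : Prop :=
  inner ℝ r z = 0 ∧ ∀ u, IsDiff S u → inner ℝ u z = 0 → ∃ c : ℝ, u = c • r

theorem eventually_face_simple {S : Finset E} (hS : S.Nonempty) {r z : E} (hz : Simple S r z) :
    ∃ ε > 0, ∀ z', dist z' z < ε → inner ℝ r z' = 0 → face S z' = face S z := by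
  have := eventually_face_eq hS z
  rw [Metric.eventually_nhds_iff] at this
  obtain ⟨ε, hε, h⟩ := this
  refine ⟨ε, hε, fun z' hd hr => h hd ?_⟩
  intro u hu huz
  obtain ⟨c, rfl⟩ := hz.2 u hu huz
  rw [inner_smul_left, hr]
  simp

theorem face_simple {S : Finset E} {r z w : E} (hz : Simple S r z)
    (hw : inner ℝ r w = 0) : face (face S z) w = face S z := by
  apply face_of_const
  intro p hp q hq
  by_cases hpq : p = q
  · rw [hpq, sub_self, inner_zero_left]
  · obtain ⟨c, hc⟩ := hz.2 (p - q) ⟨sub_ne_zero.mpr hpq, p, face_subset _ _ hp, q,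
      face_subset _ _ hq, rfl⟩ (face_inner_eq hp hq)
    rw [hc, inner_smul_left, hw]
    simp

theorem wd_simple_const [FiniteDimensional ℝ E] (S : Finset E) (hS : S.Nonempty)
    (H : ∀ (v w : E) (U : Submodule ℝ E), LinearIndependent ℝ ![v, w] →
      IsCompl U (Submodule.span ℝ {v, w}) → ∀ y₀ ∈ U, ∀ ε > 0, ∃ y ∈ U, dist y y₀ < ε ∧
        wd (face (face S y) w) v = wd (face (face S y) (-w)) v)
    {r z₁ z₂ : E} (hr : r ≠ 0) (hz₁ : Simple S r z₁) (hz₂ : Simple S r z₂) :
    wd (face S z₁) r = wd (face S z₂) r := by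
  obtain ⟨ε₁, hε₁, h₁⟩ := eventually_face_simple hS hz₁
  obtain ⟨ε₂, hε₂, h₂⟩ := eventually_face_simple hS hz₂
  let P : Set (E × E) := {q | IsDiff S q.1 ∧ IsDiff S q.2 ∧
    q.1 ∉ Submodule.span ℝ {r, q.2} ∧ q.2 ∉ Submodule.span ℝ {r, q.1}}
  have hP : P.Finite := by
    refine ((finite_isDiff S).prod (finite_isDiff S)).subset ?_
    intro q hq
    exact ⟨hq.1, hq.2.1⟩
  obtain ⟨y₁, y₂, hy₁, hy₂, hd₁, hd₂, hgen⟩ := generic_pair r P hP (fun q hq => hq.2.2.1)
    (fun q hq => hq.2.2.2) z₁ z₂ hz₁.1 hz₂.1 (min ε₁ ε₂) (lt_min hε₁ hε₂)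
  have hf₁ := h₁ y₁ (hd₁.trans_le (min_le_left _ _)) hy₁
  have hf₂ := h₂ y₂ (hd₂.trans_le (min_le_right _ _)) hy₂
  let w := y₂ - y₁
  have hw : inner ℝ r w = 0 := by simp only [w]; rw [inner_sub_right, hy₁, hy₂, sub_zero]
  let g : ℝ → ℝ := fun s => wd (face (face S (y₁ + s • w)) w) r
  have hrz : ∀ s : ℝ, inner ℝ r (y₁ + s • w) = 0 := by
    intro s
    rw [inner_add_right, inner_smul_right, hy₁, hw, mul_zero, add_zero]
  have hstep : ∀ s : ℝ, wd (face (face S (y₁ + s • w)) w) r =
      wd (face (face S (y₁ + s • w)) (-w)) r := by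
    intro s
    apply no_jump S hS H hr hw (hrz s)
    intro u₁ u₂ hu₁ hu₂ h1 h2 h3
    -- bil u₁ u₂ y₁ y₂ = 0
    have hb : bil u₁ u₂ y₁ y₂ = 0 := by
      have e2 : y₂ = y₁ + w := by simp only [w]; abel
      unfold bil
      rw [e2, inner_add_right, inner_add_right]
      rw [inner_add_right, inner_smul_right] at h1 h2
      have e3 : inner ℝ u₁ y₁ = - (s * inner ℝ u₁ w) := by linarith
      have e4 : inner ℝ u₂ y₁ = - (s * inner ℝ u₂ w) := by linarith
      rw [e3, e4]
      ring
    have hu1r : u₁ ∉ Submodule.span ℝ {r} := by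
      intro hm
      rw [Submodule.mem_span_singleton] at hm
      obtain ⟨c, rfl⟩ := hm
      apply h3
      rw [inner_smul_left, hw]
      simp
    by_contra hcon
    have hA : u₂ ∉ Submodule.span ℝ {r, u₁} := by
      intro hm
      rw [Submodule.mem_span_pair] at hm
      obtain ⟨a, b, hab⟩ := hm
      exact hcon ⟨a, b, hab.symm⟩
    have hB : u₁ ∉ Submodule.span ℝ {r, u₂} := by
      intro hm
      rw [Submodule.mem_span_pair] at hm
      obtain ⟨a, b, hab⟩ := hm
      by_cases hb0 : b = 0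
      · subst hb0
        apply hu1r
        rw [Submodule.mem_span_singleton]
        exact ⟨a, by rw [← hab]; simp⟩
      · apply hcon
        refine ⟨-(b⁻¹ * a), b⁻¹, ?_⟩
        rw [← hab, smul_add, smul_smul, smul_smul, inv_mul_cancel₀ hb0, one_smul, neg_smul]
        abel
    exact hgen (u₁, u₂) ⟨hu₁, hu₂, hB, hA⟩ hb
  have hloc : IsLocallyConstant g := by
    rw [IsLocallyConstant.iff_eventually_eq]
    intro s
    obtain ⟨δ₁, hδ₁, k₁⟩ := eventually_line hS (y₁ + s • w) w
    obtain ⟨δ₂, hδ₂, k₂⟩ := eventually_line hS (y₁ + s • w) (-w)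
    rw [Metric.eventually_nhds_iff]
    refine ⟨min δ₁ δ₂, lt_min hδ₁ hδ₂, ?_⟩
    intro s' hs'
    rw [Real.dist_eq] at hs'
    rcases lt_trichotomy s' s with hlt | heq | hgt
    · have ht : 0 < s - s' := by linarith
      have ht2 : s - s' < δ₂ := by
        rw [abs_of_neg (by linarith)] at hs'
        have := hs'.trans_le (min_le_right _ _)
        linarith
      have := (k₂ (s - s') ht ht2).2
      have e : y₁ + s • w + (s - s') • (-w) = y₁ + s' • w := by
        rw [smul_neg, sub_smul]; abel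
      rw [e] at this
      simp only [g]
      rw [this, face_face_neg, hstep s]
    · rw [heq]
    · have ht : 0 < s' - s := by linarith
      have ht2 : s' - s < δ₁ := by
        rw [abs_of_pos ht] at hs'
        exact hs'.trans_le (min_le_left _ _)
      have := (k₁ (s' - s) ht ht2).2
      have e : y₁ + s • w + (s' - s) • w = y₁ + s' • w := by
        rw [sub_smul]; abel
      rw [e] at this
      simp only [g]
      rw [this, face_face_self]
  have hconst : g 0 = g 1 := hloc.apply_eq_of_preconnectedSpace 0 1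
  have e0 : y₁ + (0 : ℝ) • w = y₁ := by simp
  have e1 : y₁ + (1 : ℝ) • w = y₂ := by simp only [w]; rw [one_smul]; abel
  simp only [g] at hconst
  rw [e0, e1, hf₁, hf₂, face_simple hz₁ hw, face_simple hz₂ hw] at hconst
  exact hconst

theorem inner_sub_le_wd {A : Finset E} {p q : E} (hp : p ∈ A) (hq : q ∈ A) (v : E) :
    inner ℝ (p - q) v ≤ wd A v := by
  have h1 := le_sF hp v
  have h2 := le_sF hq (-v)
  rw [inner_neg_right] at h2
  rw [inner_sub_left]
  unfold wd
  linarith

theorem abs_inner_sub_le_wd {A : Finset E} {p q : E} (hp : p ∈ A) (hq : q ∈ A) (v : E) :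
    |inner ℝ (p - q) v| ≤ wd A v := by
  rw [abs_le]
  refine ⟨?_, inner_sub_le_wd hp hq v⟩
  have := inner_sub_le_wd hq hp v
  rw [inner_sub_left] at this ⊢
  linarith

theorem exists_wd {A : Finset E} (hA : A.Nonempty) (v : E) :
    ∃ p ∈ A, ∃ q ∈ A, inner ℝ (p - q) v = wd A v := by
  obtain ⟨p, hp, h1⟩ := exists_sF hA v
  obtain ⟨q, hq, h2⟩ := exists_sF hA (-v)
  refine ⟨p, hp, q, hq, ?_⟩
  unfold wd
  rw [← h1, ← h2, inner_neg_right, inner_sub_left]
  ring

theorem wd_line {A : Finset E} (hA : A.Nonempty) {u : E}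
    (h : ∀ p ∈ A, ∀ q ∈ A, ∃ c : ℝ, p - q = c • u) (w : E) :
    wd A w * ‖u‖ ^ 2 = wd A u * |inner ℝ u w| := by
  have huu : inner ℝ u u = ‖u‖ ^ 2 := real_inner_self_eq_norm_sq u
  apply le_antisymm
  · obtain ⟨p, hp, q, hq, hpq⟩ := exists_wd hA w
    obtain ⟨c, hc⟩ := h p hp q hq
    have h1 := abs_inner_sub_le_wd hp hq u
    rw [hc, inner_smul_left, huu, abs_mul] at h1
    rw [← hpq, hc, inner_smul_left]
    simp only [conj_trivial, abs_pow, abs_norm] at h1 ⊢
    have h2 : c * inner ℝ u w ≤ |c| * |inner ℝ u w| := by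
      rw [← abs_mul]; exact le_abs_self _
    calc c * inner ℝ u w * ‖u‖ ^ 2 ≤ |c| * |inner ℝ u w| * ‖u‖ ^ 2 := by gcongr
      _ = |c| * ‖u‖ ^ 2 * |inner ℝ u w| := by ring
      _ ≤ wd A u * |inner ℝ u w| := by gcongr
  · obtain ⟨p, hp, q, hq, hpq⟩ := exists_wd hA u
    obtain ⟨c, hc⟩ := h p hp q hq
    have h1 := abs_inner_sub_le_wd hp hq w
    rw [hc, inner_smul_left, abs_mul] at h1
    rw [← hpq, hc, inner_smul_left, huu]
    simp only [conj_trivial] at h1 ⊢
    calc c * ‖u‖ ^ 2 * |inner ℝ u w| ≤ |c| * ‖u‖ ^ 2 * |inner ℝ u w| := by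
          gcongr; exact le_abs_self c
      _ = |c| * |inner ℝ u w| * ‖u‖ ^ 2 := by ring
      _ ≤ wd A w * ‖u‖ ^ 2 := by gcongr

theorem sF_pair [DecidableEq E] (u x : E) : sF ({u, -u} : Finset E) x = |inner ℝ u x| := by
  have hA : ({u, -u} : Finset E).Nonempty := ⟨u, by simp⟩
  apply le_antisymm
  · apply sF_le hA
    intro p hp
    simp only [Finset.mem_insert, Finset.mem_singleton] at hp
    rcases hp with rfl | rfl
    · exact le_abs_self _
    · rw [inner_neg_left]; exact neg_le_abs _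
  · rw [abs_le']
    refine ⟨le_sF (by simp) x, ?_⟩
    rw [← inner_neg_left]
    exact le_sF (by simp) x

theorem wd_face_pair [DecidableEq E] (u x w : E) :
    wd (face ({u, -u} : Finset E) x) w = if inner ℝ u x = 0 then 2 * |inner ℝ u w| else 0 := by
  split_ifs with h
  · have : face ({u, -u} : Finset E) x = {u, -u} := by
      ext p
      rw [mem_face, sF_pair, h, abs_zero]
      constructor
      · exact fun h => h.1
      · intro hp
        refine ⟨hp, ?_⟩
        simp only [Finset.mem_insert, Finset.mem_singleton] at hp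
        rcases hp with rfl | rfl
        · exact h
        · rw [inner_neg_left, h, neg_zero]
    rw [this]
    unfold wd
    rw [sF_pair, sF_pair, inner_neg_right, abs_neg]
    ring
  · have hA : ({u, -u} : Finset E).Nonempty := ⟨u, by simp⟩
    obtain ⟨p, hp, q, hq, hpq⟩ := exists_wd (face_nonempty hA x) w
    rw [← hpq]
    have h1 := mem_face.mp hp
    have h2 := mem_face.mp hq
    have h3 : inner ℝ p x = inner ℝ q x := by rw [h1.2, h2.2]
    have : p = q := by
      have e1 := h1.1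
      have e2 := h2.1
      simp only [Finset.mem_insert, Finset.mem_singleton] at e1 e2
      rcases e1 with rfl | rfl <;> rcases e2 with rfl | rfl
      · rfl
      · rw [inner_neg_left] at h3; exact absurd (by linarith) h
      · rw [inner_neg_left] at h3; exact absurd (by linarith) h
      · rfl
    rw [this, sub_self, inner_zero_left]

theorem line_filter {A : Finset E} (hA : A.Nonempty) (x w : E) :
    ∀ᶠ t in 𝓝[>] (0 : ℝ), sF A (x + t • w) = sF A x + t * sF (face A x) w := by
  obtain ⟨δ, hδ, h⟩ := eventually_line hA x w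
  filter_upwards [Ioo_mem_nhdsGT hδ] with t ht
  exact (h t ht.1 ht.2).1

theorem affine_of_local (φ : ℝ → ℝ)
    (h : ∀ s, ∃ a : ℝ, ∀ᶠ s' in 𝓝 s, φ s' = φ s + (s' - s) * a) :
    ∃ a : ℝ, ∀ s, φ s = φ 0 + s * a := by
  choose a ha using h
  have hd : ∀ s s', (∀ᶠ s'' in 𝓝 s', φ s'' = φ s + (s'' - s) * a s) → HasDerivAt φ (a s) s' := by
    intro s s' h
    have h1 : HasDerivAt (fun s'' => φ s + (s'' - s) * a s) (a s) s' := by
      have := (((hasDerivAt_id s').sub_const s).mul_const (a s)).const_add (φ s)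
      simpa using this
    exact h1.congr_of_eventuallyEq h
  have hd1 : ∀ s, HasDerivAt φ (a s) s := fun s => hd s s (ha s)
  have hloc : IsLocallyConstant a := by
    rw [IsLocallyConstant.iff_eventually_eq]
    intro s
    filter_upwards [(ha s).eventually_nhds] with s' hs'
    exact (hd1 s').unique (hd s s' hs')
  have hconst : ∀ s, a s = a 0 := fun s => hloc.apply_eq_of_preconnectedSpace s 0
  refine ⟨a 0, fun s => ?_⟩
  have h2 : ∀ s, HasDerivAt (fun s => φ s - s * a 0) 0 s := by
    intro s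
    have := (hd1 s).sub ((hasDerivAt_id s).mul_const (a 0))
    simp only [one_mul] at this
    rw [hconst s, sub_self] at this
    exact this
  have h3 := is_const_of_deriv_eq_zero (fun s => (h2 s).differentiableAt) (fun s => (h2 s).deriv) s 0
  simp only [zero_mul, sub_zero] at h3
  linarith

/-- TARGET C. If for every linearly independent `v, w` and every complement `U` of `span {v, w}`
the two widths agree on a dense set of `y ∈ U`, then the support function of the symmetric finite
set `S` is that of a zonotope. -/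
theorem partC [FiniteDimensional ℝ E] (S : Finset E) (hS : S.Nonempty) (hsym : ∀ p ∈ S, -p ∈ S)
    (H : ∀ (v w : E) (U : Submodule ℝ E), LinearIndependent ℝ ![v, w] →
      IsCompl U (Submodule.span ℝ {v, w}) → ∀ y₀ ∈ U, ∀ ε > 0, ∃ y ∈ U, dist y y₀ < ε ∧
        wd (face (face S y) w) v = wd (face (face S y) (-w)) v) :
    ∃ (m : ℕ) (r : Fin m → E), ∀ x, sF S x = ∑ i, |inner ℝ (r i) x| := by
  classical
  let N : Finset E := (finite_isDiff S).toFinset
  have hN : ∀ u, u ∈ N ↔ IsDiff S u := by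
    intro u
    simp [N]
  let L : E → ℝ := fun u => if h : ∃ z, Simple S u z then wd (face S h.choose) u else 0
  have hL : ∀ u, IsDiff S u → ∀ z, Simple S u z → L u = wd (face S z) u := by
    intro u hu z hz
    have h : ∃ z, Simple S u z := ⟨z, hz⟩
    simp only [L]
    rw [dif_pos h]
    exact wd_simple_const S hS H hu.1 h.choose_spec hz
  have hL0 : ∀ u, 0 ≤ L u := by
    intro u
    simp only [L]
    split_ifs with h
    · exact wd_nonneg _ _
    · exact le_rfl
  let m : E → ℕ := fun u => (N.filter (fun v => ∃ c : ℝ, v = c • u)).card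
  let c : E → ℝ := fun u => L u / (2 * ‖u‖ ^ 2 * m u)
  have hc0 : ∀ u, 0 ≤ c u := fun u => div_nonneg (hL0 u) (by positivity)
  let A : E → Finset E := fun u => {u, -u}
  have hA : ∀ u, (A u).Nonempty := fun u => ⟨u, by simp [A]⟩
  let f : E → ℝ := fun x => sF S x - ∑ u ∈ N, c u * sF (A u) x
  -- the key identity
  have key : ∀ x w, (∀ u₁ u₂, IsDiff S u₁ → IsDiff S u₂ → inner ℝ u₁ x = 0 → inner ℝ u₂ x = 0 →
      ∃ c : ℝ, u₂ = c • u₁) →
      wd (face S x) w = ∑ u ∈ N, c u * wd (face (A u) x) w := by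
    intro x w hx
    let T := N.filter (fun u => inner ℝ u x = 0)
    have hsum : ∑ u ∈ N, c u * wd (face (A u) x) w = ∑ u ∈ T, c u * (2 * |inner ℝ u w|) := by
      rw [Finset.sum_filter]
      apply Finset.sum_congr rfl
      intro u _
      simp only [A]
      rw [wd_face_pair]
      split_ifs <;> simp
    rw [hsum]
    by_cases hT : T.Nonempty
    · have hterm : ∀ u ∈ T, c u * (2 * |inner ℝ u w|) = wd (face S x) w / T.card := by
        intro u hu
        have huN : IsDiff S u := (hN u).mp (Finset.mem_filter.mp hu).1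
        have hux : inner ℝ u x = 0 := (Finset.mem_filter.mp hu).2
        have hs : Simple S u x := ⟨hux, fun u' hu' hu'x => hx u u' huN hu' hux hu'x⟩
        have hTm : N.filter (fun v => ∃ c : ℝ, v = c • u) = T := by
          ext v
          simp only [T, Finset.mem_filter]
          constructor
          · rintro ⟨hv, c, rfl⟩
            refine ⟨hv, ?_⟩
            rw [inner_smul_left, hux]
            simp
          · rintro ⟨hv, hvx⟩
            exact ⟨hv, hx u v huN ((hN v).mp hv) hux hvx⟩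
        have hline := wd_line (face_nonempty hS x) (u := u) (by
          intro p hp q hq
          by_cases hpq : p = q
          · exact ⟨0, by rw [hpq, sub_self, zero_smul]⟩
          · exact hx u (p - q) huN ⟨sub_ne_zero.mpr hpq, p, face_subset _ _ hp, q,
              face_subset _ _ hq, rfl⟩ hux (face_inner_eq hp hq)) w
        have hu0 : ‖u‖ ^ 2 ≠ 0 := pow_ne_zero _ (norm_ne_zero_iff.mpr huN.1)
        have hTc : (T.card : ℝ) ≠ 0 := Nat.cast_ne_zero.mpr (Finset.card_ne_zero.mpr hT)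
        simp only [c, m]
        rw [hTm, hL u huN x hs]
        have hu1 : ‖u‖ ≠ 0 := norm_ne_zero_iff.mpr huN.1
        rw [div_mul_eq_mul_div, div_eq_div_iff (by positivity) hTc]
        linear_combination (-2 * (T.card : ℝ)) * hline
      rw [Finset.sum_congr rfl hterm, Finset.sum_const, nsmul_eq_mul]
      have hTc : (T.card : ℝ) ≠ 0 := Nat.cast_ne_zero.mpr (Finset.card_ne_zero.mpr hT)
      field_simp
    · rw [Finset.not_nonempty_iff_eq_empty.mp hT, Finset.sum_empty]
      obtain ⟨p, hp, q, hq, hpq⟩ := exists_wd (face_nonempty hS x) w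
      rw [← hpq]
      by_cases hpq' : p = q
      · rw [hpq', sub_self, inner_zero_left]
      · exfalso
        apply hT
        refine ⟨p - q, ?_⟩
        simp only [T, Finset.mem_filter]
        exact ⟨(hN _).mpr ⟨sub_ne_zero.mpr hpq', p, face_subset _ _ hp, q,
          face_subset _ _ hq, rfl⟩, face_inner_eq hp hq⟩
  -- `f` is affine along generic lines
  have haff : ∀ x₁ x₂, (∀ u₁ u₂, IsDiff S u₁ → IsDiff S u₂ → u₁ ∉ Submodule.span ℝ {0, u₂} →
      u₂ ∉ Submodule.span ℝ {0, u₁} → bil u₁ u₂ x₁ x₂ ≠ 0) →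
      f x₁ + f x₂ = 2 * f ((1 / 2 : ℝ) • (x₁ + x₂)) := by
    intro x₁ x₂ hgen
    let w := x₂ - x₁
    let φ : ℝ → ℝ := fun s => f (x₁ + s • w)
    have hloc : ∀ s, ∃ a : ℝ, ∀ᶠ s' in 𝓝 s, φ s' = φ s + (s' - s) * a := by
      intro s
      let x := x₁ + s • w
      have hx : ∀ u₁ u₂, IsDiff S u₁ → IsDiff S u₂ → inner ℝ u₁ x = 0 → inner ℝ u₂ x = 0 →
          ∃ c : ℝ, u₂ = c • u₁ := by
        intro u₁ u₂ hu₁ hu₂ h1 h2
        have hb : bil u₁ u₂ x₁ x₂ = 0 := by
          have e2 : x₂ = x₁ + w := by simp only [w]; abel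
          unfold bil
          rw [e2, inner_add_right, inner_add_right]
          simp only [x] at h1 h2
          rw [inner_add_right, inner_smul_right] at h1 h2
          have e3 : inner ℝ u₁ x₁ = - (s * inner ℝ u₁ w) := by linarith
          have e4 : inner ℝ u₂ x₁ = - (s * inner ℝ u₂ w) := by linarith
          rw [e3, e4]
          ring
        by_contra hcon
        refine hgen u₁ u₂ hu₁ hu₂ ?_ ?_ hb
        · intro hm
          rw [Submodule.mem_span_pair] at hm
          obtain ⟨a, b, hab⟩ := hm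
          rw [smul_zero, zero_add] at hab
          have hb0 : b ≠ 0 := by
            rintro rfl
            rw [zero_smul] at hab
            exact hu₁.1 hab.symm
          apply hcon
          exact ⟨b⁻¹, by rw [← hab, smul_smul, inv_mul_cancel₀ hb0, one_smul]⟩
        · intro hm
          rw [Submodule.mem_span_pair] at hm
          obtain ⟨a, b, hab⟩ := hm
          rw [smul_zero, zero_add] at hab
          exact hcon ⟨b, hab.symm⟩
      let R : E → ℝ := fun v => sF (face S x) v - ∑ u ∈ N, c u * sF (face (A u) x) v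
      have hR : R w + R (-w) = 0 := by
        have := key x w hx
        unfold wd at this
        simp only [mul_add, Finset.sum_add_distrib] at this
        simp only [R]
        linarith
      have hline : ∀ v, ∀ᶠ t in 𝓝[>] (0 : ℝ), f (x + t • v) = f x + t * R v := by
        intro v
        have e1 := line_filter hS x v
        have e2 : ∀ᶠ t in 𝓝[>] (0 : ℝ), ∀ u ∈ N,
            sF (A u) (x + t • v) = sF (A u) x + t * sF (face (A u) x) v :=
          (Filter.eventually_all_finset N).mpr fun u _ => line_filter (hA u) x v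
        filter_upwards [e1, e2] with t h1 h2
        simp only [f, R]
        rw [h1, Finset.sum_congr rfl fun u hu => by rw [h2 u hu]]
        simp only [mul_add, mul_sub, Finset.sum_add_distrib, Finset.mul_sum]
        have : ∑ u ∈ N, c u * (t * sF (face (A u) x) v) = ∑ u ∈ N, t * (c u * sF (face (A u) x) v) :=
          Finset.sum_congr rfl fun u _ => by ring
        rw [this]
        ring
      obtain ⟨δ, hδ, h⟩ := mem_nhdsGT_iff_exists_Ioo_subset.mp ((hline w).and (hline (-w)))
      refine ⟨R w, ?_⟩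
      rw [Metric.eventually_nhds_iff]
      refine ⟨δ, hδ, ?_⟩
      intro s' hs'
      rw [Real.dist_eq] at hs'
      rcases lt_trichotomy s' s with hlt | heq | hgt
      · rw [abs_of_neg (by linarith)] at hs'
        have hm : (s - s') ∈ Set.Ioo (0 : ℝ) δ := ⟨by linarith, by linarith⟩
        have := (h hm).2
        have e : x + (s - s') • (-w) = x₁ + s' • w := by
          simp only [x]; rw [smul_neg, sub_smul]; abel
        rw [e] at this
        simp only [φ]
        rw [this]
        have : R (-w) = - R w := by linarith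
        rw [this]
        ring
      · rw [heq]; simp
      · rw [abs_of_pos (by linarith)] at hs'
        have hm : (s' - s) ∈ Set.Ioo (0 : ℝ) δ := ⟨by linarith, by linarith⟩
        have := (h hm).1
        have e : x + (s' - s) • w = x₁ + s' • w := by
          simp only [x]; rw [sub_smul]; abel
        rw [e] at this
        simp only [φ]
        rw [this]
    obtain ⟨a, ha⟩ := affine_of_local φ hloc
    have h1 := ha 1
    have h2 := ha (1 / 2)
    have e0 : φ 0 = f x₁ := by simp only [φ]; rw [zero_smul, add_zero]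
    have e1 : φ 1 = f x₂ := by
      simp only [φ, w]; rw [one_smul, add_sub_cancel]
    have e2 : φ (1 / 2) = f ((1 / 2 : ℝ) • (x₁ + x₂)) := by
      simp only [φ, w]
      congr 1
      rw [smul_sub, smul_add]
      have : x₁ = (1 / 2 : ℝ) • x₁ + (1 / 2 : ℝ) • x₁ := by
        rw [← add_smul]; norm_num
      nth_rewrite 1 [this]
      abel
    rw [← e0, ← e1, ← e2, h1, h2]
    ring
  have hfc : Continuous f := by
    simp only [f]
    refine (continuous_sF S).sub (continuous_finsetSum _ fun u _ => ?_)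
    exact continuous_const.mul (continuous_sF (A u))
  have haff2 : ∀ x₁ x₂, f x₁ + f x₂ = 2 * f ((1 / 2 : ℝ) • (x₁ + x₂)) := by
    intro x₁ x₂
    by_contra hne
    have hc : Continuous fun q : E × E => f q.1 + f q.2 - 2 * f ((1 / 2 : ℝ) • (q.1 + q.2)) := by
      fun_prop
    have hev := (hc.tendsto (x₁, x₂)).eventually_ne (sub_ne_zero.mpr hne)
    rw [Metric.eventually_nhds_iff] at hev
    obtain ⟨ε, hε, hev⟩ := hev
    let P : Set (E × E) := {q | IsDiff S q.1 ∧ IsDiff S q.2 ∧
      q.1 ∉ Submodule.span ℝ {0, q.2} ∧ q.2 ∉ Submodule.span ℝ {0, q.1}}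
    have hP : P.Finite := by
      refine ((finite_isDiff S).prod (finite_isDiff S)).subset ?_
      intro q hq
      exact ⟨hq.1, hq.2.1⟩
    obtain ⟨y₁, y₂, -, -, hd₁, hd₂, hgen⟩ := generic_pair 0 P hP (fun q hq => hq.2.2.1)
      (fun q hq => hq.2.2.2) x₁ x₂ (inner_zero_left _) (inner_zero_left _) ε hε
    have h1 := haff y₁ y₂ fun u₁ u₂ hu₁ hu₂ h1 h2 => hgen (u₁, u₂) ⟨hu₁, hu₂, h1, h2⟩
    have h2 : f y₁ + f y₂ - 2 * f ((1 / 2 : ℝ) • (y₁ + y₂)) ≠ 0 :=
      hev (y := (y₁, y₂)) (by rw [Prod.dist_eq]; exact max_lt hd₁ hd₂)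
    exact h2 (sub_eq_zero.mpr h1)
  have hf0 : f 0 = 0 := by
    simp only [f]
    rw [sF_zero]
    simp [sF_zero]
  have hfeven : ∀ x, f (-x) = f x := by
    intro x
    simp only [f, A]
    rw [sF_neg hsym]
    congr 1
    apply Finset.sum_congr rfl
    intro u _
    rw [sF_pair, sF_pair, inner_neg_right, abs_neg]
  have hf : ∀ x, f x = 0 := by
    intro x
    have := haff2 x (-x)
    rw [add_neg_cancel, smul_zero, hf0, hfeven] at this
    linarith
  refine ⟨N.card, fun i => c (N.equivFin.symm i) • ((N.equivFin.symm i : N) : E), fun x => ?_⟩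
  have h1 : sF S x = ∑ u ∈ N, c u * sF (A u) x := by
    have := hf x
    simp only [f] at this
    linarith
  rw [h1, ← Finset.sum_coe_sort N (fun u => c u * sF (A u) x),
    ← Equiv.sum_comp N.equivFin.symm (fun u : N => c (u : E) * sF (A (u : E)) x)]
  apply Finset.sum_congr rfl
  intro i _
  simp only [A]
  rw [sF_pair, inner_smul_left, abs_mul]
  simp only [conj_trivial]
  rw [abs_of_nonneg (hc0 _)]


end PartC

section PartD

variable {E : Type*} [NormedAddCommGroup E] [InnerProductSpace ℝ E]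


/-- TARGET D. A symmetric polytope with nonempty interior is the unit ball of a finite maximum of
linear functionals. -/
theorem partD [FiniteDimensional ℝ E] (K : Set E) (V : Finset E) (hK : K = convexHull ℝ (V : Set E))
    (hint : (interior K).Nonempty) (hsym : ∀ x ∈ K, -x ∈ K) :
    ∃ S : Finset E, S.Nonempty ∧ (∀ p ∈ S, -p ∈ S) ∧ (∃ c > 0, ∀ x, c * ‖x‖ ≤ sF S x) ∧
      K = {x | sF S x ≤ 1} := by
  classical
  haveI : ProperSpace E := FiniteDimensional.proper_real E
  have hKconv : Convex ℝ K := by rw [hK]; exact convex_convexHull ℝ _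
  have hKcomp : IsCompact K := by rw [hK]; exact V.finite_toSet.isCompact_convexHull ℝ
  -- zero is interior
  have h0int : (0 : E) ∈ interior K := by
    obtain ⟨x, hx⟩ := hint
    have hnx : -x ∈ interior K := by
      rw [mem_interior] at hx ⊢
      obtain ⟨U, hUK, hU, hxU⟩ := hx
      refine ⟨-U, ?_, hU.neg, by simpa using hxU⟩
      intro y hy
      have := hsym _ (hUK (Set.mem_neg.mp hy))
      rwa [neg_neg] at this
    have h := hKconv.interior hx hnx (a := 1 / 2) (b := 1 / 2) (by norm_num) (by norm_num)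
      (by norm_num)
    rw [smul_neg, add_neg_cancel] at h
    exact h
  have h0K : (0 : E) ∈ K := interior_subset h0int
  obtain ⟨c, hc, hcK⟩ := Metric.nhds_basis_closedBall.mem_iff.mp (mem_interior_iff_mem_nhds.mp h0int)
  set P : Set E := {y | ∀ x ∈ K, inner ℝ y x ≤ 1} with hP
  have hPV : ∀ y, (∀ x ∈ V, inner ℝ y x ≤ 1) → y ∈ P := by
    intro y hy x hx
    rw [hK] at hx
    have hconv : Convex ℝ {x : E | inner ℝ y x ≤ 1} :=
      convex_halfSpace_le (f := fun x => inner ℝ y x)
        (IsLinearMap.mk (fun a b => inner_add_right _ _ _) (fun r a => inner_smul_right _ _ _)) 1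
    exact convexHull_min (fun x hx => hy x hx) hconv hx
  have hVK : ∀ x ∈ V, x ∈ K := by
    intro x hx
    rw [hK]
    exact subset_convexHull ℝ _ hx
  have hPconv : Convex ℝ P := by
    intro y hy z hz a b ha hb hab x hx
    rw [inner_add_left, inner_smul_left, inner_smul_left]
    simp only [conj_trivial]
    have h1 := mul_le_mul_of_nonneg_left (hy x hx) ha
    have h2 := mul_le_mul_of_nonneg_left (hz x hx) hb
    linarith
  have hPclosed : IsClosed P := by
    have : P = ⋂ x ∈ K, {y : E | inner ℝ y x ≤ 1} := by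
      ext y; simp [hP]
    rw [this]
    exact isClosed_biInter fun x _ =>
      isClosed_le (Continuous.inner continuous_id continuous_const) continuous_const
  have hPbdd : ∀ y ∈ P, ‖y‖ ≤ c⁻¹ := by
    intro y hy
    by_cases hy0 : y = 0
    · rw [hy0, norm_zero]; positivity
    · have hyn : 0 < ‖y‖ := norm_pos_iff.mpr hy0
      have hmem : (c * ‖y‖⁻¹) • y ∈ K := by
        apply hcK
        rw [mem_closedBall_zero_iff, norm_smul, Real.norm_eq_abs, abs_of_nonneg (by positivity),
          mul_assoc, inv_mul_cancel₀ hyn.ne', mul_one]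
      have h1 := hy _ hmem
      rw [inner_smul_right, real_inner_self_eq_norm_sq] at h1
      have h2 : c * ‖y‖⁻¹ * ‖y‖ ^ 2 = c * ‖y‖ := by field_simp
      rw [h2] at h1
      rw [le_inv_comm₀ hyn hc]
      rw [← one_div, le_div_iff₀ hyn]
      exact h1
  have hPcomp : IsCompact P := by
    apply Metric.isCompact_of_isClosed_isBounded hPclosed
    rw [isBounded_iff_forall_norm_le]
    exact ⟨c⁻¹, hPbdd⟩
  have h0P : (0 : E) ∈ P := fun x _ => by rw [inner_zero_left]; exact zero_le_one
  -- finitely many extreme points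
  have hfin : (P.extremePoints ℝ).Finite := by
    apply Set.Finite.of_injOn (f := fun y => V.filter (fun x => inner ℝ y x = 1))
      (t := (V.powerset : Set (Finset E)))
    · intro y _
      exact Finset.mem_coe.mpr (Finset.mem_powerset.mpr (Finset.filter_subset _ _))
    · intro y hy z hz hyz
      by_contra hne
      have hd : z - y ≠ 0 := sub_ne_zero.mpr (Ne.symm hne)
      have hev : ∀ᶠ t in 𝓝 (0 : ℝ), ∀ x ∈ V, inner ℝ (y + t • (z - y)) x ≤ 1 := by
        apply (eventually_all_finset V).mpr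
        intro x hx
        by_cases hact : inner ℝ y x = 1
        · have hmem : x ∈ V.filter (fun x => inner ℝ z x = 1) := by
            have h0 : x ∈ V.filter (fun x => inner ℝ y x = 1) := Finset.mem_filter.mpr ⟨hx, hact⟩
            have hyz' : V.filter (fun x => inner ℝ y x = 1)
              = V.filter (fun x => inner ℝ z x = 1) := hyz
            rwa [hyz'] at h0
          have hz1 := (Finset.mem_filter.mp hmem).2
          apply Eventually.of_forall
          intro t
          rw [inner_add_left, inner_smul_left, inner_sub_left, hact, hz1]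
          simp
        · have hlt : inner ℝ y x < 1 := lt_of_le_of_ne (hy.1 x (hVK x hx)) hact
          have hcont : Continuous (fun t : ℝ => inner ℝ (y + t • (z - y)) x) := by fun_prop
          have h1 := hcont.tendsto 0
          simp only [zero_smul, add_zero] at h1
          exact (h1.eventually_lt_const hlt).mono fun t ht => ht.le
      rw [Metric.eventually_nhds_iff] at hev
      obtain ⟨δ, hδ, hδ'⟩ := hev
      have e1 : y + (δ / 2) • (z - y) ∈ P := hPV _ (hδ' (by
        rw [Real.dist_eq, sub_zero, abs_of_pos (by positivity)]; linarith))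
      have e2 : y + (-(δ / 2)) • (z - y) ∈ P := hPV _ (hδ' (by
        rw [Real.dist_eq, sub_zero, abs_neg, abs_of_pos (by positivity)]; linarith))
      have hext := (mem_extremePoints.mp hy).2 _ e1 _ e2 (by
        refine ⟨1 / 2, 1 / 2, by norm_num, by norm_num, by norm_num, ?_⟩
        module)
      have h3 : (δ / 2) • (z - y) = 0 := by
        have := hext.1
        rwa [add_eq_left] at this
      rcases smul_eq_zero.mp h3 with h | h
      · linarith
      · exact hd h
    · exact Finset.finite_toSet _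
  set S : Finset E := hfin.toFinset with hS
  have hSmem : ∀ p, p ∈ S ↔ p ∈ P.extremePoints ℝ := fun p => by rw [hS, Set.Finite.mem_toFinset]
  have hSne : S.Nonempty := by
    obtain ⟨p, hp⟩ := hPcomp.extremePoints_nonempty ⟨0, h0P⟩
    exact ⟨p, (hSmem p).mpr hp⟩
  have hPS : P = convexHull ℝ (S : Set E) := by
    have h1 := closure_convexHull_extremePoints hPcomp hPconv
    have h2 : (S : Set E) = P.extremePoints ℝ := by rw [hS, Set.Finite.coe_toFinset]
    rw [← h2, IsClosed.closure_eq (S.finite_toSet.isClosed_convexHull ℝ)] at h1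
    exact h1.symm
  have hPneg : ∀ y ∈ P, -y ∈ P := by
    intro y hy x hx
    rw [inner_neg_left, ← inner_neg_right]
    exact hy _ (hsym x hx)
  have hSP : ∀ p ∈ S, p ∈ P := fun p hp => ((hSmem p).mp hp).1
  have hSneg : ∀ p ∈ S, -p ∈ S := by
    intro p hp
    rw [hSmem] at hp ⊢
    rw [mem_extremePoints] at hp ⊢
    refine ⟨hPneg p hp.1, ?_⟩
    intro a ha b hb hab
    obtain ⟨s, t, hs, ht, hst, hab⟩ := hab
    have h1 := hp.2 (-a) (hPneg a ha) (-b) (hPneg b hb) ⟨s, t, hs, ht, hst, by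
      rw [smul_neg, smul_neg, ← neg_add, hab, neg_neg]⟩
    exact ⟨by rw [← h1.1, neg_neg], by rw [← h1.2, neg_neg]⟩
  have hle : ∀ y ∈ P, ∀ x, inner ℝ y x ≤ sF S x := by
    intro y hy x
    rw [hPS] at hy
    have hconv : Convex ℝ {y : E | inner ℝ y x ≤ sF S x} :=
      convex_halfSpace_le (f := fun y => inner ℝ y x)
        (IsLinearMap.mk (fun a b => inner_add_left _ _ _)
          (fun r a => by rw [inner_smul_left]; simp)) _
    exact convexHull_min (fun p hp => le_sF hp x) hconv hy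
  have hKeq : K = {x | sF S x ≤ 1} := by
    ext x
    constructor
    · intro hx
      exact sF_le hSne fun p hp => hSP p hp x hx
    · intro hx
      by_contra hxK
      obtain ⟨f, u, hfu, hux⟩ := geometric_hahn_banach_closed_point hKconv hKcomp.isClosed hxK
      have hu : 0 < u := by
        have := hfu 0 h0K
        rwa [map_zero] at this
      set y₀ := (InnerProductSpace.toDual ℝ E).symm f with hy₀
      have hy₀f : ∀ z, inner ℝ y₀ z = f z := fun z => InnerProductSpace.toDual_symm_apply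
      have hyP : u⁻¹ • y₀ ∈ P := by
        intro z hz
        rw [inner_smul_left, hy₀f]
        simp only [conj_trivial]
        rw [inv_mul_le_iff₀ hu, mul_one]
        exact (hfu z hz).le
      have h1 := (hle _ hyP x).trans hx
      rw [inner_smul_left, hy₀f] at h1
      simp only [conj_trivial] at h1
      rw [inv_mul_le_iff₀ hu, mul_one] at h1
      linarith
  refine ⟨S, hSne, hSneg, ?_, hKeq⟩
  obtain ⟨R, hR⟩ := (isBounded_iff_forall_norm_le.mp hKcomp.isBounded)
  have hR0 : 0 < |R| + 1 := by positivity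
  have hR' : ∀ x ∈ K, ‖x‖ ≤ |R| + 1 := fun x hx => by
    have := hR x hx
    have := le_abs_self R
    linarith
  refine ⟨(|R| + 1)⁻¹, by positivity, ?_⟩
  intro x
  by_cases hx0 : x = 0
  · rw [hx0, norm_zero, mul_zero, sF_zero]
  have hxn : 0 < ‖x‖ := norm_pos_iff.mpr hx0
  have key : ∀ t : ℝ, 0 ≤ t → t * sF S x ≤ 1 → t * ‖x‖ ≤ |R| + 1 := by
    intro t ht h
    have hmem : t • x ∈ K := by
      rw [hKeq]
      show sF S (t • x) ≤ 1
      rw [sF_smul S ht]
      exact h
    have := hR' _ hmem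
    rwa [norm_smul, Real.norm_eq_abs, abs_of_nonneg ht] at this
  have hspos : 0 < sF S x := by
    by_contra hneg
    push Not at hneg
    have h1 := key ((|R| + 2) * ‖x‖⁻¹) (by positivity) (by
      have : (|R| + 2) * ‖x‖⁻¹ * sF S x ≤ 0 := mul_nonpos_of_nonneg_of_nonpos (by positivity) hneg
      linarith)
    rw [mul_assoc, inv_mul_cancel₀ hxn.ne', mul_one] at h1
    linarith
  have h1 := key (sF S x)⁻¹ (by positivity) (by rw [inv_mul_cancel₀ hspos.ne'])
  rw [inv_mul_le_iff₀ hspos] at h1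
  rw [inv_mul_le_iff₀ hR0, mul_comm]
  exact h1

end PartD

section Final

variable {E : Type*} [NormedAddCommGroup E] [InnerProductSpace ℝ E]

theorem sum_abs_polar {m : ℕ} (r : Fin m → E) :
    {x | ∑ i, |inner ℝ (r i) x| ≤ 1} =
      polarBody {x | ∃ t : Fin m → ℝ, (∀ i, |t i| ≤ 1) ∧ x = ∑ i, t i • r i} := by
  ext x
  constructor
  · rintro hx z ⟨t, ht, rfl⟩
    have hx' : ∑ i, |inner ℝ (r i) x| ≤ 1 := hx
    rw [sum_inner]
    refine le_trans (Finset.sum_le_sum fun i _ => ?_) hx'
    rw [real_inner_smul_left]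
    calc t i * inner ℝ (r i) x ≤ |t i * inner ℝ (r i) x| := le_abs_self _
      _ = |t i| * |inner ℝ (r i) x| := abs_mul _ _
      _ ≤ 1 * |inner ℝ (r i) x| := by gcongr; exact ht i
      _ = _ := one_mul _
  · intro hx
    have h := hx (∑ i, (if 0 ≤ inner ℝ (r i) x then (1:ℝ) else -1) • r i)
      ⟨fun i => if 0 ≤ inner ℝ (r i) x then (1:ℝ) else -1, fun i => by
        dsimp only; split_ifs <;> simp, rfl⟩
    rw [sum_inner] at h
    refine le_trans (Finset.sum_le_sum fun i _ => ?_) h
    rw [real_inner_smul_left]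
    split_ifs with h'
    · rw [abs_of_nonneg h', one_mul]
    · push Not at h'
      rw [abs_of_neg h']; simp

theorem main_aux [FiniteDimensional ℝ E] [MeasurableSpace E] [BorelSpace E]
    (hn : 5 ≤ Module.finrank ℝ E) {K : Set E} (hP : IsPolytope K) (hI : IsIntersectionBody K) :
    ∃ Z : Set E, IsSymmZonotope Z ∧ K = polarBody Z := by
  obtain ⟨⟨V, hV⟩, hint⟩ := hP
  obtain ⟨S, hS, hsym, ⟨c, hc, hlow⟩, hKS⟩ := partD K V hV hint hI.1.2.1
  have P : ∀ g : E → ℝ, Continuous g → (∀ x, g (-x) = g x) →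
      (∃ C c' : ℝ, 0 < c' ∧ ∀ x, |g x| ≤ C * Real.exp (-(c' * ‖x‖ ^ 2))) →
      (∀ v : E, ‖v‖ = 1 → 0 ≤ ∫ x : (ℝ ∙ v)ᗮ, g x) → 0 ≤ ∫ x, g x / sF S x := by
    rintro g hg hge ⟨C, c', hc', hb⟩ hpos
    exact partA (by omega) hI.2 (continuous_sF S) (fun t ht x => sF_smul S ht x) hc hlow hKS hg hge
      hc' hb hpos
  obtain ⟨m, r, hr⟩ := partC S hS hsym
    (fun v w U hvw hU y₀ hy₀ ε hε => partB hn hS hsym hc hlow P v w U hvw hU y₀ hy₀ ε hε)
  refine ⟨{x | ∃ t : Fin m → ℝ, (∀ i, |t i| ≤ 1) ∧ x = ∑ i, t i • r i}, ⟨m, r, ?_, rfl⟩, ?_⟩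
  · rw [← Submodule.orthogonal_eq_bot_iff, Submodule.eq_bot_iff]
    intro x hx
    have h0 : ∀ i, inner ℝ (r i) x = 0 := fun i =>
      (Submodule.mem_orthogonal _ _).mp hx _ (Submodule.subset_span ⟨i, rfl⟩)
    have h1 : sF S x = 0 := by rw [hr]; simp [h0]
    have h2 := hlow x
    rw [h1] at h2
    have h3 : ‖x‖ ≤ 0 := by
      by_contra hcon
      push Not at hcon
      have : 0 < c * ‖x‖ := by positivity
      linarith
    exact norm_le_zero_iff.mp h3
  · rw [← sum_abs_polar, hKS]
    ext x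
    rw [Set.mem_ofPred_eq, Set.mem_ofPred_eq, hr]

/-- For every `n ≥ 5`, every polytope in `ℝⁿ` that is an intersection body is the polar of an
origin-symmetric zonotope. -/
theorem result (n : ℕ) (hn : 5 ≤ n) (K : Set (EuclideanSpace ℝ (Fin n))) (hP : IsPolytope K)
    (hI : IsIntersectionBody K) :
    ∃ Z : Set (EuclideanSpace ℝ (Fin n)), IsSymmZonotope Z ∧ K = polarBody Z :=
  main_aux (by simpa using hn) hP hI

end Final

end Pool.Agent.Results.MP_937656_gt.PolytopeIntersection
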